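import Pool.Agent.H342R3.Lim.Stubs
import Pool.Agent.H934R2.Expl.Model

/-! CPT: the outer boundary is compact, nonempty and inside the unit square. -/

namespace H342L

open H342P H342P.Plain MeasureTheory TopologicalSpace Filter Topology

theorem CPT_cluster_finite (F : Finset Edge) (v : ℤ × ℤ) : (cluster F v).Finite := by
  have h : cluster F v = {w | H974.Reach (↑F : Set Edge) v w} := by
    ext w
    exact mem_cluster F v w
  rw [h]
  exact H934E.Rect.reach_finite F.finite_toSet v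

theorem CPT_clusterEdges_finite (F : Finset Edge) (v : ℤ × ℤ) : (clusterEdges F v).Finite :=
  F.finite_toSet.subset fun _ he => he.1

theorem CPT_isCompact_seg (n : ℕ) (e : Edge) : IsCompact (seg n e) := by
  unfold seg
  rw [segment_eq_image]
  exact isCompact_Icc.image (by fun_prop)

theorem CPT_isCompact_body (n : ℕ) (F : Finset Edge) (v : ℤ × ℤ) : IsCompact (body n F v) := by
  unfold body
  refine IsCompact.union ?_ ?_
  · exact (CPT_cluster_finite F v).isCompact_biUnion fun w _ => isCompact_singleton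
  · exact (CPT_clusterEdges_finite F v).isCompact_biUnion fun e _ => CPT_isCompact_seg n e

theorem CPT_isOpen_compl (n : ℕ) (F : Finset Edge) (v : ℤ × ℤ) : IsOpen (body n F v)ᶜ :=
  (CPT_isCompact_body n F v).isClosed.isOpen_compl

theorem CPT_pt_mem (n : ℕ) (F : Finset Edge) (v : ℤ × ℤ) : pt n v ∈ body n F v := by
  left
  refine Set.mem_biUnion (x := v) ?_ (Set.mem_singleton _)
  exact SimpleGraph.Reachable.refl v

theorem CPT_component (n : ℕ) (F : Finset Edge) (v : ℤ × ℤ) {z y : ℂ}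
    (hy : y ∈ connectedComponentIn (body n F v)ᶜ z) : y ∈ outside n F v ↔ z ∈ outside n F v := by
  have hz : z ∈ (body n F v)ᶜ := by
    by_contra hcon
    rw [connectedComponentIn_eq_empty hcon] at hy
    exact hy
  have hyU : y ∈ (body n F v)ᶜ := connectedComponentIn_subset _ _ hy
  have he := connectedComponentIn_eq hy
  unfold outside
  rw [Set.mem_ofPred_eq, Set.mem_ofPred_eq, he]
  exact ⟨fun h => ⟨hz, h.2⟩, fun h => ⟨hyU, h.2⟩⟩

theorem CPT_frontier_sub (n : ℕ) (F : Finset Edge) (v : ℤ × ℤ) :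
    outerBoundary n F v ⊆ body n F v := by
  intro z hz
  by_contra hcon
  have hopen : IsOpen (connectedComponentIn (body n F v)ᶜ z) :=
    (CPT_isOpen_compl n F v).connectedComponentIn
  have hzC : z ∈ connectedComponentIn (body n F v)ᶜ z := mem_connectedComponentIn hcon
  unfold outerBoundary at hz
  rw [frontier, Set.mem_sdiff] at hz
  by_cases ho : z ∈ outside n F v
  · refine hz.2 (mem_interior.2 ⟨_, fun y hy => ?_, hopen, hzC⟩)
    exact (CPT_component n F v hy).2 ho
  · obtain ⟨y, hy1, hy2⟩ := mem_closure_iff.1 hz.1 _ hopen hzC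
    exact ho ((CPT_component n F v hy1).1 hy2)

theorem CPT_outside_nonempty (n : ℕ) (F : Finset Edge) (v : ℤ × ℤ) :
    (outside n F v).Nonempty := by
  obtain ⟨R, hR⟩ := (CPT_isCompact_body n F v).isBounded.subset_ball (0 : ℂ)
  have hray : ∀ z : ℂ, R < z.re → z ∈ (body n F v)ᶜ := by
    intro z hz hzb
    have h1 := hR hzb
    rw [Metric.mem_ball, dist_zero_right] at h1
    have h2 := Complex.re_le_norm z
    linarith
  have hconv : IsPreconnected {z : ℂ | R < z.re} :=
    (convex_halfSpace_re_gt R).isPreconnected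
  have hz0 : ((R + 1 : ℝ) : ℂ) ∈ {z : ℂ | R < z.re} := by
    simp
  have hsub := hconv.subset_connectedComponentIn hz0 (fun z hz => hray z hz)
  refine ⟨((R + 1 : ℝ) : ℂ), hray _ hz0, fun hb => ?_⟩
  have hb2 := hb.subset hsub
  obtain ⟨R', hR'⟩ := hb2.subset_ball (0 : ℂ)
  have h3 : ((|R| + |R'| + 1 : ℝ) : ℂ) ∈ {z : ℂ | R < z.re} := by
    rw [Set.mem_ofPred_eq, Complex.ofReal_re]
    have := le_abs_self R
    have := abs_nonneg R'
    linarith
  have h4 := hR' h3
  rw [Metric.mem_ball, dist_zero_right, Complex.norm_real, Real.norm_eq_abs] at h4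
  have h5 := le_abs_self (|R| + |R'| + 1)
  have h6 := le_abs_self R'
  have h7 := abs_nonneg R
  linarith

theorem CPT_box {n : ℕ} {F : Finset Edge} {v : ℤ × ℤ} (hF : F ⊆ edges n) (hv : v ∈ box n)
    {w : ℤ × ℤ} (hw : w ∈ cluster F v) : w ∈ box n := by
  rw [mem_cluster] at hw
  rcases Relation.ReflTransGen.cases_tail hw with h | ⟨u, _, e, he, hc⟩
  · rw [h]; exact hv
  · have h1 := hF (by exact_mod_cast he : e ∈ F)
    unfold edges at h1
    rw [Finset.mem_filter] at h1
    rcases hc with ⟨_, h2⟩ | ⟨h2, _⟩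
    · rw [← h2, ← snd_eq]; exact h1.2.2
    · rw [← h2, ← fst_eq]; exact h1.2.1

theorem CPT_pt_box {n : ℕ} (hn : 0 < n) {w : ℤ × ℤ} (hw : w ∈ box n) :
    (0 ≤ (pt n w).re ∧ (pt n w).re ≤ 1) ∧ (0 ≤ (pt n w).im ∧ (pt n w).im ≤ 1) := by
  unfold box at hw
  rw [Finset.mem_product, Finset.mem_Icc, Finset.mem_Icc] at hw
  have hn' : (0 : ℝ) < n := by exact_mod_cast hn
  have h1 : (0 : ℝ) ≤ (w.1 : ℝ) := by exact_mod_cast hw.1.1
  have h2 : (w.1 : ℝ) ≤ n := by exact_mod_cast hw.1.2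
  have h3 : (0 : ℝ) ≤ (w.2 : ℝ) := by exact_mod_cast hw.2.1
  have h4 : (w.2 : ℝ) ≤ n := by exact_mod_cast hw.2.2
  unfold pt
  refine ⟨⟨by positivity, ?_⟩, ⟨by positivity, ?_⟩⟩
  · simp only
    rw [div_le_one hn']
    exact h2
  · simp only
    rw [div_le_one hn']
    exact h4

theorem CPT_body_square {n : ℕ} (hn : 0 < n) {F : Finset Edge} {v : ℤ × ℤ} (hF : F ⊆ edges n)
    (hv : v ∈ box n) {z : ℂ} (hz : z ∈ body n F v) :
    (0 ≤ z.re ∧ z.re ≤ 1) ∧ (0 ≤ z.im ∧ z.im ≤ 1) := by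
  unfold body at hz
  rcases hz with hz | hz
  · obtain ⟨w, hw, hz⟩ := Set.mem_iUnion₂.1 hz
    rw [Set.mem_singleton_iff] at hz
    rw [hz]
    exact CPT_pt_box hn (CPT_box hF hv hw)
  · obtain ⟨e, he, hz⟩ := Set.mem_iUnion₂.1 hz
    have h1 := hF he.1
    unfold edges at h1
    rw [Finset.mem_filter] at h1
    have h2 := CPT_pt_box hn h1.2.1
    have h3 := CPT_pt_box hn h1.2.2
    obtain ⟨a, b, ha, hb, hab, rfl⟩ := hz
    simp only [Complex.add_re, Complex.smul_re, Complex.add_im, Complex.smul_im, smul_eq_mul]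
    refine ⟨⟨?_, ?_⟩, ⟨?_, ?_⟩⟩
    · nlinarith [mul_nonneg ha h2.1.1, mul_nonneg hb h3.1.1]
    · nlinarith [mul_le_mul_of_nonneg_left h2.1.2 ha, mul_le_mul_of_nonneg_left h3.1.2 hb]
    · nlinarith [mul_nonneg ha h2.2.1, mul_nonneg hb h3.2.1]
    · nlinarith [mul_le_mul_of_nonneg_left h2.2.2 ha, mul_le_mul_of_nonneg_left h3.2.2 hb]

theorem t_CPT : St_CPT := by
  intro n F v
  refine ⟨?_, ?_, ?_⟩
  · exact (CPT_isCompact_body n F v).of_isClosed_subset isClosed_frontier
      (CPT_frontier_sub n F v)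
  · unfold outerBoundary
    rw [nonempty_frontier_iff]
    refine ⟨CPT_outside_nonempty n F v, fun h => ?_⟩
    have h1 : pt n v ∈ outside n F v := by rw [h]; exact Set.mem_univ _
    exact h1.1 (CPT_pt_mem n F v)
  · intro hn hF hv z hz
    exact CPT_body_square hn hF hv (CPT_frontier_sub n F v hz)

end H342L
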