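import Pool.Agent.H342R3.Lim.Defs

/-!
Curves modulo monotone reparametrisation, and their traces.
-/

namespace H342L

open MeasureTheory TopologicalSpace Filter Topology

/-- A path in the plane, up to monotone reparametrisation: the distance of two curves is
`cdist`. -/
structure Curve where
  /-- a parametrisation by the unit interval -/
  path : C(unitInterval, ℂ)

/-- Reparametrisation. -/
noncomputable def rep (γ : C(unitInterval, ℂ)) (φ : unitInterval ≃o unitInterval) : C(unitInterval, ℂ) :=
  ⟨fun t => γ (φ t), γ.continuous.comp φ.continuous⟩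

@[simp] theorem rep_apply (γ : C(unitInterval, ℂ)) (φ : unitInterval ≃o unitInterval)
    (t : unitInterval) : rep γ φ t = γ (φ t) := rfl

theorem sup_eq (γ γ' : C(unitInterval, ℂ)) (φ : unitInterval ≃o unitInterval) :
    (⨆ t : unitInterval, dist (γ t) (γ' (φ t))) = dist γ (rep γ' φ) := by
  rw [ContinuousMap.dist_eq_iSup]
  rfl

theorem cdist_eq (γ γ' : C(unitInterval, ℂ)) :
    cdist γ γ' = ⨅ φ : unitInterval ≃o unitInterval, dist γ (rep γ' φ) := by
  unfold cdist
  congr 1
  funext φ
  exact sup_eq γ γ' φ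

theorem cdist_bdd (γ γ' : C(unitInterval, ℂ)) :
    BddBelow (Set.range (fun φ : unitInterval ≃o unitInterval => dist γ (rep γ' φ))) :=
  ⟨0, by rintro _ ⟨φ, rfl⟩; exact dist_nonneg⟩

theorem cdist_nonneg (γ γ' : C(unitInterval, ℂ)) : 0 ≤ cdist γ γ' := by
  rw [cdist_eq]
  exact Real.iInf_nonneg fun φ => dist_nonneg

theorem cdist_le (γ γ' : C(unitInterval, ℂ)) (φ : unitInterval ≃o unitInterval) :
    cdist γ γ' ≤ dist γ (rep γ' φ) := by
  rw [cdist_eq]
  exact ciInf_le (cdist_bdd γ γ') φ

theorem rep_dist (γ γ' : C(unitInterval, ℂ)) (φ : unitInterval ≃o unitInterval) :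
    dist γ (rep γ' φ) = dist γ' (rep γ φ.symm) := by
  have key : ∀ (a b : C(unitInterval, ℂ)) (ψ : unitInterval ≃o unitInterval),
      dist a (rep b ψ) ≤ dist b (rep a ψ.symm) := by
    intro a b ψ
    rw [ContinuousMap.dist_le dist_nonneg]
    intro t
    have h := ContinuousMap.dist_apply_le_dist (f := b) (g := rep a ψ.symm) (ψ t)
    rw [rep_apply, OrderIso.symm_apply_apply, dist_comm] at h
    exact h
  apply le_antisymm (key γ γ' φ)
  have := key γ' γ φ.symm
  rwa [OrderIso.symm_symm] at this

theorem cdist_comm (γ γ' : C(unitInterval, ℂ)) : cdist γ γ' = cdist γ' γ := by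
  have key : ∀ a b : C(unitInterval, ℂ), cdist a b ≤ cdist b a := by
    intro a b
    rw [cdist_eq b a]
    apply le_ciInf
    intro φ
    have h := cdist_le a b φ.symm
    rw [rep_dist, OrderIso.symm_symm] at h
    exact h
  exact le_antisymm (key _ _) (key _ _)

theorem cdist_self (γ : C(unitInterval, ℂ)) : cdist γ γ = 0 := by
  apply le_antisymm _ (cdist_nonneg _ _)
  refine (cdist_le γ γ (OrderIso.refl _)).trans (le_of_eq ?_)
  have : rep γ (OrderIso.refl _) = γ := by ext t; rfl
  rw [this, dist_self]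

theorem cdist_triangle (a b c : C(unitInterval, ℂ)) : cdist a c ≤ cdist a b + cdist b c := by
  refine le_of_forall_pos_le_add fun ε hε => ?_
  have h1 : ∃ φ : unitInterval ≃o unitInterval, dist a (rep b φ) < cdist a b + ε / 2 := by
    have : (⨅ φ : unitInterval ≃o unitInterval, dist a (rep b φ)) < cdist a b + ε / 2 := by
      rw [← cdist_eq]; linarith
    exact exists_lt_of_ciInf_lt this
  have h2 : ∃ φ : unitInterval ≃o unitInterval, dist b (rep c φ) < cdist b c + ε / 2 := by
    have : (⨅ φ : unitInterval ≃o unitInterval, dist b (rep c φ)) < cdist b c + ε / 2 := by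
      rw [← cdist_eq]; linarith
    exact exists_lt_of_ciInf_lt this
  obtain ⟨φ, hφ⟩ := h1
  obtain ⟨ψ, hψ⟩ := h2
  have h3 : dist a (rep c (φ.trans ψ)) ≤ dist a (rep b φ) + dist b (rep c ψ) := by
    rw [ContinuousMap.dist_le (add_nonneg dist_nonneg dist_nonneg)]
    intro t
    refine (dist_triangle (a t) (b (φ t)) _).trans ?_
    apply add_le_add
    · exact ContinuousMap.dist_apply_le_dist (f := a) (g := rep b φ) t
    · exact ContinuousMap.dist_apply_le_dist (f := b) (g := rep c ψ) (φ t)
  have := cdist_le a c (φ.trans ψ)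
  linarith

noncomputable instance : PseudoMetricSpace Curve where
  dist γ γ' := cdist γ.path γ'.path
  dist_self γ := cdist_self _
  dist_comm γ γ' := cdist_comm _ _
  dist_triangle a b c := cdist_triangle _ _ _

theorem Curve.dist_def (γ γ' : Curve) : dist γ γ' = cdist γ.path γ'.path := rfl

/-- The Borel structure. -/
noncomputable instance instMCurve : MeasurableSpace Curve := borel _
instance instBCurve : BorelSpace Curve := ⟨rfl⟩

/-- The trace of a curve. -/
noncomputable def Curve.trace (γ : Curve) : NonemptyCompacts ℂ :=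
  ⟨⟨Set.range γ.path, isCompact_range γ.path.continuous⟩, Set.range_nonempty _⟩

theorem Curve.coe_trace (γ : Curve) : (γ.trace : Set ℂ) = Set.range γ.path := rfl

theorem Curve.dist_trace (γ γ' : Curve) : dist γ.trace γ'.trace ≤ dist γ γ' := by
  rw [Curve.dist_def, cdist_eq]
  apply le_ciInf
  intro φ
  rw [Metric.NonemptyCompacts.dist_eq]
  apply Metric.hausdorffDist_le_of_mem_dist dist_nonneg
  · rintro _ ⟨t, rfl⟩
    refine ⟨γ'.path (φ t), ⟨φ t, rfl⟩, ?_⟩
    exact ContinuousMap.dist_apply_le_dist (f := γ.path) (g := rep γ'.path φ) t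
  · rintro _ ⟨t, rfl⟩
    refine ⟨γ.path (φ.symm t), ⟨φ.symm t, rfl⟩, ?_⟩
    have h := ContinuousMap.dist_apply_le_dist (f := γ.path) (g := rep γ'.path φ) (φ.symm t)
    rw [rep_apply, OrderIso.apply_symm_apply, dist_comm] at h
    exact h

theorem Curve.continuous_trace : Continuous Curve.trace := by
  apply LipschitzWith.continuous (K := 1)
  apply LipschitzWith.of_dist_le_mul
  intro γ γ'
  rw [NNReal.coe_one, one_mul]
  exact Curve.dist_trace γ γ'

end H342L
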