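import Pool.Agent.H342R2.Per.Plain
import Pool.Agent.H934R3.D74.Props

/-!
The outer boundary of a cluster of critical percolation in `{0, …, n}²`, scaled by `1 / n`, as a
compact subset of the plane.
-/

namespace H342L

open H342P H342P.Plain MeasureTheory TopologicalSpace Filter Topology

/-- The lattice point `v` scaled by `1 / n`. -/
noncomputable def pt (n : ℕ) (v : ℤ × ℤ) : ℂ := ⟨(v.1 : ℝ) / n, (v.2 : ℝ) / n⟩

/-- The closed edge `e` scaled by `1 / n`. -/
noncomputable def seg (n : ℕ) (e : Edge) : Set ℂ := segment ℝ (pt n (fst e)) (pt n (snd e))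

/-- The cluster of `v` (vertices together with closed edge segments), scaled by `1 / n`. -/
noncomputable def body (n : ℕ) (F : Finset Edge) (v : ℤ × ℤ) : Set ℂ :=
  (⋃ w ∈ cluster F v, {pt n w}) ∪ ⋃ e ∈ clusterEdges F v, seg n e

/-- The unbounded component of the complement of the scaled cluster. -/
noncomputable def outside (n : ℕ) (F : Finset Edge) (v : ℤ × ℤ) : Set ℂ :=
  {z | z ∈ (body n F v)ᶜ ∧ ¬ Bornology.IsBounded (connectedComponentIn (body n F v)ᶜ z)}

/-- The boundary of the unbounded component of the complement of the scaled cluster. -/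
noncomputable def outerBoundary (n : ℕ) (F : Finset Edge) (v : ℤ × ℤ) : Set ℂ :=
  frontier (outside n F v)

/-- The vertex `u` is the first endpoint of an edge of the cluster of `v` one of whose two sides
lies in the unbounded component. -/
def OnB (F : Finset Edge) (v u : ℤ × ℤ) : Prop :=
  ∃ e ∈ clusterEdges F v, fst e = u ∧ (Plain.Outer F v (side₁ e) ∨ Plain.Outer F v (side₂ e))

/-- Distance of two vertices (maximum norm), at least `1`. -/
def md (u w : ℤ × ℤ) : ℤ := max (max |u.1 - w.1| |u.2 - w.2|) 1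

/-- Many boundary vertices with bounded energy. -/
def Rich (n : ℕ) (t lam E : ℝ) (F : Finset Edge) (v : ℤ × ℤ) : Prop :=
  ∃ V : Finset (ℤ × ℤ), (∀ u ∈ V, OnB F v u) ∧ lam * (n : ℝ) ^ (7/4 : ℝ) ≤ (V.card : ℝ) ∧
    ∑ u ∈ V, ∑ w ∈ V, ((md u w : ℤ) : ℝ) ^ (-t) ≤ E * (n : ℝ) ^ (7/2 - t)

/-- The vertex `u` has two arms to distance `h`. -/
def Tw (u : ℤ × ℤ) (h : ℤ) (F : Set H974.Edg) : Prop := ∃ f, Inc u f ∧ Two u f h F

/-- The vertices of the box at distance at least `ρ` from its boundary. -/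
noncomputable def Bk (n : ℕ) (ρ : ℤ) : Finset (ℤ × ℤ) :=
  Finset.Icc ρ (n - ρ) ×ˢ Finset.Icc ρ (n - ρ)

open Classical in
/-- Energy of the vertices with two arms to distance `h`. -/
noncomputable def EnT (n : ℕ) (ρ : ℤ) (h : ℕ) (t : ℝ) (F : Finset H974.Edg) : ℝ :=
  ∑ u ∈ Bk n ρ, ∑ w ∈ Bk n ρ,
    if Tw u h (↑F) ∧ Tw w h (↑F) then ((md u w : ℤ) : ℝ) ^ (-t) else 0

open Classical in
/-- Number of boundary sides near the boundary of the box. -/
noncomputable def perL (n : ℕ) (ρ : ℤ) (F : Set H974.Edg) (v : ℤ × ℤ) : ℕ :=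
  ∑ e ∈ (H974.RE 0 n 0 n).filter (fun e => bdist n (H974.src e) < ρ), if e ∈ EC F v then
    ((if H342P.Outer F v (H974.dsrc e) then 1 else 0) +
      (if H342P.Outer F v (H974.dtgt e) then 1 else 0)) else 0

/-! ### Curves -/

/-- Distance of two paths modulo monotone reparametrisation. -/
noncomputable def cdist (γ γ' : C(unitInterval, ℂ)) : ℝ :=
  ⨅ φ : unitInterval ≃o unitInterval, ⨆ t : unitInterval, dist (γ t) (γ' (φ t))

end H342L
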