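import Pool.Agent.H342R3.Lim.Stubs
import Pool.Agent.H342R2.Per.Sum

/-!
EN: expected energy of the vertices with two arms.
-/

namespace H342L

open H342P H342P.Plain MeasureTheory TopologicalSpace Filter Topology

/-- one-dimensional weight -/
noncomputable def EN_g (s : ℝ) (d : ℤ) : ℝ := ((max |d| 1 : ℤ) : ℝ) ^ (-s)

theorem EN_g_nonneg (s : ℝ) (d : ℤ) : 0 ≤ EN_g s d := by
  unfold EN_g
  apply Real.rpow_nonneg
  have : (0:ℤ) ≤ max |d| 1 := le_trans (by norm_num) (le_max_right _ _)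
  exact_mod_cast this

theorem EN_sum_sym {s : ℝ} (n : ℕ) : ∑ d ∈ Finset.Icc (-(n:ℤ)) n, EN_g s d =
    1 + 2 * ∑ j ∈ Finset.range n, ((j + 1 : ℕ) : ℝ) ^ (-s) := by
  induction n with
  | zero => simp [EN_g]
  | succ n ih =>
    have h1 : Finset.Icc (-((n + 1 : ℕ) : ℤ)) ((n + 1 : ℕ) : ℤ) =
        insert (-((n:ℤ) + 1)) (insert ((n:ℤ) + 1) (Finset.Icc (-(n:ℤ)) n)) := by
      ext x
      simp only [Finset.mem_Icc, Finset.mem_insert]
      push_cast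
      omega
    have h2 : EN_g s (-((n:ℤ) + 1)) = ((n + 1 : ℕ) : ℝ) ^ (-s) := by
      unfold EN_g
      have : max |(-((n:ℤ) + 1))| 1 = (n:ℤ) + 1 := by
        rw [abs_neg, abs_of_nonneg (by omega), max_eq_left (by omega)]
      rw [this]
      push_cast
      rfl
    have h3 : EN_g s ((n:ℤ) + 1) = ((n + 1 : ℕ) : ℝ) ^ (-s) := by
      unfold EN_g
      have : max |((n:ℤ) + 1)| 1 = (n:ℤ) + 1 := by
        rw [abs_of_nonneg (by omega), max_eq_left (by omega)]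
      rw [this]
      push_cast
      rfl
    rw [h1, Finset.sum_insert, Finset.sum_insert, ih, h2, h3, Finset.sum_range_succ]
    · ring
    · simp
    · simp only [Finset.mem_insert, Finset.mem_Icc]
      omega

theorem EN_sum_le {s : ℝ} (hs0 : 0 < s) (hs1 : s < 1) (n : ℕ) (hn : 1 ≤ n) :
    ∑ d ∈ Finset.Icc (-(n:ℤ)) n, EN_g s d ≤ 3 / (1 - s) * (n:ℝ) ^ (1 - s) := by
  rw [EN_sum_sym]
  have h1 := sum_rpow_le hs0.le hs1 n
  have h2 : (1:ℝ) ≤ (n:ℝ) ^ (1 - s) := Real.one_le_rpow (by exact_mod_cast hn) (by linarith)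
  have h3 : (0:ℝ) < 1 - s := by linarith
  have h4 : (n:ℝ) ^ (1 - s) ≤ (n:ℝ) ^ (1 - s) / (1 - s) := by
    rw [le_div_iff₀ h3]
    nlinarith
  have h5 : 3 / (1 - s) * (n:ℝ) ^ (1 - s) = 3 * ((n:ℝ) ^ (1 - s) / (1 - s)) := by ring
  rw [h5]
  linarith

theorem EN_row_le {s : ℝ} (hs0 : 0 < s) (hs1 : s < 1) (n : ℕ) (hn : 1 ≤ n) (ρ : ℤ) (hρ : 0 ≤ ρ)
    (u : ℤ) (hu : u ∈ Finset.Icc ρ (n - ρ)) :
    ∑ x ∈ Finset.Icc ρ (n - ρ), EN_g s (u - x) ≤ 3 / (1 - s) * (n:ℝ) ^ (1 - s) := by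
  classical
  refine le_trans ?_ (EN_sum_le hs0 hs1 n hn)
  rw [Finset.mem_Icc] at hu
  have h1 : ∑ x ∈ Finset.Icc ρ (n - ρ), EN_g s (u - x) =
      ∑ d ∈ (Finset.Icc ρ ((n:ℤ) - ρ)).image (fun x => u - x), EN_g s d := by
    rw [Finset.sum_image]
    intro a _ b _ hab
    simpa using hab
  rw [h1]
  apply Finset.sum_le_sum_of_subset_of_nonneg
  · intro d hd
    rw [Finset.mem_image] at hd
    obtain ⟨x, hx, rfl⟩ := hd
    rw [Finset.mem_Icc] at hx ⊢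
    omega
  · intro d _ _
    exact EN_g_nonneg s d

theorem EN_md_le {σ : ℝ} (hσ : 0 ≤ σ) (u w : ℤ × ℤ) :
    ((md u w : ℤ) : ℝ) ^ (-(2 * σ)) ≤ EN_g σ (u.1 - w.1) * EN_g σ (u.2 - w.2) := by
  unfold EN_g
  have h1 : (1:ℤ) ≤ max |u.1 - w.1| 1 := le_max_right _ _
  have h2 : (1:ℤ) ≤ max |u.2 - w.2| 1 := le_max_right _ _
  have h1' : (0:ℝ) < ((max |u.1 - w.1| 1 : ℤ) : ℝ) := by
    have : (0:ℤ) < max |u.1 - w.1| 1 := by omega
    exact_mod_cast this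
  have h2' : (0:ℝ) < ((max |u.2 - w.2| 1 : ℤ) : ℝ) := by
    have : (0:ℤ) < max |u.2 - w.2| 1 := by omega
    exact_mod_cast this
  have h3 : max |u.1 - w.1| 1 ≤ md u w := by
    unfold md
    exact max_le_max (le_max_left _ _) le_rfl
  have h4 : max |u.2 - w.2| 1 ≤ md u w := by
    unfold md
    exact max_le_max (le_max_right _ _) le_rfl
  have h0 : (0:ℝ) < ((md u w : ℤ) : ℝ) := by
    have : (0:ℤ) < md u w := by omega
    exact_mod_cast this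
  have h5 : ((md u w : ℤ) : ℝ) ^ (-(2 * σ)) =
      ((md u w : ℤ) : ℝ) ^ (-σ) * ((md u w : ℤ) : ℝ) ^ (-σ) := by
    rw [← Real.rpow_add h0]
    congr 1
    ring
  rw [h5]
  apply mul_le_mul
  · exact Real.rpow_le_rpow_of_nonpos h1' (by exact_mod_cast h3) (by linarith)
  · exact Real.rpow_le_rpow_of_nonpos h2' (by exact_mod_cast h4) (by linarith)
  · positivity
  · positivity

theorem EN_Ex (n h : ℕ) (ρ : ℤ) (t : ℝ) (S : Finset H974.Edg) :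
    H974.Ex (fun _ => (1/2:ℝ)) S (fun F => EnT n ρ h t F) =
      ∑ u ∈ Bk n ρ, ∑ w ∈ Bk n ρ, ((md u w : ℤ) : ℝ) ^ (-t) *
        H974.Pr (fun _ => (1/2:ℝ)) S (fun F => Tw u h (↑F) ∧ Tw w h (↑F)) := by
  classical
  unfold EnT
  rw [H974.Ex_sum]
  refine Finset.sum_congr rfl fun u _ => ?_
  rw [H974.Ex_sum]
  refine Finset.sum_congr rfl fun w _ => ?_
  unfold H974.Pr
  rw [← H974.Ex_mul_left]
  congr 1
  funext F
  by_cases hF : Tw u h (↑F : Set H974.Edg) ∧ Tw w h (↑F : Set H974.Edg)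
  · rw [if_pos hF, H974.ind_of hF, mul_one]
  · rw [if_neg hF, H974.ind_not_of hF, mul_zero]

theorem EN_sub (n h : ℕ) (ρ : ℤ) (hρ : (h:ℤ) ≤ ρ) (u : ℤ × ℤ) (hu : u ∈ Bk n ρ) :
    H974.RE (u.1 - h) (u.1 + h) (u.2 - h) (u.2 + h) ⊆ H974.RE 0 n 0 n := by
  unfold Bk at hu
  simp only [Finset.mem_product, Finset.mem_Icc] at hu
  intro e he
  unfold H974.RE at he ⊢
  simp only [Finset.mem_filter, Finset.mem_product, Finset.mem_Icc, Finset.mem_univ,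
    and_true] at he ⊢
  obtain ⟨⟨h1, h2⟩, h3⟩ := he
  refine ⟨⟨by omega, by omega⟩, ?_⟩
  split_ifs at h3 ⊢ <;> omega

/-- EN: expected energy. -/
theorem t_EN (hTP : St_TP) : St_EN := by
  intro hA t ht0 ht1 B
  obtain ⟨C, hC, hTP⟩ := hTP hA B
  set s : ℝ := (t + 1/4) / 2 with hs
  have hs0 : 0 < s := by rw [hs]; linarith
  have hs1 : s < 1 := by rw [hs]; linarith
  have hs1' : 0 < 1 - s := by linarith
  set K : ℝ := 3 / (1 - s) with hK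
  have hK0 : 0 < K := by positivity
  refine ⟨C * K ^ 2 * (B:ℝ) ^ (1/4 : ℝ) + 1, by positivity, ?_⟩
  intro n h hh hnB ρ hρ
  have hnn : 0 ≤ (n:ℝ) ^ (7/2 - t) := by positivity
  rw [EN_Ex]
  by_cases hempty : Bk n ρ = ∅
  · rw [hempty, Finset.sum_empty]
    positivity
  obtain ⟨u0, hu0⟩ := Finset.nonempty_iff_ne_empty.mpr hempty
  have hu0' := hu0
  unfold Bk at hu0'
  simp only [Finset.mem_product, Finset.mem_Icc] at hu0'
  have hn2 : 2 * ρ ≤ n := by omega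
  have hn1 : 1 ≤ n := by omega
  have hρ0 : 0 ≤ ρ := by omega
  have hB1 : 1 ≤ B := by
    by_contra hcon
    have : B = 0 := by omega
    rw [this] at hnB
    omega
  have hnpos : (0:ℝ) < n := by exact_mod_cast hn1
  have hhpos : (0:ℝ) < h := by exact_mod_cast hh
  have hBpos : (0:ℝ) < B := by exact_mod_cast hB1
  -- each term
  have hterm : ∀ u ∈ Bk n ρ, ∀ w ∈ Bk n ρ, ((md u w : ℤ) : ℝ) ^ (-t) *
      H974.Pr (fun _ => (1/2:ℝ)) (H974.RE 0 n 0 n) (fun F => Tw u h (↑F) ∧ Tw w h (↑F)) ≤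
      C * (h:ℝ) ^ (-(1/4) : ℝ) * (EN_g s (u.1 - w.1) * EN_g s (u.2 - w.2)) := by
    intro u hu w hw
    have hmd : md u w ≤ B * h := by
      have hu' := hu
      have hw' := hw
      unfold Bk at hu' hw'
      simp only [Finset.mem_product, Finset.mem_Icc] at hu' hw'
      have h1 : md u w ≤ n := by
        unfold md
        apply max_le _ (by omega)
        apply max_le <;> rw [abs_le] <;> constructor <;> omega
      have h2 : (n:ℤ) ≤ B * h := by exact_mod_cast hnB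
      exact h1.trans h2
    have hmd0 : (0:ℝ) < ((md u w : ℤ) : ℝ) := by
      have : (0:ℤ) < md u w := by
        unfold md
        exact lt_of_lt_of_le (by norm_num) (le_max_right _ _)
      exact_mod_cast this
    have h1 := hTP h hh (H974.RE 0 n 0 n) u w (EN_sub n h ρ hρ u hu) (EN_sub n h ρ hρ w hw) hmd
    have h2 := EN_md_le hs0.le u w
    have h3 : ((md u w : ℤ) : ℝ) ^ (-(2 * s)) =
        ((md u w : ℤ) : ℝ) ^ (-t) * ((md u w : ℤ) : ℝ) ^ (-(1/4) : ℝ) := by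
      rw [← Real.rpow_add hmd0]
      congr 1
      rw [hs]
      ring
    calc ((md u w : ℤ) : ℝ) ^ (-t) *
        H974.Pr (fun _ => (1/2:ℝ)) (H974.RE 0 n 0 n) (fun F => Tw u h (↑F) ∧ Tw w h (↑F))
        ≤ ((md u w : ℤ) : ℝ) ^ (-t) *
          (C * ((md u w : ℤ) : ℝ) ^ (-(1/4) : ℝ) * (h : ℝ) ^ (-(1/4) : ℝ)) :=
          mul_le_mul_of_nonneg_left h1 (by positivity)
      _ = C * (h:ℝ) ^ (-(1/4) : ℝ) * ((md u w : ℤ) : ℝ) ^ (-(2 * s)) := by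
          rw [h3]; ring
      _ ≤ _ := mul_le_mul_of_nonneg_left h2 (by positivity)
  -- sum over w
  have hrow : ∀ u ∈ Bk n ρ, ∑ w ∈ Bk n ρ, EN_g s (u.1 - w.1) * EN_g s (u.2 - w.2) ≤
      (K * (n:ℝ) ^ (1 - s)) ^ 2 := by
    intro u hu
    unfold Bk at hu ⊢
    rw [Finset.mem_product] at hu
    rw [Finset.sum_product]
    simp only
    simp_rw [← Finset.mul_sum]
    rw [← Finset.sum_mul, sq]
    have h1 := EN_row_le hs0 hs1 n hn1 ρ hρ0 u.1 hu.1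
    have h2 := EN_row_le hs0 hs1 n hn1 ρ hρ0 u.2 hu.2
    exact mul_le_mul h1 h2 (Finset.sum_nonneg fun x _ => EN_g_nonneg s _) (by positivity)
  -- number of vertices
  have hcard : ((Bk n ρ).card : ℝ) ≤ (n:ℝ) ^ 2 := by
    unfold Bk
    rw [Finset.card_product, Int.card_Icc]
    have h1 : ((n:ℤ) - ρ + 1 - ρ).toNat ≤ n := by omega
    have h2 : ((n:ℤ) - ρ + 1 - ρ).toNat * ((n:ℤ) - ρ + 1 - ρ).toNat ≤ n * n :=
      Nat.mul_le_mul h1 h1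
    rw [sq]
    exact_mod_cast h2
  -- the power of h
  have hpow : (h:ℝ) ^ (-(1/4) : ℝ) ≤ (B:ℝ) ^ (1/4 : ℝ) * (n:ℝ) ^ (-(1/4) : ℝ) := by
    have h1 : (n:ℝ) ≤ B * h := by exact_mod_cast hnB
    have h2 : (B * h : ℝ) ^ (-(1/4) : ℝ) ≤ (n:ℝ) ^ (-(1/4) : ℝ) :=
      Real.rpow_le_rpow_of_nonpos hnpos h1 (by norm_num)
    rw [Real.mul_rpow hBpos.le hhpos.le] at h2
    have h3 : (B:ℝ) ^ (1/4 : ℝ) * (B:ℝ) ^ (-(1/4) : ℝ) = 1 := by
      rw [← Real.rpow_add hBpos]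
      norm_num
    calc (h:ℝ) ^ (-(1/4) : ℝ) = (B:ℝ) ^ (1/4 : ℝ) * ((B:ℝ) ^ (-(1/4) : ℝ) * (h:ℝ) ^ (-(1/4) : ℝ)) := by
          rw [← mul_assoc, h3, one_mul]
      _ ≤ _ := mul_le_mul_of_nonneg_left h2 (by positivity)
  calc ∑ u ∈ Bk n ρ, ∑ w ∈ Bk n ρ, ((md u w : ℤ) : ℝ) ^ (-t) *
        H974.Pr (fun _ => (1/2:ℝ)) (H974.RE 0 n 0 n) (fun F => Tw u h (↑F) ∧ Tw w h (↑F))
      ≤ ∑ u ∈ Bk n ρ, ∑ w ∈ Bk n ρ,
        C * (h:ℝ) ^ (-(1/4) : ℝ) * (EN_g s (u.1 - w.1) * EN_g s (u.2 - w.2)) :=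
        Finset.sum_le_sum fun u hu => Finset.sum_le_sum fun w hw => hterm u hu w hw
    _ = ∑ u ∈ Bk n ρ, C * (h:ℝ) ^ (-(1/4) : ℝ) *
        ∑ w ∈ Bk n ρ, EN_g s (u.1 - w.1) * EN_g s (u.2 - w.2) := by
        simp_rw [← Finset.mul_sum]
    _ ≤ ∑ u ∈ Bk n ρ, C * (h:ℝ) ^ (-(1/4) : ℝ) * (K * (n:ℝ) ^ (1 - s)) ^ 2 :=
        Finset.sum_le_sum fun u hu => mul_le_mul_of_nonneg_left (hrow u hu) (by positivity)
    _ = (Bk n ρ).card * (C * (h:ℝ) ^ (-(1/4) : ℝ) * (K * (n:ℝ) ^ (1 - s)) ^ 2) := by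
        rw [Finset.sum_const, nsmul_eq_mul]
    _ ≤ (n:ℝ) ^ 2 * (C * ((B:ℝ) ^ (1/4 : ℝ) * (n:ℝ) ^ (-(1/4) : ℝ)) *
        (K * (n:ℝ) ^ (1 - s)) ^ 2) := by
        apply mul_le_mul hcard _ (by positivity) (by positivity)
        apply mul_le_mul_of_nonneg_right _ (by positivity)
        exact mul_le_mul_of_nonneg_left hpow hC.le
    _ = C * K ^ 2 * (B:ℝ) ^ (1/4 : ℝ) * (n:ℝ) ^ (7/2 - t) := by
        have h1 : (n:ℝ) ^ (7/2 - t) = (n:ℝ) ^ 2 * (n:ℝ) ^ (-(1/4) : ℝ) *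
            ((n:ℝ) ^ (1 - s) * (n:ℝ) ^ (1 - s)) := by
          rw [← Real.rpow_natCast (n:ℝ) 2, ← Real.rpow_add hnpos, ← Real.rpow_add hnpos,
            ← Real.rpow_add hnpos]
          congr 1
          rw [hs]
          push_cast
          ring
        rw [h1]
        ring
    _ ≤ _ := by nlinarith

end H342L
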