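import Pool.Agent.H342R3.Lim.Fin
import Mathlib.MeasureTheory.Measure.Prokhorov

/-!
Existence of subsequential limits (compactness).
-/

namespace H342L

open H342P H342P.Plain MeasureTheory TopologicalSpace Filter Topology
open scoped ENNReal NNReal

theorem isCompact_csq : IsCompact csq := by
  apply Metric.isCompact_of_isClosed_isBounded isClosed_csq
  refine (Metric.isBounded_iff_subset_closedBall 0).mpr ⟨2, ?_⟩
  rintro z ⟨⟨h1, h2⟩, h3, h4⟩
  rw [mem_closedBall_zero_iff]
  refine (Complex.norm_le_abs_re_add_abs_im z).trans ?_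
  rw [abs_of_nonneg h1, abs_of_nonneg h3]
  linarith

/-- Every sequence of scales has a subsequence along which the laws converge. -/
theorem exists_limit (hC : St_CPT) (sel : (n : ℕ) → Finset Edge → ℤ × ℤ)
    (hsel : ∀ n F, 0 < n → F ⊆ edges n → Largest n F (sel n F)) (k : ℕ → ℕ) (hk : Tendsto k atTop atTop) :
    ∃ (φ : ℕ → ℕ) (μ : ProbabilityMeasure (NonemptyCompacts ℂ)), StrictMono φ ∧
      Tendsto (fun i => lawOf (k (φ i)) (fun F => bdOf hC (k (φ i)) F (sel (k (φ i)) F)))
        atTop (𝓝 μ) := by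
  set T : Set (NonemptyCompacts ℂ) := {K | (K : Set ℂ) ⊆ csq} with hT
  have hTc : IsCompact T := NonemptyCompacts.isCompact_subsets_of_isCompact isCompact_csq
  have hTm : MeasurableSet T := hTc.isClosed.measurableSet
  obtain ⟨N, hN⟩ := (tendsto_atTop.mp hk 1).exists_forall_of_atTop
  set S : Set (ProbabilityMeasure (NonemptyCompacts ℂ)) :=
    {μ | (μ : Measure (NonemptyCompacts ℂ)) Tᶜ = 0} with hS
  have hmem : ∀ i, lawOf (k (i + N)) (fun F => bdOf hC (k (i + N)) F (sel (k (i + N)) F)) ∈ S := by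
    intro i
    have hi : 1 ≤ k (i + N) := hN (i + N) (by omega)
    rw [hS, Set.mem_ofPred_eq, lawOf_apply _ _ hTm.compl]
    have : prob (k (i + N)) (fun F => bdOf hC (k (i + N)) F (sel (k (i + N)) F) ∈ Tᶜ) ≤
        prob (k (i + N)) (fun _ => ¬ True) := by
      apply prob_mono
      intro F hF hbad
      exfalso
      apply hbad
      intro z hz
      exact (hC (k (i + N)) F (sel (k (i + N)) F)).2.2 hi hF (hsel _ _ hi hF).1 z hz
    rw [prob_not, prob_true, sub_self] at this
    exact ENNReal.ofReal_of_nonpos this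
  have htight : IsTightMeasureSet {((μ : ProbabilityMeasure (NonemptyCompacts ℂ)) :
      Measure (NonemptyCompacts ℂ)) | μ ∈ S} := by
    rw [isTightMeasureSet_iff_exists_isCompact_measure_compl_le]
    intro ε hε
    refine ⟨T, hTc, ?_⟩
    rintro _ ⟨μ, hμ, rfl⟩
    rw [show (μ : Measure (NonemptyCompacts ℂ)) Tᶜ = 0 from hμ]
    exact bot_le
  have hcomp := isCompact_closure_of_isTightMeasureSet htight
  obtain ⟨μ, -, φ, hφ, hlim⟩ := hcomp.tendsto_subseq
    (x := fun i => lawOf (k (i + N)) (fun F => bdOf hC (k (i + N)) F (sel (k (i + N)) F)))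
    (fun i => subset_closure (hmem i))
  exact ⟨fun i => φ i + N, μ, fun i j hij => by have := hφ hij; simp only; omega, hlim⟩

end H342L
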