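import Pool.Agent.H342R3.Lim.Defs
import Pool.Agent.H342R2.Per.Sharp

/-!
Statements (as propositions, nothing is assumed) of the tasks of the project: every subsequential
scaling limit of the outer boundary of the largest critical cluster has dimension `7/4`.
-/

namespace H342L

open H342P H342P.Plain MeasureTheory TopologicalSpace Filter Topology
open scoped ENNReal NNReal

/-! ### Topology of the plane -/

/-- TOPA: the edges with an outer side belong to the boundary. -/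
def St_TOPA : Prop := ∀ (n : ℕ) (F : Finset Edge) (v : ℤ × ℤ), 0 < n → F ⊆ edges n →
  ∀ e ∈ clusterEdges F v, (Plain.Outer F v (side₁ e) ∨ Plain.Outer F v (side₂ e)) →
    seg n e ⊆ outerBoundary n F v

/-- TOPB: every point of the boundary is near a vertex of the cluster which touches a face of the
unbounded component. -/
def St_TOPB : Prop := ∀ (n : ℕ) (F : Finset Edge) (v : ℤ × ℤ), 0 < n → F ⊆ edges n →
  v ∈ box n → ∀ z ∈ outerBoundary n F v, ∃ u f : ℤ × ℤ, u ∈ cluster F v ∧ Inc u f ∧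
    Plain.Outer F v f ∧ |z.re - (pt n u).re| ≤ 1 / n ∧ |z.im - (pt n u).im| ≤ 1 / n

/-- CPT: the boundary is compact and nonempty, and contained in the closed unit square. -/
def St_CPT : Prop := ∀ (n : ℕ) (F : Finset Edge) (v : ℤ × ℤ),
  IsCompact (outerBoundary n F v) ∧ (outerBoundary n F v).Nonempty ∧
    (0 < n → F ⊆ edges n → v ∈ box n → ∀ z ∈ outerBoundary n F v,
      (0 ≤ z.re ∧ z.re ≤ 1) ∧ (0 ≤ z.im ∧ z.im ≤ 1))

/-! ### Probability on the lattice -/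

/-- TP: two-point bound. -/
def St_TP : Prop := H934F.St_A → ∀ B : ℕ, ∃ C : ℝ, 0 < C ∧ ∀ h : ℕ, 1 ≤ h → ∀ (S : Finset H974.Edg)
  (u w : ℤ × ℤ), H974.RE (u.1 - h) (u.1 + h) (u.2 - h) (u.2 + h) ⊆ S →
    H974.RE (w.1 - h) (w.1 + h) (w.2 - h) (w.2 + h) ⊆ S → md u w ≤ B * h →
    H974.Pr (fun _ => (1/2:ℝ)) S (fun F => Tw u h (↑F) ∧ Tw w h (↑F)) ≤
      C * ((md u w : ℤ) : ℝ) ^ (-(1/4) : ℝ) * (h : ℝ) ^ (-(1/4) : ℝ)

/-- EN: expected energy. -/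
def St_EN : Prop := H934F.St_A → ∀ t : ℝ, 0 < t → t < 7/4 → ∀ B : ℕ, ∃ E : ℝ, 0 < E ∧
  ∀ n h : ℕ, 1 ≤ h → n ≤ B * h → ∀ ρ : ℤ, (h : ℤ) ≤ ρ →
    H974.Ex (fun _ => (1/2:ℝ)) (H974.RE 0 n 0 n) (fun F => EnT n ρ h t F) ≤
      E * (n : ℝ) ^ (7/2 - t)

/-- LAY: few boundary sides near the boundary of the box. -/
def St_LAY : Prop := ∀ C : ℝ, 0 < C → TwoUp C (1/4) → ∃ A : ℝ, 0 < A ∧
  ∀ (n : ℕ) (ρ m : ℤ), 1 ≤ ρ → ρ ≤ m → ρ ≤ n → ∀ s : ℝ, 0 < s →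
    H974.Pr (fun _ => (1/2:ℝ)) (H974.RE 0 n 0 n) (fun F => Big n m (↑F) ∧
      ∃ v, IsMax n (↑F) v ∧ s * ((n : ℝ) * (ρ : ℝ) ^ (3/4 : ℝ)) ≤ (perL n ρ (↑F) v : ℝ)) ≤ A / s

/-- RICH: with probability close to one there are many boundary vertices with bounded energy. -/
def St_RICH : Prop := H934F.St_A → (∃ c : ℝ, 0 < c ∧ H984P.LowA c (1/4)) →
  (∃ C : ℝ, 0 < C ∧ TwoUp C (1/4)) → ∀ t : ℝ, 0 < t → t < 7/4 → ∀ δ : ℝ, 0 < δ →
    ∃ (lam E : ℝ) (n0 : ℕ), 0 < lam ∧ 0 < E ∧ ∀ n : ℕ, n0 ≤ n →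
      prob n (fun F => ∃ v, Largest n F v ∧ ¬ Rich n t lam E F v) ≤ δ

/-- GOOD: rich configurations have a boundary which is good in the sense of `H389R2.Dim`. -/
def St_GOOD : Prop := ∀ (n : ℕ) (t lam E : ℝ) (F : Finset Edge) (v : ℤ × ℤ), 0 < n → F ⊆ edges n →
  0 < t → 0 < lam → 0 < E → Rich n t lam E F v → ∀ δ : ℝ, 1 / (n : ℝ) ≤ δ →
    Pool.Agent.H389R2.Dim.Good t δ (2 ^ (-t) / (E / lam ^ 2)) (outerBoundary n F v)

/-- HIT: probability that the boundary meets a small disc inside the square. -/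
def St_HIT : Prop := H934F.St_A → ∀ s : ℝ, 0 < s → s < 1/4 → ∀ d : ℝ, 0 < d → d ≤ 1 →
  ∃ C : ℝ, 0 < C ∧ ∀ (z : ℂ) (r : ℝ), 0 < r → r ≤ 1 →
    ((d ≤ z.re ∧ z.re ≤ 1 - d) ∧ (d ≤ z.im ∧ z.im ≤ 1 - d)) → ∃ n0 : ℕ, ∀ n : ℕ, n0 ≤ n →
      prob n (fun F => ∃ v, Largest n F v ∧ (outerBoundary n F v ∩ Metric.ball z r).Nonempty) ≤
        C * r ^ s

/-! ### Limits -/

/-- UPG: upper bound of the dimension, from bounds for the probability to meet a disc. -/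
def St_UPG : Prop := ∀ (D : Set ℂ), IsOpen D → (∀ z ∈ D, |z.re| < 2 ∧ |z.im| < 2) →
  ∀ (μs : ℕ → ProbabilityMeasure (NonemptyCompacts ℂ)) (μ : ProbabilityMeasure (NonemptyCompacts ℂ)),
    Tendsto μs atTop (𝓝 μ) →
    (∀ s : ℝ, 0 < s → s < 1/4 → ∀ d : ℝ, 0 < d → d ≤ 1 → ∃ C : ℝ, 0 < C ∧
      ∀ (z : ℂ) (r : ℝ), 0 < r → r ≤ 1 → Metric.ball z d ⊆ D → ∀ᶠ i in atTop,
        (μs i : Measure (NonemptyCompacts ℂ))
          {K : NonemptyCompacts ℂ | ((K : Set ℂ) ∩ Metric.ball z r).Nonempty} ≤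
            ENNReal.ofReal (C * r ^ s)) →
    ∀ᵐ K : NonemptyCompacts ℂ ∂(μ : Measure (NonemptyCompacts ℂ)), dimH ((K : Set ℂ) ∩ D) ≤ 7 / 4

/-- SQ: the boundary of the unit square has dimension at most `7/4`. -/
def St_SQ : Prop := dimH {z : ℂ | ((0 ≤ z.re ∧ z.re ≤ 1) ∧ (0 ≤ z.im ∧ z.im ≤ 1)) ∧
  ¬ ((0 < z.re ∧ z.re < 1) ∧ (0 < z.im ∧ z.im < 1))} ≤ 7 / 4

end H342L
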