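import Pool.Agent.H342R3.Lim.Law
import Pool.Agent.H342R3.Lim.Stubs

/-!
Assembly: the dimension of the subsequential limits.
-/

namespace H342L

open H342P H342P.Plain MeasureTheory TopologicalSpace Filter Topology
open scoped ENNReal NNReal

/-- The scaled outer boundary as a nonempty compact set. -/
noncomputable def bdOf (hC : St_CPT) (n : ℕ) (F : Finset Edge) (v : ℤ × ℤ) : NonemptyCompacts ℂ :=
  ⟨⟨outerBoundary n F v, (hC n F v).1⟩, (hC n F v).2.1⟩

theorem coe_bdOf (hC : St_CPT) (n : ℕ) (F : Finset Edge) (v : ℤ × ℤ) :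
    (bdOf hC n F v : Set ℂ) = outerBoundary n F v := rfl

/-- The closed unit square. -/
def csq : Set ℂ := {z | (0 ≤ z.re ∧ z.re ≤ 1) ∧ (0 ≤ z.im ∧ z.im ≤ 1)}

/-- The open unit square. -/
def osq : Set ℂ := {z | (0 < z.re ∧ z.re < 1) ∧ (0 < z.im ∧ z.im < 1)}

theorem isClosed_csq : IsClosed csq := by
  refine IsClosed.inter (IsClosed.inter ?_ ?_) (IsClosed.inter ?_ ?_)
  · exact isClosed_le continuous_const Complex.continuous_re
  · exact isClosed_le Complex.continuous_re continuous_const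
  · exact isClosed_le continuous_const Complex.continuous_im
  · exact isClosed_le Complex.continuous_im continuous_const

theorem isOpen_osq : IsOpen osq := by
  refine IsOpen.inter (IsOpen.inter ?_ ?_) (IsOpen.inter ?_ ?_)
  · exact isOpen_lt continuous_const Complex.continuous_re
  · exact isOpen_lt Complex.continuous_re continuous_const
  · exact isOpen_lt continuous_const Complex.continuous_im
  · exact isOpen_lt Complex.continuous_im continuous_const

/-- A disc inside the open square. -/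
theorem ball_osq {z : ℂ} {d : ℝ} (hd : 0 < d) (h : Metric.ball z d ⊆ osq) :
    (d ≤ z.re ∧ z.re ≤ 1 - d) ∧ (d ≤ z.im ∧ z.im ≤ 1 - d) := by
  have key : ∀ w : ℂ, ‖w‖ ≤ 1 → ∀ s : ℝ, 0 ≤ s → s < d → z + s • w ∈ osq := by
    intro w hw s hs0 hs
    apply h
    rw [Metric.mem_ball, dist_eq_norm, add_sub_cancel_left, norm_smul, Real.norm_of_nonneg hs0]
    calc s * ‖w‖ ≤ s * 1 := by gcongr
      _ < d := by linarith
  have lim : ∀ a b : ℝ, (∀ s : ℝ, 0 ≤ s → s < d → a + s ≤ b) → a + d ≤ b := by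
    intro a b hs
    refine le_of_forall_pos_lt_add fun ε hε => ?_
    have := hs (max 0 (d - ε / 2)) (le_max_left _ _) (max_lt hd (by linarith))
    have := le_max_right 0 (d - ε / 2)
    linarith
  refine ⟨⟨?_, ?_⟩, ?_, ?_⟩
  · have := lim 0 z.re fun s h0 h1 => by
      have := (key (-1) (by simp) s h0 h1).1.1
      simp at this
      linarith
    linarith
  · have := lim z.re 1 fun s h0 h1 => by
      have := (key 1 (by simp) s h0 h1).1.2
      simp at this
      linarith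
    linarith
  · have := lim 0 z.im fun s h0 h1 => by
      have := (key (-Complex.I) (by simp) s h0 h1).2.1
      simp at this
      linarith
    linarith
  · have := lim z.im 1 fun s h0 h1 => by
      have := (key Complex.I (by simp) s h0 h1).2.2
      simp at this
      linarith
    linarith

theorem prob_nonneg (n : ℕ) (A : Finset Edge → Prop) : 0 ≤ prob n A := by
  unfold prob
  positivity

section
variable (hC : St_CPT)
  (hR : ∀ t : ℝ, 0 < t → t < 7/4 → ∀ δ : ℝ, 0 < δ →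
    ∃ (lam E : ℝ) (n0 : ℕ), 0 < lam ∧ 0 < E ∧ ∀ n : ℕ, n0 ≤ n →
      prob n (fun F => ∃ v, Largest n F v ∧ ¬ Rich n t lam E F v) ≤ δ)
  (hG : St_GOOD)
  (hH : ∀ s : ℝ, 0 < s → s < 1/4 → ∀ d : ℝ, 0 < d → d ≤ 1 →
    ∃ C : ℝ, 0 < C ∧ ∀ (z : ℂ) (r : ℝ), 0 < r → r ≤ 1 →
    ((d ≤ z.re ∧ z.re ≤ 1 - d) ∧ (d ≤ z.im ∧ z.im ≤ 1 - d)) → ∃ n0 : ℕ, ∀ n : ℕ, n0 ≤ n →
      prob n (fun F => ∃ v, Largest n F v ∧ (outerBoundary n F v ∩ Metric.ball z r).Nonempty) ≤
        C * r ^ s)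
  (hU : St_UPG) (hS : St_SQ)
  {sel : (n : ℕ) → Finset Edge → ℤ × ℤ}
  (hsel : ∀ n F, 0 < n → F ⊆ edges n → Largest n F (sel n F)) {k : ℕ → ℕ} (hk : Tendsto k atTop atTop) {μ : ProbabilityMeasure (NonemptyCompacts ℂ)}
  (hμ : Tendsto (fun i => lawOf (k i) (fun F => bdOf hC (k i) F (sel (k i) F))) atTop (𝓝 μ))

include hR hG hsel hk hμ in
theorem fin_lower {t : ℝ} (ht : 0 < t) (ht1 : t < 7/4) :
    ∀ᵐ K : NonemptyCompacts ℂ ∂(μ : Measure (NonemptyCompacts ℂ)),
      ENNReal.ofReal t ≤ dimH (K : Set ℂ) := by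
  apply Pool.Agent.H389R2.Dim.lower_of_tendsto ht hμ
  intro ε hε
  obtain ⟨δ, hδ0, hδ⟩ : ∃ δ : ℝ, 0 < δ ∧ ENNReal.ofReal δ ≤ ε := by
    rcases eq_or_ne ε ∞ with h | h
    · exact ⟨1, one_pos, by rw [h]; exact le_top⟩
    · exact ⟨ε.toReal, ENNReal.toReal_pos hε.ne' h, by rw [ENNReal.ofReal_toReal h]⟩
  obtain ⟨lam, E, n0, hlam, hE, h⟩ := hR t ht ht1 δ hδ0
  refine ⟨2 ^ (-t) / (E / lam ^ 2), by positivity, fun δ' hδ' => ?_⟩
  apply Eventually.frequently
  obtain ⟨n1, hn1⟩ := exists_nat_gt (1 / δ')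
  have hev : ∀ᶠ i in atTop, max (max n0 n1) 1 ≤ k i := tendsto_atTop.mp hk _
  filter_upwards [hev] with i hi
  have hi0 : n0 ≤ k i := (le_max_left _ _).trans ((le_max_left _ _).trans hi)
  have hi1 : n1 ≤ k i := (le_max_right _ _).trans ((le_max_left _ _).trans hi)
  have hi2 : 0 < k i := lt_of_lt_of_le one_pos ((le_max_right _ _).trans hi)
  have hki : 1 / (k i : ℝ) ≤ δ' := by
    have h2 : (0:ℝ) < k i := by exact_mod_cast hi2
    have h3 : (n1 : ℝ) ≤ k i := by exact_mod_cast hi1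
    rw [div_le_iff₀ h2]
    rw [div_lt_iff₀ hδ'] at hn1
    nlinarith
  have hmeas : MeasurableSet {K : NonemptyCompacts ℂ |
      ¬ Pool.Agent.H389R2.Dim.Good t δ' (2 ^ (-t) / (E / lam ^ 2)) (K : Set ℂ)} :=
    ((Pool.Agent.H389R2.Dim.isClosed_good t δ' _).isOpen_compl).measurableSet
  rw [lawOf_apply _ _ hmeas]
  refine le_trans (ENNReal.ofReal_le_ofReal ?_) hδ
  refine le_trans (prob_mono ?_) (h (k i) hi0)
  intro F hF hbad
  refine ⟨sel (k i) F, hsel _ _ hi2 hF, fun hrich => hbad ?_⟩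
  exact hG (k i) t lam E F _ hi2 hF ht hlam hE hrich δ' hki

include hH hU hsel hk hμ in
theorem fin_upper : ∀ᵐ K : NonemptyCompacts ℂ ∂(μ : Measure (NonemptyCompacts ℂ)),
      dimH ((K : Set ℂ) ∩ osq) ≤ 7 / 4 := by
  refine hU osq isOpen_osq ?_ _ μ hμ ?_
  · rintro z ⟨⟨h1, h2⟩, h3, h4⟩
    rw [abs_lt, abs_lt]
    constructor <;> constructor <;> linarith
  intro s hs hs1 d hd hd1
  obtain ⟨C, hC0, h⟩ := hH s hs hs1 d hd hd1
  refine ⟨C, hC0, fun z r hr hr1 hb => ?_⟩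
  obtain ⟨n0, hn0⟩ := h z r hr hr1 (ball_osq hd hb)
  have hev : ∀ᶠ i in atTop, max n0 1 ≤ k i := tendsto_atTop.mp hk _
  filter_upwards [hev] with i hi'
  have hi : n0 ≤ k i := (le_max_left _ _).trans hi'
  have hi2 : 0 < k i := lt_of_lt_of_le one_pos ((le_max_right _ _).trans hi')
  have hmeas : MeasurableSet {K : NonemptyCompacts ℂ | ((K : Set ℂ) ∩ Metric.ball z r).Nonempty} :=
    (NonemptyCompacts.isOpen_inter_nonempty_of_isOpen Metric.isOpen_ball).measurableSet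
  rw [lawOf_apply _ _ hmeas]
  refine ENNReal.ofReal_le_ofReal ?_
  refine le_trans (prob_mono ?_) (hn0 (k i) hi)
  intro F hF hmeet
  exact ⟨sel (k i) F, hsel _ _ hi2 hF, hmeet⟩

include hsel hk hμ in
theorem fin_square : ∀ᵐ K : NonemptyCompacts ℂ ∂(μ : Measure (NonemptyCompacts ℂ)),
      (K : Set ℂ) ⊆ csq := by
  have hopen : IsOpen {K : NonemptyCompacts ℂ | ((K : Set ℂ) ∩ csqᶜ).Nonempty} :=
    NonemptyCompacts.isOpen_inter_nonempty_of_isOpen isClosed_csq.isOpen_compl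
  have h0 : (μ : Measure (NonemptyCompacts ℂ))
      {K : NonemptyCompacts ℂ | ((K : Set ℂ) ∩ csqᶜ).Nonempty} = 0 := by
    apply le_antisymm _ bot_le
    refine (ProbabilityMeasure.le_liminf_measure_open_of_tendsto hμ hopen).trans ?_
    refine liminf_le_of_frequently_le (Eventually.frequently ?_)
    have hev : ∀ᶠ i in atTop, 1 ≤ k i := tendsto_atTop.mp hk _
    filter_upwards [hev] with i hi
    rw [lawOf_apply _ _ hopen.measurableSet]
    have : prob (k i) (fun F => bdOf hC (k i) F (sel (k i) F) ∈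
        {K : NonemptyCompacts ℂ | ((K : Set ℂ) ∩ csqᶜ).Nonempty}) ≤ prob (k i) (fun _ => ¬ True) := by
      apply prob_mono
      rintro F hF ⟨z, hz, hz'⟩
      exact absurd ((hC (k i) F (sel (k i) F)).2.2 hi hF (hsel _ _ hi hF).1 z hz) hz'
    rw [prob_not, prob_true, sub_self] at this
    rw [ENNReal.ofReal_of_nonpos this]
    exact le_rfl
  filter_upwards [compl_mem_ae_iff.mpr h0] with K hK
  intro z hz
  by_contra hcon
  exact hK ⟨z, hz, hcon⟩

include hR hG hH hU hS hsel hk hμ in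
/-- The dimension of the limits of the compact sets. -/
theorem fin_sets : ∀ᵐ K : NonemptyCompacts ℂ ∂(μ : Measure (NonemptyCompacts ℂ)),
      dimH (K : Set ℂ) = 7 / 4 := by
  have h1 : ∀ᵐ K : NonemptyCompacts ℂ ∂(μ : Measure (NonemptyCompacts ℂ)), ∀ j : ℕ,
      ENNReal.ofReal (7/4 - 1 / ((j:ℝ) + 1)) ≤ dimH (K : Set ℂ) := by
    rw [ae_all_iff]
    intro j
    by_cases hj : 0 < 7/4 - 1 / ((j:ℝ) + 1)
    · exact fin_lower hC hR hG hsel hk hμ hj (by
        have : 0 < 1 / ((j:ℝ) + 1) := by positivity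
        linarith)
    · refine Eventually.of_forall fun K => ?_
      rw [ENNReal.ofReal_of_nonpos (not_lt.mp hj)]
      exact bot_le
  filter_upwards [h1, fin_upper hC hH hU hsel hk hμ, fin_square hC hsel hk hμ] with K k1 k2 k3
  have h74 : ENNReal.ofReal (7/4 - 0) = 7 / 4 := by
    rw [sub_zero, ENNReal.ofReal_div_of_pos (by norm_num)]
    norm_num
  apply le_antisymm
  · have hsub : (K : Set ℂ) ⊆ ((K : Set ℂ) ∩ osq) ∪
        {z : ℂ | ((0 ≤ z.re ∧ z.re ≤ 1) ∧ (0 ≤ z.im ∧ z.im ≤ 1)) ∧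
          ¬ ((0 < z.re ∧ z.re < 1) ∧ (0 < z.im ∧ z.im < 1))} := by
      intro z hz
      by_cases h : z ∈ osq
      · exact Or.inl ⟨hz, h⟩
      · exact Or.inr ⟨k3 hz, h⟩
    refine (dimH_mono hsub).trans ?_
    rw [dimH_union]
    exact max_le k2 hS
  · have hlim : Tendsto (fun j : ℕ => ENNReal.ofReal (7 / 4 - 1 / ((j : ℝ) + 1))) atTop
        (𝓝 (ENNReal.ofReal (7 / 4 - 0))) :=
      ENNReal.tendsto_ofReal (tendsto_const_nhds.sub tendsto_one_div_add_atTop_nhds_zero_nat)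
    rw [h74] at hlim
    exact le_of_tendsto' hlim k1

end

section
variable (hC : St_CPT)
  (hsets : ∀ (sel : (n : ℕ) → Finset Edge → ℤ × ℤ),
    (∀ n F, 0 < n → F ⊆ edges n → Largest n F (sel n F)) →
    ∀ k : ℕ → ℕ, Tendsto k atTop atTop → ∀ μ : ProbabilityMeasure (NonemptyCompacts ℂ),
      Tendsto (fun i => lawOf (k i) (fun F => bdOf hC (k i) F (sel (k i) F))) atTop (𝓝 μ) →
      ∀ᵐ K : NonemptyCompacts ℂ ∂(μ : Measure (NonemptyCompacts ℂ)), dimH (K : Set ℂ) = 7 / 4)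

include hsets in
/-- The same for curves. -/
theorem fin_curves (sel : (n : ℕ) → Finset Edge → ℤ × ℤ)
    (hsel : ∀ n F, 0 < n → F ⊆ edges n → Largest n F (sel n F))
    (γ : (n : ℕ) → Finset Edge → Curve)
    (hγ : ∀ n F, 0 < n → F ⊆ edges n → Set.range (γ n F).path = outerBoundary n F (sel n F))
    (k : ℕ → ℕ) (hk : Tendsto k atTop atTop) (μ : ProbabilityMeasure Curve)
    (hμ : Tendsto (fun i => lawOf (k i) (γ (k i))) atTop (𝓝 μ)) :
    ∀ᵐ c : Curve ∂(μ : Measure Curve), dimH (Set.range c.path) = 7 / 4 := by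
  have hm : Measurable Curve.trace := Curve.continuous_trace.measurable
  have h1 := ProbabilityMeasure.tendsto_map_of_tendsto_of_continuous _ μ hμ
    Curve.continuous_trace
  have h2 : (fun i => (lawOf (k i) (γ (k i))).map hm.aemeasurable) =ᶠ[atTop]
      fun i => lawOf (k i) (fun F => bdOf hC (k i) F (sel (k i) F)) := by
    filter_upwards [tendsto_atTop.mp hk 1] with i hi
    rw [lawOf_map _ _ hm]
    apply lawOf_congr
    intro F hF
    apply NonemptyCompacts.ext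
    rw [Curve.coe_trace, hγ _ _ hi hF, coe_bdOf]
  have h3 := hsets sel hsel k hk _ (h1.congr' h2)
  have h4 := ae_of_ae_map hm.aemeasurable (μ := (μ : Measure Curve))
    (p := fun K : NonemptyCompacts ℂ => dimH (K : Set ℂ) = 7 / 4) h3
  exact h4

end

end H342L
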