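import Pool.Agent.H342R3.Lim.Stubs
import Pool.Agent.H389R2.Dim.Lower

/-! GOOD: rich configurations have a good outer boundary. -/

namespace H342L

open H342P H342P.Plain MeasureTheory TopologicalSpace Filter Topology

theorem GOOD_inj {n : ℕ} (hn : 0 < n) : Function.Injective (pt n) := by
  intro u w h
  have hn' : (n : ℝ) ≠ 0 := by exact_mod_cast hn.ne'
  unfold pt at h
  rw [Complex.mk.injEq, div_left_inj' hn', div_left_inj' hn'] at h
  exact Prod.ext (by exact_mod_cast h.1) (by exact_mod_cast h.2)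

theorem GOOD_md_pos (u w : ℤ × ℤ) : (0 : ℝ) < ((md u w : ℤ) : ℝ) := by
  have : 1 ≤ md u w := le_max_right _ _
  have : 0 < md u w := by omega
  exact_mod_cast this

theorem GOOD_dist {n : ℕ} (hn : 0 < n) {δ : ℝ} (hδ : 1 / (n : ℝ) ≤ δ) (u w : ℤ × ℤ) :
    ((md u w : ℤ) : ℝ) / n ≤ max (dist (pt n u) (pt n w)) δ := by
  have hn' : (0 : ℝ) < n := by exact_mod_cast hn
  have h1 : ((|u.1 - w.1| : ℤ) : ℝ) / n ≤ dist (pt n u) (pt n w) := by
    rw [Complex.dist_eq]
    have h := Complex.abs_re_le_norm (pt n u - pt n w)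
    have e : (pt n u - pt n w).re = ((u.1 - w.1 : ℤ) : ℝ) / n := by
      simp only [pt, Complex.sub_re]
      push_cast
      ring
    rw [e, abs_div, abs_of_pos hn'] at h
    push_cast at h ⊢
    exact h
  have h2 : ((|u.2 - w.2| : ℤ) : ℝ) / n ≤ dist (pt n u) (pt n w) := by
    rw [Complex.dist_eq]
    have h := Complex.abs_im_le_norm (pt n u - pt n w)
    have e : (pt n u - pt n w).im = ((u.2 - w.2 : ℤ) : ℝ) / n := by
      simp only [pt, Complex.sub_im]
      push_cast
      ring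
    rw [e, abs_div, abs_of_pos hn'] at h
    push_cast at h ⊢
    exact h
  unfold md
  rcases max_choice (max |u.1 - w.1| |u.2 - w.2|) 1 with h | h
  · rw [h]
    rcases max_choice |u.1 - w.1| |u.2 - w.2| with h' | h'
    · rw [h']; exact h1.trans (le_max_left _ _)
    · rw [h']; exact h2.trans (le_max_left _ _)
  · rw [h]
    push_cast
    exact hδ.trans (le_max_right _ _)

theorem t_GOOD (hA : St_TOPA) : St_GOOD := by
  classical
  intro n t lam E F v hn hF ht hlam hE hR δ hδ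
  obtain ⟨V, hV1, hV2, hV3⟩ := hR
  have hn' : (0 : ℝ) < n := by exact_mod_cast hn
  have hδ0 : 0 < δ := lt_of_lt_of_le (by positivity) hδ
  have hcard : (0 : ℝ) < (V.card : ℝ) := lt_of_lt_of_le (by positivity) hV2
  have hVne : V.Nonempty := by
    rw [← Finset.card_pos]
    exact_mod_cast hcard
  have hinj := GOOD_inj hn
  refine Pool.Agent.H389R2.Dim.good_of_energy (S := V.image (pt n)) hδ0 ht.le (by positivity)
    (hVne.image _) ?_ ?_
  · intro z hz
    rw [Finset.coe_image] at hz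
    obtain ⟨u, hu, rfl⟩ := hz
    obtain ⟨e, he, heu, ho⟩ := hV1 u hu
    refine hA n F v hn hF e he ho ?_
    unfold seg
    rw [heu]
    exact left_mem_segment _ _ _
  · rw [Finset.card_image_of_injective _ hinj,
      Finset.sum_image (fun x _ y _ h => hinj h)]
    have h1 : ∀ u ∈ V, ∑ y ∈ V.image (pt n), (max (dist (pt n u) y) δ) ^ (-t) ≤
        ∑ w ∈ V, (n : ℝ) ^ t * ((md u w : ℤ) : ℝ) ^ (-t) := by
      intro u _
      rw [Finset.sum_image (fun x _ y _ h => hinj h)]
      apply Finset.sum_le_sum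
      intro w _
      have hm := GOOD_md_pos u w
      calc (max (dist (pt n u) (pt n w)) δ) ^ (-t) ≤ (((md u w : ℤ) : ℝ) / n) ^ (-t) :=
            Real.rpow_le_rpow_of_nonpos (by positivity) (GOOD_dist hn hδ u w) (by linarith)
        _ = (n : ℝ) ^ t * ((md u w : ℤ) : ℝ) ^ (-t) := by
            rw [Real.div_rpow hm.le hn'.le, Real.rpow_neg hn'.le, div_inv_eq_mul, mul_comm]
    refine (Finset.sum_le_sum h1).trans ?_
    simp_rw [← Finset.mul_sum]
    have h2 : (n : ℝ) ^ t * ∑ u ∈ V, ∑ w ∈ V, ((md u w : ℤ) : ℝ) ^ (-t) ≤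
        E * (n : ℝ) ^ (7 / 2 : ℝ) := by
      have h3 := mul_le_mul_of_nonneg_left hV3 (show (0 : ℝ) ≤ (n : ℝ) ^ t by positivity)
      refine h3.trans (le_of_eq ?_)
      rw [Real.rpow_sub hn']
      field_simp
    refine h2.trans ?_
    have h4 : (lam * (n : ℝ) ^ (7 / 4 : ℝ)) ^ 2 ≤ (V.card : ℝ) ^ 2 :=
      pow_le_pow_left₀ (by positivity) hV2 2
    have h5 : ((n : ℝ) ^ (7 / 4 : ℝ)) ^ 2 = (n : ℝ) ^ (7 / 2 : ℝ) := by
      rw [← Real.rpow_natCast, ← Real.rpow_mul hn'.le]
      norm_num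
    rw [mul_pow, h5] at h4
    have h6 : E * (n : ℝ) ^ (7 / 2 : ℝ) = E / lam ^ 2 * (lam ^ 2 * (n : ℝ) ^ (7 / 2 : ℝ)) := by
      field_simp
    rw [h6]
    exact mul_le_mul_of_nonneg_left h4 (by positivity)

end H342L
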