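import Pool.Agent.H342R3.Lim.Stubs

/-!
HIT: probability that the outer boundary of the largest cluster meets a small disc inside the square.
-/

namespace H342P

open H974 Finset H12S

/-- A dual path up to the exit of a box. -/
theorem HIT_dual {F S : Set Edg} (B : Vtx → Prop)
    (hX : ∀ e : Edg, B (dsrc e) ∨ B (dtgt e) → e ∈ S) {x y : Vtx}
    (h : DReach Fᶜ x y) (hy : ¬ B y) : ∃ z, ¬ B z ∧ DReach (S \ F) x z := by
  have key : ∀ y, DReach Fᶜ x y → DReach (S \ F) x y ∨ ∃ z, ¬ B z ∧ DReach (S \ F) x z := by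
    intro y h
    induction h with
    | refl => exact Or.inl (DReach.refl _ _)
    | @tail g g' _ hs ih =>
      rcases ih with ih | ih
      · by_cases hg : B g
        · left
          refine ih.trans (DAdj.reach ?_)
          obtain ⟨e, he, h⟩ := hs
          refine ⟨e, ⟨?_, he⟩, h⟩
          apply hX
          rcases h with ⟨h3, -⟩ | ⟨-, h3⟩
          · left; rw [h3]; exact hg
          · right; rw [h3]; exact hg
        · exact Or.inr ⟨g, hg, ih⟩
      · exact Or.inr ih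
  rcases key y h with h1 | h1
  · exact ⟨y, hy, h1⟩
  · exact h1

/-- A vertex of the largest cluster which touches an outer face has two arms. -/
theorem HIT_arms {n : ℕ} {m k : ℤ} {F : Set Edg} {v u f : Vtx} (hm : IsMax n F v)
    (hb : Big n m F) (hu : Reach F v u) (hf : Inc u f) (ho : Outer F v f) (hk : k ≤ m)
    (hk1 : k ≤ u.1) : Two u f k F := by
  obtain ⟨a, b, ha, hb', hmax⟩ := hm
  obtain ⟨c, d, hc, hd, hcd, h8⟩ := hb
  have h8' : 8 * m ^ 2 ≤ dsq a b := h8.trans (hmax c d hc hd hcd)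
  have hfar : ∃ w, Reach F v w ∧ FarF u k w := by
    by_contra hcon
    push Not at hcon
    have h1 := hcon a ha
    have h2 := hcon b hb'
    have h3 := dsq_lt h1 h2
    have h4 : 0 < k := by
      unfold FarF at h1
      rw [not_not] at h1
      unfold inF at h1
      omega
    nlinarith
  obtain ⟨w, hw, hw2⟩ := hfar
  refine ⟨⟨w, far_of_not_inF hw2, hu.symm.trans hw⟩, ?_⟩
  by_contra hcon
  have hD : ∀ g, DReach Fᶜ f g → inF (u.1 - k) (u.1 + k) (u.2 - k) (u.2 + k) g := by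
    intro g hg
    by_contra h
    exact hcon ⟨g, h, hg⟩
  refine hw2 (outer_arm hD (g := (-1, -1)) ?_ ho hu hf hw)
  unfold inF
  simp only
  omega

/-- Two arms of a vertex near `c` cross the annulus around `c`. -/
theorem HIT_crs {n : ℕ} {k : ℤ} {F : Finset Edg} {u f : Vtx} {c1 c2 : ℤ} {r R : ℕ}
    (hf : Inc u f) (hT : Two u f k (↑F)) (hkb : k ≤ bdist n u)
    (h1 : c1 - r + 1 ≤ u.1) (h2 : u.1 ≤ c1 + r - 1) (h3 : c2 - r + 1 ≤ u.2) (h4 : u.2 ≤ c2 + r - 1)
    (hR : (r : ℤ) + R ≤ k) :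
    Crs c1 c2 r R ↑F ∧ DCrs c1 c2 r R (↑(RE 0 n 0 n \ F) : Set Edg) := by
  obtain ⟨⟨w, hw, hw2⟩, g, hg, hg2⟩ := hT
  constructor
  · refine ⟨u, w, ?_, ?_, hw2⟩
    · unfold inR; omega
    · unfold Far at hw; omega
  · obtain ⟨z, hz, hz2⟩ := HIT_dual (S := (↑(RE 0 n 0 n) : Set Edg))
      (inF (u.1 - k) (u.1 + k) (u.2 - k) (u.2 + k))
      (fun e he => by
        have h5 := mem_RE_of_inF he
        exact_mod_cast box_sub hkb h5) hg2 hg
    refine ⟨f, z, ?_, ?_, ?_⟩
    · unfold Inc at hf; unfold inR; omega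
    · unfold inF at hz; omega
    · rw [Finset.coe_sdiff]; exact hz2

end H342P

namespace H342L

open H342P H342P.Plain MeasureTheory TopologicalSpace Filter Topology

/-- The probability that the boundary meets a disc, in terms of the parameters. -/
theorem HIT_prob {C0 : ℝ} (hA : ∀ r R : ℕ, 1 ≤ r → r ≤ R → ∀ (c1 c2 : ℤ) (S : Finset H974.Edg),
    H12S.PQ (1/2) S (fun F => H12S.Crs c1 c2 r R ↑F ∧ H12S.DCrs c1 c2 r R (↑(S \ F) : Set H974.Edg)) ≤
      C0 * ((r : ℝ) / R) ^ (1/4 : ℝ)) (hTB : St_TOPB) {z : ℂ} {r : ℝ} {n K L m k ρ R : ℕ}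
    (hn : 0 < n) (hL : 0 < L) (hm : 3 * m ≤ L) (hK : K * (L + 1) ≤ n + 1) (hLn : L ≤ n)
    (hρ : 1 ≤ ρ) (hρR : ρ ≤ R) (hk : ρ + R ≤ k) (hkm : k ≤ m) (hnr : (n : ℝ) * r + 3 ≤ ρ)
    (h1 : (k : ℝ) + n * r + 1 ≤ n * z.re) (h2 : (k : ℝ) + n * r + 1 ≤ n - n * z.re)
    (h3 : (k : ℝ) + n * r + 1 ≤ n * z.im) (h4 : (k : ℝ) + n * r + 1 ≤ n - n * z.im) :
    prob n (fun F => ∃ v, Largest n F v ∧ (outerBoundary n F v ∩ Metric.ball z r).Nonempty) ≤
      C0 * ((ρ : ℝ) / R) ^ (1/4 : ℝ) + (1/2) ^ K := by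
  have hok : H974.Ok (fun _ : H974.Edg => (1/2:ℝ)) := fun _ => ⟨by norm_num, by norm_num⟩
  have hn0 : (0 : ℝ) < n := by exact_mod_cast hn
  set c1 : ℤ := ⌊(n : ℝ) * z.re⌋ with hc1
  set c2 : ℤ := ⌊(n : ℝ) * z.im⌋ with hc2
  have hNB := pr_not_big (n := n) (L := L) (K := K) hL (m := (m:ℤ)) (by omega)
      (by exact_mod_cast hm) hK hLn
  have hAA := hA ρ R hρ hρR c1 c2 (H974.RE 0 n 0 n)
  refine le_trans (prob_le_of_pr (B := fun F : Finset Edge =>
    (H12S.Crs c1 c2 ρ R ↑F ∧ H12S.DCrs c1 c2 ρ R (↑(H974.RE 0 n 0 n \ F) : Set H974.Edg)) ∨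
      ¬ Big n m (↑F)) ?_) ?_
  · rintro F hF ⟨v, hv, z', hz', hb⟩
    by_cases hBig : Big n m (↑F)
    · left
      obtain ⟨u, f, hu, hf, ho, hx, hy⟩ := hTB n F v hn hF hv.1 z' hz'
      have hmax := isMax_of_largest hv
      have hu' := (mem_cluster _ _ _).mp hu
      have ho' := (outer_iff _ _ _).mp ho
      rw [Metric.mem_ball, dist_eq_norm] at hb
      have e1 : |z'.re - z.re| < r := by
        have := Complex.abs_re_le_norm (z' - z)
        rw [Complex.sub_re] at this
        linarith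
      have e2 : |z'.im - z.im| < r := by
        have := Complex.abs_im_le_norm (z' - z)
        rw [Complex.sub_im] at this
        linarith
      have p1 : (pt n u).re = (u.1 : ℝ) / n := rfl
      have p2 : (pt n u).im = (u.2 : ℝ) / n := rfl
      rw [p1] at hx
      rw [p2] at hy
      rw [abs_le] at hx hy
      rw [abs_lt] at e1 e2
      have q1 : (u.1 : ℝ) / n * n = u.1 := div_mul_cancel₀ _ hn0.ne'
      have q2 : (u.2 : ℝ) / n * n = u.2 := div_mul_cancel₀ _ hn0.ne'
      have q3 : (1 : ℝ) / n * n = 1 := div_mul_cancel₀ _ hn0.ne'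
      have a1 : (u.1 : ℝ) ≤ n * z.re + n * r + 1 := by nlinarith
      have a2 : n * z.re - n * r - 1 ≤ (u.1 : ℝ) := by nlinarith
      have a3 : (u.2 : ℝ) ≤ n * z.im + n * r + 1 := by nlinarith
      have a4 : n * z.im - n * r - 1 ≤ (u.2 : ℝ) := by nlinarith
      have b1 : (c1 : ℝ) ≤ n * z.re := Int.floor_le _
      have b2 : n * z.re < (c1 : ℝ) + 1 := Int.lt_floor_add_one _
      have b3 : (c2 : ℝ) ≤ n * z.im := Int.floor_le _
      have b4 : n * z.im < (c2 : ℝ) + 1 := Int.lt_floor_add_one _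
      have d1 : (c1 : ℤ) - ρ + 1 ≤ u.1 := by
        have : (c1 : ℝ) - ρ + 1 ≤ u.1 := by linarith
        exact_mod_cast this
      have d2 : u.1 ≤ (c1 : ℤ) + ρ - 1 := by
        have : (u.1 : ℝ) ≤ c1 + ρ - 1 := by linarith
        exact_mod_cast this
      have d3 : (c2 : ℤ) - ρ + 1 ≤ u.2 := by
        have : (c2 : ℝ) - ρ + 1 ≤ u.2 := by linarith
        exact_mod_cast this
      have d4 : u.2 ≤ (c2 : ℤ) + ρ - 1 := by
        have : (u.2 : ℝ) ≤ c2 + ρ - 1 := by linarith
        exact_mod_cast this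
      have f1 : (k : ℤ) ≤ u.1 := by
        have : (k : ℝ) ≤ u.1 := by linarith
        exact_mod_cast this
      have f2 : (k : ℤ) ≤ n - u.1 := by
        have : (k : ℝ) ≤ n - u.1 := by linarith
        exact_mod_cast this
      have f3 : (k : ℤ) ≤ u.2 := by
        have : (k : ℝ) ≤ u.2 := by linarith
        exact_mod_cast this
      have f4 : (k : ℤ) ≤ n - u.2 := by
        have : (k : ℝ) ≤ n - u.2 := by linarith
        exact_mod_cast this
      have hbd : (k : ℤ) ≤ bdist n u := by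
        unfold bdist
        exact le_min (le_min f1 f2) (le_min f3 f4)
      have hT := HIT_arms hmax hBig hu' hf ho' (k := (k : ℤ)) (by exact_mod_cast hkm) f1
      exact HIT_crs hf hT hbd d1 d2 d3 d4 (by exact_mod_cast hk)
    · exact Or.inr hBig
  · refine (H974.Pr_or_le hok _ _ _).trans ?_
    exact add_le_add hAA hNB

/-- The number of scales. -/
theorem HIT_K {a : ℝ} (ha : 0 < a) {r : ℝ} (hr : 0 < r) (hr1 : r ≤ 1) :
    ∃ K : ℕ, 1 ≤ K ∧ (1/2 : ℝ) ^ K ≤ r ∧ (K : ℝ) ≤ (1 / (a * Real.log 2) + 2) * r ^ (-a) := by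
  have hl2 : 0 < Real.log 2 := Real.log_pos (by norm_num)
  have hx : (1 : ℝ) ≤ 1 / r := by rw [le_div_iff₀ hr]; linarith
  have hlog : 0 ≤ Real.log (1 / r) := Real.log_nonneg hx
  refine ⟨⌈Real.log (1 / r) / Real.log 2⌉₊ + 1, by omega, ?_, ?_⟩
  · have h1 : Real.log (1 / r) / Real.log 2 ≤ (⌈Real.log (1 / r) / Real.log 2⌉₊ : ℝ) := Nat.le_ceil _
    have h2 : Real.log (1 / r) ≤ ((⌈Real.log (1 / r) / Real.log 2⌉₊ + 1 : ℕ) : ℝ) * Real.log 2 := by
      rw [div_le_iff₀ hl2] at h1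
      push_cast
      nlinarith
    have h3 : Real.log ((1/2 : ℝ) ^ (⌈Real.log (1 / r) / Real.log 2⌉₊ + 1)) ≤ Real.log r := by
      have e1 : Real.log (1/2 : ℝ) = -Real.log 2 := by rw [one_div, Real.log_inv]
      have e2 : Real.log (1 / r) = -Real.log r := by rw [one_div, Real.log_inv]
      rw [Real.log_pow, e1]
      rw [e2] at h2 ⊢
      linarith
    exact (Real.log_le_log_iff (by positivity) hr).mp h3
  · have h1 : (⌈Real.log (1 / r) / Real.log 2⌉₊ : ℝ) < Real.log (1 / r) / Real.log 2 + 1 :=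
      Nat.ceil_lt_add_one (by positivity)
    have h2 : Real.log (1 / r) ≤ (1 / r) ^ a / a := Real.log_le_rpow_div (by positivity) ha
    have h3 : (1 / r) ^ a = r ^ (-a) := by
      rw [one_div, Real.inv_rpow hr.le, Real.rpow_neg hr.le]
    rw [h3] at h2
    have h4 : 1 ≤ r ^ (-a) := Real.one_le_rpow_of_pos_of_le_one_of_nonpos hr hr1 (by linarith)
    have h5 : Real.log (1 / r) / Real.log 2 ≤ (r ^ (-a) / a) / Real.log 2 := by gcongr
    have h6 : (r ^ (-a) / a) / Real.log 2 = 1 / (a * Real.log 2) * r ^ (-a) := by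
      field_simp
    push_cast
    rw [add_mul]
    linarith

theorem t_HIT (hTB : St_TOPB) : St_HIT := by
  rintro ⟨C0, hC0, hA⟩ s hs hs4 d hd hd1
  have hok : H974.Ok (fun _ : H974.Edg => (1/2:ℝ)) := fun _ => ⟨by norm_num, by norm_num⟩
  set a : ℝ := 1 - 4 * s with ha
  have ha0 : 0 < a := by linarith
  set A : ℝ := 1 / (a * Real.log 2) + 2 with hAdef
  have hl2 : 0 < Real.log 2 := Real.log_pos (by norm_num)
  have hA0 : 0 < A := by positivity
  set M : ℝ := max C0 1 with hM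
  have hM1 : 1 ≤ M := le_max_right _ _
  have hMC : C0 ≤ M := le_max_left _ _
  refine ⟨1 + M * (96 * A / d) ^ (1/4 : ℝ), by positivity, ?_⟩
  intro z r hr hr1 hz
  obtain ⟨⟨z1, z2⟩, z3, z4⟩ := hz
  obtain ⟨K, hK1, hKr, hKA⟩ := HIT_K ha0 hr hr1
  have hK0 : (0 : ℝ) < K := by exact_mod_cast (by omega : 0 < K)
  have hK1' : (1 : ℝ) ≤ K := by exact_mod_cast hK1
  -- it is enough to bound by `r + M * (96 r K / d)^(1/4)`
  have hfin : r + M * (96 * r * K / d) ^ (1/4 : ℝ) ≤ (1 + M * (96 * A / d) ^ (1/4 : ℝ)) * r ^ s := by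
    have h1 : r ≤ r ^ s := by
      calc r = r ^ (1 : ℝ) := (Real.rpow_one r).symm
        _ ≤ r ^ s := Real.rpow_le_rpow_of_exponent_ge hr hr1 (by linarith)
    have h2 : 96 * r * K / d ≤ 96 * A / d * r ^ (4 * s) := by
      have h3 : r * K ≤ A * r ^ (4 * s) := by
        calc r * K ≤ r * (A * r ^ (-a)) := by gcongr
          _ = A * (r ^ (1 : ℝ) * r ^ (-a)) := by rw [Real.rpow_one]; ring
          _ = A * r ^ (4 * s) := by
            rw [← Real.rpow_add hr]
            congr 2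
            rw [ha]; ring
      calc 96 * r * K / d = 96 / d * (r * K) := by ring
        _ ≤ 96 / d * (A * r ^ (4 * s)) := by gcongr
        _ = _ := by ring
    have h4 : (96 * r * K / d) ^ (1/4 : ℝ) ≤ (96 * A / d) ^ (1/4 : ℝ) * r ^ s := by
      calc (96 * r * K / d) ^ (1/4 : ℝ) ≤ (96 * A / d * r ^ (4 * s)) ^ (1/4 : ℝ) :=
            Real.rpow_le_rpow (by positivity) h2 (by norm_num)
        _ = (96 * A / d) ^ (1/4 : ℝ) * (r ^ (4 * s)) ^ (1/4 : ℝ) :=
            Real.mul_rpow (by positivity) (by positivity)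
        _ = (96 * A / d) ^ (1/4 : ℝ) * r ^ s := by
            rw [← Real.rpow_mul hr.le]
            congr 2
            ring
    calc r + M * (96 * r * K / d) ^ (1/4 : ℝ) ≤ r ^ s + M * ((96 * A / d) ^ (1/4 : ℝ) * r ^ s) := by
          gcongr
      _ = _ := by ring
  by_cases hcase : 96 * r * K ≤ d
  · -- main case
    obtain ⟨n1, hn1⟩ := exists_nat_ge (4 / r)
    obtain ⟨n2, hn2⟩ := exists_nat_ge (48 * K / d)
    refine ⟨max n1 n2, fun n hn => ?_⟩
    have hnn1 : (4 / r : ℝ) ≤ n := hn1.trans (by exact_mod_cast (le_max_left _ _).trans hn)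
    have hnn2 : (48 * K / d : ℝ) ≤ n := hn2.trans (by exact_mod_cast (le_max_right _ _).trans hn)
    rw [div_le_iff₀ hr] at hnn1
    rw [div_le_iff₀ hd] at hnn2
    have hn0 : (0 : ℝ) < n := by
      by_contra h
      push Not at h
      have : (n : ℝ) * r ≤ 0 := mul_nonpos_of_nonpos_of_nonneg h hr.le
      linarith
    have hnpos : 0 < n := by exact_mod_cast hn0
    have hn48 : (48 * K : ℝ) ≤ n := hnn2.trans (mul_le_of_le_one_right hn0.le hd1)
    have hn48' : 48 * K ≤ n := by exact_mod_cast hn48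
    set L : ℕ := n / (2 * K) with hL
    set m : ℕ := L / 3 with hm
    have hLn : 2 * K * L ≤ n := Nat.mul_div_le n (2 * K)
    have hLn2 : n < 2 * K * (L + 1) := Nat.lt_mul_div_succ n (by omega)
    have hm1 : 3 * m ≤ L := Nat.mul_div_le L 3
    have hm2 : L < 3 * (m + 1) := Nat.lt_mul_div_succ L (by omega)
    have hL8 : 8 ≤ L := by
      rw [hL, Nat.le_div_iff_mul_le (by omega)]
      omega
    have hmpos : 2 ≤ m := by omega
    have hKL : K * (L + 1) ≤ n + 1 := by nlinarith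
    have hLnn : L ≤ n := by nlinarith
    have hnm : n ≤ 12 * K * m := by
      have : 2 * K * (L + 1) ≤ 2 * K * (3 * (m + 1)) := by gcongr; omega
      nlinarith
    have hnmR : (n : ℝ) ≤ 12 * K * m := by exact_mod_cast hnm
    set T : ℝ := n * d / (12 * K) with hT
    have hT4 : 4 ≤ T := by
      rw [hT, le_div_iff₀ (by positivity)]
      linarith
    have hTm : T ≤ m := by
      rw [hT, div_le_iff₀ (by positivity)]
      have : (n : ℝ) * d ≤ n := mul_le_of_le_one_right hn0.le hd1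
      linarith
    have hTr : 8 * (n * r) ≤ T := by
      rw [hT, le_div_iff₀ (by positivity)]
      calc 8 * (n * r) * (12 * K) = n * (96 * r * K) := by ring
        _ ≤ n * d := by gcongr
    have hTd : 12 * T ≤ n * d := by
      have : T * (12 * K) = n * d := by rw [hT]; field_simp
      nlinarith
    set k : ℕ := ⌊T⌋₊ with hk
    have hkT : (k : ℝ) ≤ T := Nat.floor_le (by linarith)
    have hkT2 : T < k + 1 := Nat.lt_floor_add_one T
    set ρ : ℕ := ⌈(n : ℝ) * r⌉₊ + 3 with hρ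
    have hρ1 : (n : ℝ) * r + 3 ≤ ρ := by
      rw [hρ]; push_cast
      linarith [Nat.le_ceil ((n : ℝ) * r)]
    have hρ2 : (ρ : ℝ) ≤ 2 * (n * r) := by
      rw [hρ]; push_cast
      have := Nat.ceil_lt_add_one (a := (n : ℝ) * r) (by positivity)
      linarith
    have hρk : ρ ≤ k := by
      have : (ρ : ℝ) ≤ k := by linarith
      exact_mod_cast this
    set R : ℕ := k - ρ with hR
    have hRr : (R : ℝ) = k - ρ := by
      rw [hR]; push_cast [Nat.cast_sub hρk]; ring
    have hR2 : T / 4 ≤ R := by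
      rw [hRr]
      linarith
    have hρR : ρ ≤ R := by
      have : (ρ : ℝ) ≤ R := by linarith
      exact_mod_cast this
    have hkm : k ≤ m := by
      have : (k : ℝ) ≤ m := by linarith
      exact_mod_cast this
    have hkr : (k : ℝ) + n * r + 1 ≤ n * d := by linarith
    have g1 : (n : ℝ) * d ≤ n * z.re := by gcongr
    have g2 : (n : ℝ) * d ≤ n - n * z.re := by nlinarith
    have g3 : (n : ℝ) * d ≤ n * z.im := by gcongr
    have g4 : (n : ℝ) * d ≤ n - n * z.im := by nlinarith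
    have hP := HIT_prob hA hTB (z := z) (r := r) (n := n) (K := K) (L := L) (m := m) (k := k)
      (ρ := ρ) (R := R) hnpos (by omega) hm1 hKL hLnn (by omega) hρR (by omega) hkm hρ1
      (by linarith) (by linarith) (by linarith) (by linarith)
    refine hP.trans (le_trans ?_ hfin)
    have hRpos : (0 : ℝ) < R := by linarith
    have h5 : (ρ : ℝ) / R ≤ 96 * r * K / d := by
      rw [div_le_div_iff₀ hRpos hd]
      have e1 : T * (12 * K) = n * d := by rw [hT]; field_simp
      have e2 : n * d ≤ 48 * K * R := by nlinarith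
      calc (ρ : ℝ) * d ≤ 2 * (n * r) * d := by gcongr
        _ = 2 * r * (n * d) := by ring
        _ ≤ 2 * r * (48 * K * R) := by gcongr
        _ = 96 * r * K * R := by ring
    have h6 : ((ρ : ℝ) / R) ^ (1/4 : ℝ) ≤ (96 * r * K / d) ^ (1/4 : ℝ) :=
      Real.rpow_le_rpow (by positivity) h5 (by norm_num)
    have h7 : C0 * ((ρ : ℝ) / R) ^ (1/4 : ℝ) ≤ M * (96 * r * K / d) ^ (1/4 : ℝ) :=
      mul_le_mul hMC h6 (by positivity) (by positivity)
    linarith
  · -- trivial case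
    push Not at hcase
    refine ⟨0, fun n _ => ?_⟩
    refine le_trans ?_ hfin
    have h1 : prob n (fun F => ∃ v, Largest n F v ∧
        (outerBoundary n F v ∩ Metric.ball z r).Nonempty) ≤ 1 := by
      rw [prob_eq]
      exact H974.Pr_le_one hok _ _
    have h2 : 1 ≤ (96 * r * K / d) ^ (1/4 : ℝ) := by
      apply Real.one_le_rpow _ (by norm_num)
      rw [le_div_iff₀ hd]
      linarith
    nlinarith

end H342L
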