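import Pool.Agent.H342R3.Lim.Stubs
import Pool.Agent.H342R2.Per.Upper

/-!
Task LAY (helper51): few boundary sides near the boundary of the box.
-/

namespace H342L

open H342P MeasureTheory TopologicalSpace Filter Topology

/-- Number of two-arm pairs near the boundary. -/
noncomputable def LAY_NN (n : ℕ) (ρ : ℤ) (F : Set H974.Edg) : ℝ :=
  ∑ e ∈ (H974.RE 0 n 0 n).filter (fun e => bdist n (H974.src e) < ρ),
    (H974.ind (H342P.Two (H974.src e) (H974.dsrc e) (bdist n (H974.src e)) F) +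
      H974.ind (H342P.Two (H974.src e) (H974.dtgt e) (bdist n (H974.src e)) F))

theorem LAY_NN_nonneg (n : ℕ) (ρ : ℤ) (F : Set H974.Edg) : 0 ≤ LAY_NN n ρ F := by
  unfold LAY_NN
  apply Finset.sum_nonneg
  intro e _
  exact add_nonneg (H974.ind_nonneg _) (H974.ind_nonneg _)

theorem LAY_per_le {n : ℕ} {ρ m : ℤ} {F : Set H974.Edg} {v : ℤ × ℤ} (hm : IsMax n F v)
    (hb : Big n m F) (hρ : ρ ≤ m) : (perL n ρ F v : ℝ) ≤ LAY_NN n ρ F := by
  classical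
  obtain ⟨a, b, ha, hb', hmax⟩ := hm
  obtain ⟨c, d, hc, hd, hcd, h8⟩ := hb
  have h8' : 8 * m ^ 2 ≤ dsq a b := h8.trans (hmax c d hc hd hcd)
  have hfar : ∀ (u : H974.Vtx) (k : ℤ), k ≤ m → ∃ w, H974.Reach F v w ∧ FarF u k w := by
    intro u k hk
    by_contra hcon
    push Not at hcon
    have h1 := hcon a ha
    have h2 := hcon b hb'
    have h3 := dsq_lt h1 h2
    have h4 : 0 < k := by
      unfold FarF at h1
      rw [not_not] at h1
      unfold inF at h1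
      omega
    nlinarith
  unfold perL LAY_NN
  push_cast
  apply Finset.sum_le_sum
  intro e he
  have hlt : bdist n (H974.src e) < ρ := (Finset.mem_filter.1 he).2
  have hk : bdist n (H974.src e) ≤ (H974.src e).1 := by
    unfold bdist
    exact (min_le_left _ _).trans (min_le_left _ _)
  obtain ⟨w, hw1, hw2⟩ := hfar (H974.src e) (bdist n (H974.src e)) (by omega)
  split_ifs with h1 h2 h3 h3
  · rw [H974.ind_of (two_of_outer h1 (inc_dsrc e) h2 hk hw1 hw2),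
      H974.ind_of (two_of_outer h1 (inc_dtgt e) h3 hk hw1 hw2)]
  · rw [H974.ind_of (two_of_outer h1 (inc_dsrc e) h2 hk hw1 hw2)]
    linarith [H974.ind_nonneg (H342P.Two (H974.src e) (H974.dtgt e) (bdist n (H974.src e)) F)]
  · rw [H974.ind_of (two_of_outer h1 (inc_dtgt e) h3 hk hw1 hw2)]
    linarith [H974.ind_nonneg (H342P.Two (H974.src e) (H974.dsrc e) (bdist n (H974.src e)) F)]
  · linarith [H974.ind_nonneg (H342P.Two (H974.src e) (H974.dtgt e) (bdist n (H974.src e)) F),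
      H974.ind_nonneg (H342P.Two (H974.src e) (H974.dsrc e) (bdist n (H974.src e)) F)]
  · linarith [H974.ind_nonneg (H342P.Two (H974.src e) (H974.dtgt e) (bdist n (H974.src e)) F),
      H974.ind_nonneg (H342P.Two (H974.src e) (H974.dsrc e) (bdist n (H974.src e)) F)]

/-- the bound restricted to small radii -/
noncomputable def LAY_g (C s : ℝ) (ρ k : ℤ) : ℝ := if k < ρ then ph C s k else 0

theorem LAY_g_nonneg {C s : ℝ} (hC : 0 ≤ C) (ρ k : ℤ) : 0 ≤ LAY_g C s ρ k := by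
  unfold LAY_g
  split_ifs
  · exact ph_nonneg hC k
  · exact le_rfl

theorem LAY_ph_le {C s : ℝ} (hC : 0 ≤ C) (n : ℕ) {ρ : ℤ} {u : ℤ × ℤ} (h : bdist n u < ρ) :
    ph C s (bdist n u) ≤ LAY_g C s ρ u.1 + LAY_g C s ρ (n - u.1) +
      (LAY_g C s ρ u.2 + LAY_g C s ρ (n - u.2)) := by
  have h1 := LAY_g_nonneg (s := s) hC ρ u.1
  have h2 := LAY_g_nonneg (s := s) hC ρ (n - u.1)
  have h3 := LAY_g_nonneg (s := s) hC ρ u.2
  have h4 := LAY_g_nonneg (s := s) hC ρ (n - u.2)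
  have h5 : ph C s (bdist n u) = LAY_g C s ρ (bdist n u) := by
    unfold LAY_g
    rw [if_pos h]
  rw [h5]
  unfold bdist
  rcases min_choice (min u.1 ((n:ℤ) - u.1)) (min u.2 (n - u.2)) with h | h <;> rw [h]
  · rcases min_choice u.1 ((n:ℤ) - u.1) with h | h <;> rw [h] <;> linarith
  · rcases min_choice u.2 ((n:ℤ) - u.2) with h | h <;> rw [h] <;> linarith

theorem LAY_sum_g {C s : ℝ} (hC : 0 ≤ C) (hs0 : 0 ≤ s) (hs1 : s < 1) (n r : ℕ) :
    ∑ x ∈ Finset.Icc (0:ℤ) n, LAY_g C s r x ≤ 1 + C * ((r:ℝ) ^ (1 - s) / (1 - s)) := by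
  refine le_trans ?_ (sum_ph_le hC hs0 hs1 r)
  unfold LAY_g
  rw [← Finset.sum_filter]
  apply Finset.sum_le_sum_of_subset_of_nonneg
  · intro x hx
    rw [Finset.mem_filter, Finset.mem_Icc] at hx
    rw [Finset.mem_Icc]
    omega
  · intro x _ _
    exact ph_nonneg hC x

theorem LAY_ex {C s : ℝ} (hC : 0 ≤ C) (hU : TwoUp C s) (n : ℕ) (ρ : ℤ) :
    H974.Ex (fun _ => (1/2:ℝ)) (H974.RE 0 n 0 n) (fun F => LAY_NN n ρ (↑F)) ≤
      16 * (n + 1) * ∑ x ∈ Finset.Icc (0:ℤ) n, LAY_g C s ρ x := by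
  have h1 : H974.Ex (fun _ => (1/2:ℝ)) (H974.RE 0 n 0 n) (fun F => LAY_NN n ρ (↑F)) ≤
      ∑ e ∈ (H974.RE 0 n 0 n).filter (fun e => bdist n (H974.src e) < ρ),
        2 * (LAY_g C s ρ (H974.src e).1 + LAY_g C s ρ (n - (H974.src e).1) +
        (LAY_g C s ρ (H974.src e).2 + LAY_g C s ρ (n - (H974.src e).2))) := by
    unfold LAY_NN
    rw [H974.Ex_sum]
    apply Finset.sum_le_sum
    intro e he
    rw [H974.Ex_add]
    have h2 := pr_two_le hU (n := n) (inc_dsrc e) (le_refl (bdist n (H974.src e)))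
    have h3 := pr_two_le hU (n := n) (inc_dtgt e) (le_refl (bdist n (H974.src e)))
    have h4 := LAY_ph_le (s := s) hC n (Finset.mem_filter.1 he).2
    unfold H974.Pr at h2 h3
    linarith
  have hnn : ∀ u : ℤ × ℤ, 0 ≤ 2 * (LAY_g C s ρ u.1 + LAY_g C s ρ (n - u.1) +
      (LAY_g C s ρ u.2 + LAY_g C s ρ (n - u.2))) := by
    intro u
    have h1 := LAY_g_nonneg (s := s) hC ρ u.1
    have h2 := LAY_g_nonneg (s := s) hC ρ (n - u.1)
    have h3 := LAY_g_nonneg (s := s) hC ρ u.2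
    have h4 := LAY_g_nonneg (s := s) hC ρ (n - u.2)
    positivity
  have h0 := Finset.sum_le_sum_of_subset_of_nonneg
    (Finset.filter_subset (fun e => bdist n (H974.src e) < ρ) (H974.RE 0 (n:ℤ) 0 n))
    (f := fun e => 2 * (LAY_g C s ρ (H974.src e).1 + LAY_g C s ρ (n - (H974.src e).1) +
        (LAY_g C s ρ (H974.src e).2 + LAY_g C s ρ (n - (H974.src e).2))))
    (fun e _ _ => hnn (H974.src e))
  have h5 := sum_RE_le n (fun u => 2 * (LAY_g C s ρ u.1 + LAY_g C s ρ (n - u.1) +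
      (LAY_g C s ρ u.2 + LAY_g C s ρ (n - u.2)))) hnn
  refine h1.trans (h0.trans (h5.trans (le_of_eq ?_)))
  simp only
  have hc : (Finset.Icc (0:ℤ) n).card = n + 1 := by
    rw [Int.card_Icc]; omega
  simp_rw [← Finset.mul_sum, Finset.sum_add_distrib, Finset.sum_const, hc,
    sum_refl n (LAY_g C s ρ)]
  simp_rw [nsmul_eq_mul]
  have hr : ∑ x ∈ Finset.Icc (0:ℤ) n, ((n + 1 : ℕ) : ℝ) * LAY_g C s ρ (n - x) =
      ((n + 1 : ℕ) : ℝ) * ∑ x ∈ Finset.Icc (0:ℤ) n, LAY_g C s ρ x := by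
    rw [← Finset.mul_sum, sum_refl n (LAY_g C s ρ)]
  have hr2 : ∑ x ∈ Finset.Icc (0:ℤ) n, ((n + 1 : ℕ) : ℝ) * LAY_g C s ρ x =
      ((n + 1 : ℕ) : ℝ) * ∑ x ∈ Finset.Icc (0:ℤ) n, LAY_g C s ρ x := by
    rw [← Finset.mul_sum]
  simp only [hr, hr2]
  push_cast
  ring

theorem t_LAY : St_LAY := by
  intro C hC hU
  have hok : H974.Ok (fun _ : H974.Edg => (1/2:ℝ)) := fun _ => ⟨by norm_num, by norm_num⟩
  refine ⟨32 * (1 + 2 * C), by positivity, ?_⟩
  intro n ρ m hρ hρm hρn s hs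
  obtain ⟨r, rfl⟩ : ∃ r : ℕ, ρ = (r : ℤ) := ⟨ρ.toNat, by omega⟩
  have hr1 : (1:ℝ) ≤ r := by exact_mod_cast hρ
  have hn1 : (1:ℝ) ≤ n := by exact_mod_cast hρ.trans hρn
  have hcast : (((r : ℤ)) : ℝ) = (r : ℝ) := by push_cast; rfl
  rw [hcast]
  set X : ℝ := (r : ℝ) ^ (3/4 : ℝ) with hX
  have hX1 : 1 ≤ X := Real.one_le_rpow hr1 (by norm_num)
  have ht : 0 < s * ((n : ℝ) * X) := by positivity
  have h1 : H974.Pr (fun _ => (1/2:ℝ)) (H974.RE 0 n 0 n) (fun F => Big n m (↑F) ∧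
      ∃ v, IsMax n (↑F) v ∧ s * ((n : ℝ) * X) ≤ (perL n r (↑F) v : ℝ)) ≤
      H974.Pr (fun _ => (1/2:ℝ)) (H974.RE 0 n 0 n)
        (fun F => s * ((n : ℝ) * X) ≤ LAY_NN n r (↑F)) := by
    apply H974.Pr_mono hok
    rintro F _ ⟨hb, v, h2, h3⟩
    exact h3.trans (LAY_per_le h2 hb hρm)
  refine h1.trans ?_
  refine (markov (S := H974.RE 0 n 0 n) (X := fun F => LAY_NN n r (↑F))
    (fun F => LAY_NN_nonneg n r (↑F)) ht).trans ?_
  have h4 := LAY_ex hC.le hU n r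
  have h5 := LAY_sum_g hC.le (by norm_num : (0:ℝ) ≤ 1/4) (by norm_num) n r
  have h6 : (r:ℝ) ^ (1 - 1/4 : ℝ) = X := by
    rw [hX]; norm_num
  rw [h6] at h5
  have h7 : H974.Ex (fun _ => (1/2:ℝ)) (H974.RE 0 n 0 n) (fun F => LAY_NN n r (↑F)) ≤
      32 * (1 + 2 * C) * ((n : ℝ) * X) := by
    refine h4.trans ?_
    have h8 : 1 + C * (X / (1 - 1/4)) ≤ (1 + 2 * C) * X := by
      have h9 : C * (X / (1 - 1/4)) ≤ 2 * C * X := by
        have : 0 ≤ C * X := by positivity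
        have h10 : C * (X / (1 - 1/4)) = 4/3 * (C * X) := by ring
        rw [h10]; linarith
      linarith
    have h11 : 0 ≤ ∑ x ∈ Finset.Icc (0:ℤ) n, LAY_g C (1/4) r x :=
      Finset.sum_nonneg (fun x _ => LAY_g_nonneg hC.le _ _)
    calc 16 * ((n:ℝ) + 1) * ∑ x ∈ Finset.Icc (0:ℤ) n, LAY_g C (1/4) r x
        ≤ (32 * n) * ((1 + 2 * C) * X) := by
          apply mul_le_mul (by linarith) (h5.trans h8) h11 (by positivity)
      _ = 32 * (1 + 2 * C) * ((n : ℝ) * X) := by ring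
  rw [div_le_div_iff₀ ht hs]
  calc H974.Ex (fun _ => (1/2:ℝ)) (H974.RE 0 n 0 n) (fun F => LAY_NN n r (↑F)) * s
      ≤ 32 * (1 + 2 * C) * ((n : ℝ) * X) * s := mul_le_mul_of_nonneg_right h7 hs.le
    _ = 32 * (1 + 2 * C) * (s * ((n : ℝ) * X)) := by ring

end H342L
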