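import Pool.Agent.H342R3.Lim.Curve

/-!
The law of a function of the configuration.
-/

namespace H342L

open H342P H342P.Plain MeasureTheory TopologicalSpace Filter Topology
open scoped ENNReal NNReal

variable {X Y : Type*} [MeasurableSpace X] [MeasurableSpace Y]

/-- All sets of open edges of the box have the same probability; law of `f F`. -/
noncomputable def lawM (n : ℕ) (f : Finset Edge → X) : Measure X :=
  ∑ F ∈ (edges n).powerset, ENNReal.ofReal ((1/2) ^ (edges n).card) • Measure.dirac (f F)

theorem lawM_apply (n : ℕ) (f : Finset Edge → X) {G : Set X} (hG : MeasurableSet G) :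
    lawM n f G = ENNReal.ofReal (prob n (fun F => f F ∈ G)) := by
  classical
  unfold lawM
  rw [Measure.finsetSum_apply]
  unfold prob
  have h1 : ∀ F ∈ (edges n).powerset,
      (ENNReal.ofReal ((1/2) ^ (edges n).card) • Measure.dirac (f F)) G =
      ENNReal.ofReal ((1/2) ^ (edges n).card) * (if f F ∈ G then 1 else 0) := by
    intro F _
    rw [Measure.smul_apply, Measure.dirac_apply' _ hG, smul_eq_mul]
    by_cases h : f F ∈ G
    · rw [Set.indicator_of_mem h, if_pos h, Pi.one_apply]
    · rw [Set.indicator_of_notMem h, if_neg h]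
  rw [Finset.sum_congr rfl h1, ← Finset.mul_sum, Finset.sum_boole]
  have h2 : ∀ c : ℕ, ((c : ℝ) / 2 ^ (edges n).card) = (1/2) ^ (edges n).card * (c : ℝ) := by
    intro c
    rw [one_div, inv_pow]
    field_simp
  rw [h2, ENNReal.ofReal_mul (by positivity), ENNReal.ofReal_natCast]

theorem prob_true (n : ℕ) : prob n (fun _ => True) = 1 := by
  rw [prob_eq]
  exact H974.Pr_true _ (fun _ _ => trivial)

theorem lawM_univ (n : ℕ) (f : Finset Edge → X) : lawM n f Set.univ = 1 := by
  rw [lawM_apply n f MeasurableSet.univ]
  have : prob n (fun F => f F ∈ (Set.univ : Set X)) = 1 := by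
    have h : (fun F => f F ∈ (Set.univ : Set X)) = fun _ => True := by
      funext F; simp
    rw [h, prob_true]
  rw [this, ENNReal.ofReal_one]

/-- The law of `f F`. -/
noncomputable def lawOf (n : ℕ) (f : Finset Edge → X) : ProbabilityMeasure X :=
  ⟨lawM n f, ⟨lawM_univ n f⟩⟩

theorem lawOf_apply (n : ℕ) (f : Finset Edge → X) {G : Set X} (hG : MeasurableSet G) :
    (lawOf n f : Measure X) G = ENNReal.ofReal (prob n (fun F => f F ∈ G)) := lawM_apply n f hG

theorem lawM_map (n : ℕ) (f : Finset Edge → X) {g : X → Y} (hg : Measurable g) :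
    (lawM n f).map g = lawM n (fun F => g (f F)) := by
  ext G hG
  rw [Measure.map_apply hg hG, lawM_apply n f (hg hG), lawM_apply n _ hG]
  rfl

theorem lawOf_map (n : ℕ) (f : Finset Edge → X) {g : X → Y} (hg : Measurable g) :
    (lawOf n f).map hg.aemeasurable = lawOf n (fun F => g (f F)) := by
  apply Subtype.ext
  exact lawM_map n f hg

/-- The law only depends on the values at the sets of edges of the box. -/
theorem lawOf_congr (n : ℕ) {f g : Finset Edge → X} (h : ∀ F, F ⊆ edges n → f F = g F) :
    lawOf n f = lawOf n g := by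
  apply Subtype.ext
  change lawM n f = lawM n g
  unfold lawM
  refine Finset.sum_congr rfl fun F hF => ?_
  rw [h F (Finset.mem_powerset.mp hF)]

theorem prob_mono {n : ℕ} {A B : Finset Edge → Prop} (h : ∀ F, F ⊆ edges n → A F → B F) :
    prob n A ≤ prob n B := by
  rw [prob_eq n B]
  exact prob_le_of_pr h

end H342L
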