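import Pool.Agent.H342R3.Lim.Stubs

/-!
RICH: with probability close to one there are many boundary vertices with bounded energy.
-/

namespace H342L

open H342P H342P.Plain MeasureTheory TopologicalSpace Filter Topology
open scoped ENNReal NNReal

/-- The deterministic part. -/
theorem RICH_det {n : ℕ} {m : ℤ} {h : ℕ} {ρ : ℤ} (t : ℝ) {F : Finset Edge} {v : ℤ × ℤ}
    (hm : IsMax n (↑F) v) (hb : Big n m (↑F)) (hhm : (h : ℤ) ≤ m) (hhρ : (h : ℤ) ≤ ρ) :
    ∃ V : Finset (ℤ × ℤ), (∀ u ∈ V, OnB F v u) ∧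
      per n (↑F) v ≤ perL n ρ (↑F) v + 4 * V.card ∧
      ∑ u ∈ V, ∑ w ∈ V, ((md u w : ℤ) : ℝ) ^ (-t) ≤ EnT n ρ h t F := by
  classical
  obtain ⟨a, b, ha, hb', hmax⟩ := hm
  obtain ⟨c, d, hc, hd, hcd, h8⟩ := hb
  have h8' : 8 * m ^ 2 ≤ dsq a b := h8.trans (hmax c d hc hd hcd)
  have hfar : ∀ (u : H974.Vtx) (k : ℤ), k ≤ m → ∃ w, H974.Reach (↑F) v w ∧ FarF u k w := by
    intro u k hk
    by_contra hcon
    push Not at hcon
    have h1 := hcon a ha
    have h2 := hcon b hb'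
    have h3 := dsq_lt h1 h2
    have h4 : 0 < k := by
      unfold FarF at h1
      rw [not_not] at h1
      unfold inF at h1
      omega
    nlinarith
  set P : H974.Edg → Prop := fun e => e ∈ EC (↑F) v ∧
    (H342P.Outer (↑F) v (H974.dsrc e) ∨ H342P.Outer (↑F) v (H974.dtgt e)) with hP
  set W : Finset H974.Edg := ((H974.RE 0 n 0 n).filter
    (fun e => ¬ bdist n (H974.src e) < ρ)).filter P with hW
  have hWmem : ∀ e, e ∈ W → ρ ≤ bdist n (H974.src e) ∧ P e := by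
    intro e he
    rw [hW, Finset.mem_filter, Finset.mem_filter] at he
    exact ⟨not_lt.1 he.1.2, he.2⟩
  refine ⟨W.image H974.src, ?_, ?_, ?_⟩
  · intro u hu
    obtain ⟨e, he, rfl⟩ := Finset.mem_image.1 hu
    obtain ⟨-, h1, h2⟩ := hWmem e he
    refine ⟨e, ?_, rfl, ?_⟩
    · rw [clusterEdges_eq]; exact h1
    · rw [outer_iff, outer_iff, side₁_eq, side₂_eq]
      exact h2
  · unfold per perL
    rw [← Finset.sum_filter_add_sum_filter_not (H974.RE 0 n 0 n)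
      (fun e => bdist n (H974.src e) < ρ)]
    apply Nat.add_le_add_left
    have h1 : ∑ e ∈ (H974.RE 0 n 0 n).filter (fun e => ¬ bdist n (H974.src e) < ρ),
        (if e ∈ EC (↑F) v then ((if H342P.Outer (↑F) v (H974.dsrc e) then 1 else 0) +
          (if H342P.Outer (↑F) v (H974.dtgt e) then 1 else 0)) else 0) ≤ 2 * W.card := by
      rw [hW, Finset.card_filter, Finset.mul_sum]
      apply Finset.sum_le_sum
      intro e _
      by_cases g0 : e ∈ EC (↑F) v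
      · rw [if_pos g0]
        by_cases g1 : H342P.Outer (↑F) v (H974.dsrc e)
        · rw [if_pos g1, if_pos (show P e from ⟨g0, Or.inl g1⟩)]
          split_ifs <;> omega
        · rw [if_neg g1]
          by_cases g2 : H342P.Outer (↑F) v (H974.dtgt e)
          · rw [if_pos g2, if_pos (show P e from ⟨g0, Or.inr g2⟩)]
            omega
          · rw [if_neg g2]
            omega
      · rw [if_neg g0]
        exact Nat.zero_le _
    have h2 : W.card ≤ 2 * (W.image H974.src).card := by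
      apply Finset.card_le_mul_card_image
      intro u _
      have h3 : W.filter (fun e => H974.src e = u) ⊆ {(u.1, u.2, true), (u.1, u.2, false)} := by
        rintro ⟨x, y, s⟩ he
        rw [Finset.mem_filter] at he
        obtain ⟨-, he⟩ := he
        rw [H974.src_mk] at he
        rw [← he]
        cases s
        · simp
        · simp
      exact (Finset.card_le_card h3).trans Finset.card_le_two
    omega
  · have hsub : W.image H974.src ⊆ Bk n ρ := by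
      intro u hu
      obtain ⟨e, he, rfl⟩ := Finset.mem_image.1 hu
      have h1 := (hWmem e he).1
      unfold bdist at h1
      unfold Bk
      rw [Finset.mem_product, Finset.mem_Icc, Finset.mem_Icc]
      omega
    have htw : ∀ u ∈ W.image H974.src, Tw u h (↑F) := by
      intro u hu
      obtain ⟨e, he, rfl⟩ := Finset.mem_image.1 hu
      obtain ⟨h1, h2, h3⟩ := hWmem e he
      obtain ⟨w, hw1, hw2⟩ := hfar (H974.src e) h hhm
      have hk : (h : ℤ) ≤ (H974.src e).1 := by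
        unfold bdist at h1
        omega
      rcases h3 with h3 | h3
      · exact ⟨_, inc_dsrc e, two_of_outer h2 (inc_dsrc e) h3 hk hw1 hw2⟩
      · exact ⟨_, inc_dtgt e, two_of_outer h2 (inc_dtgt e) h3 hk hw1 hw2⟩
    have hnn : ∀ u w : ℤ × ℤ, (0 : ℝ) ≤ if Tw u h (↑F) ∧ Tw w h (↑F) then
        ((md u w : ℤ) : ℝ) ^ (-t) else 0 := by
      intro u w
      have hmd : (0 : ℤ) ≤ md u w := le_trans zero_le_one (le_max_right _ _)
      have hmd' : (0 : ℝ) ≤ ((md u w : ℤ) : ℝ) := by exact_mod_cast hmd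
      split_ifs
      · exact Real.rpow_nonneg hmd' _
      · exact le_rfl
    unfold EnT
    calc ∑ u ∈ W.image H974.src, ∑ w ∈ W.image H974.src, ((md u w : ℤ) : ℝ) ^ (-t)
        = ∑ u ∈ W.image H974.src, ∑ w ∈ W.image H974.src,
            (if Tw u h (↑F) ∧ Tw w h (↑F) then ((md u w : ℤ) : ℝ) ^ (-t) else 0) := by
          refine Finset.sum_congr rfl fun u hu => Finset.sum_congr rfl fun w hw => ?_
          rw [if_pos ⟨htw u hu, htw w hw⟩]
      _ ≤ ∑ u ∈ W.image H974.src, ∑ w ∈ Bk n ρ,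
            (if Tw u h (↑F) ∧ Tw w h (↑F) then ((md u w : ℤ) : ℝ) ^ (-t) else 0) :=
          Finset.sum_le_sum fun u _ =>
            Finset.sum_le_sum_of_subset_of_nonneg hsub fun w _ _ => hnn u w
      _ ≤ _ := Finset.sum_le_sum_of_subset_of_nonneg hsub fun u _ _ =>
            Finset.sum_nonneg fun w _ => hnn u w

theorem RICH_EnT_nonneg (n : ℕ) (ρ : ℤ) (h : ℕ) (t : ℝ) (F : Finset H974.Edg) :
    0 ≤ EnT n ρ h t F := by
  unfold EnT
  refine Finset.sum_nonneg fun u _ => Finset.sum_nonneg fun w _ => ?_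
  have hmd : (0 : ℤ) ≤ md u w := le_trans zero_le_one (le_max_right _ _)
  have hmd' : (0 : ℝ) ≤ ((md u w : ℤ) : ℝ) := by exact_mod_cast hmd
  split_ifs
  · exact Real.rpow_nonneg hmd' _
  · exact le_rfl

/-- choice of the width of the layer -/
theorem RICH_D {s lam : ℝ} (_hs : 0 < s) (hlam : 0 < lam) (K : ℕ) :
    ∃ D : ℕ, 0 < D ∧ K ≤ D ∧ s * (D : ℝ) ^ (-(3 / 4) : ℝ) ≤ lam / 2 := by
  have h1 : Tendsto (fun D : ℕ => (D : ℝ) ^ (-(3 / 4) : ℝ)) atTop (𝓝 0) :=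
    (tendsto_rpow_neg_atTop (by norm_num)).comp tendsto_natCast_atTop_atTop
  have h2 := h1.const_mul s
  rw [mul_zero] at h2
  obtain ⟨D, h3, h4, h5⟩ := ((h2.eventually (ge_mem_nhds (show 0 < lam / 2 by linarith))).and
    ((eventually_ge_atTop K).and (eventually_gt_atTop 0))).exists
  exact ⟨D, h5, h4, h3⟩

theorem t_RICH : St_EN → St_LAY → St_RICH := by
  intro hEN hLAY hA hLow hUp t ht0 ht1 δ hδ
  have hok : H974.Ok (fun _ : H974.Edg => (1/2:ℝ)) := fun _ => ⟨by norm_num, by norm_num⟩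
  obtain ⟨c, hc, hL⟩ := hLow
  obtain ⟨C, hC, hU⟩ := hUp
  have hδ4 : 0 < δ / 4 := by linarith
  obtain ⟨lam1, hlam1, n1, hlow⟩ := H984P.lower_sharp hc hC hL hU hδ4
  obtain ⟨A, hA0, hlay⟩ := hLAY C hC hU
  -- the number of blocks for the diameter
  obtain ⟨K1', hK1'⟩ := exists_pow_lt_of_lt_one hδ4 (show (1/2:ℝ) < 1 by norm_num)
  obtain ⟨K1, hK1⟩ : ∃ K1, K1 = K1' + 1 := ⟨_, rfl⟩
  have hK1pos : 0 < K1 := by omega
  have hK1d : (1/2:ℝ) ^ K1 ≤ δ / 4 := by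
    rw [hK1, pow_succ]
    have : (0:ℝ) ≤ (1/2) ^ K1' := by positivity
    linarith
  obtain ⟨s, hs⟩ : ∃ s : ℝ, s = 4 * A / δ := ⟨_, rfl⟩
  have hs0 : 0 < s := by rw [hs]; positivity
  obtain ⟨D, hDpos, hDK, hD⟩ := RICH_D hs0 hlam1 (12 * K1)
  have hDR : (0:ℝ) < D := by exact_mod_cast hDpos
  obtain ⟨E1, hE1, hen⟩ := hEN hA t ht0 ht1 (2 * D)
  obtain ⟨E, hE⟩ : ∃ E : ℝ, E = 4 * E1 / δ := ⟨_, rfl⟩
  have hE0 : 0 < E := by rw [hE]; positivity
  refine ⟨lam1 / 8, E, max n1 (16 * K1 + 2 * D), by linarith, hE0, fun n hn => ?_⟩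
  have hn1 : n1 ≤ n := (le_max_left _ _).trans hn
  have hn2 : 16 * K1 + 2 * D ≤ n := (le_max_right _ _).trans hn
  have hnposN : 0 < n := by omega
  have hnpos : (0:ℝ) < n := by exact_mod_cast hnposN
  -- diameter
  obtain ⟨L, hL'⟩ : ∃ L : ℕ, L = n / (2 * K1) := ⟨_, rfl⟩
  obtain ⟨m, hm⟩ : ∃ m : ℕ, m = L / 3 := ⟨_, rfl⟩
  have hLn : 2 * K1 * L ≤ n := by rw [hL']; exact Nat.mul_div_le n (2 * K1)
  have hLn2 : n < 2 * K1 * (L + 1) := by rw [hL']; exact Nat.lt_mul_div_succ n (by omega)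
  have hm1 : 3 * m ≤ L := by rw [hm]; exact Nat.mul_div_le L 3
  have hm2 : L < 3 * (m + 1) := by rw [hm]; exact Nat.lt_mul_div_succ L (by omega)
  have hn16 : 16 * K1 ≤ n := by omega
  have hL8 : 8 ≤ L := by
    rw [hL', Nat.le_div_iff_mul_le (by omega)]
    omega
  have hKL : K1 * (L + 1) ≤ n + 1 := by nlinarith
  have hLnn : L ≤ n := by nlinarith
  have hnm : n ≤ 12 * K1 * m := by
    have : 2 * K1 * (L + 1) ≤ 2 * K1 * (3 * (m + 1)) := by gcongr; omega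
    nlinarith
  have p1 := (pr_not_big (n := n) (L := L) (K := K1) (by omega) (m := (m:ℤ)) (by omega)
    (by exact_mod_cast hm1) hKL hLnn).trans hK1d
  -- layer
  obtain ⟨h, hh⟩ : ∃ h : ℕ, h = n / D := ⟨_, rfl⟩
  have hh1 : 1 ≤ h := by
    rw [hh, Nat.le_div_iff_mul_le hDpos]
    omega
  have hhn : D * h ≤ n := by rw [hh]; exact Nat.mul_div_le n D
  have hhn2 : n < D * (h + 1) := by rw [hh]; exact Nat.lt_mul_div_succ n hDpos
  have hhm : h ≤ m := by
    have h1 : 12 * K1 * h ≤ 12 * K1 * m := by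
      calc 12 * K1 * h ≤ D * h := Nat.mul_le_mul_right _ hDK
        _ ≤ n := hhn
        _ ≤ _ := hnm
    exact Nat.le_of_mul_le_mul_left h1 (by omega)
  have hhle : h ≤ n := by nlinarith
  have hB : n ≤ 2 * D * h := by nlinarith
  have p2 := hlay n (h:ℤ) (m:ℤ) (by exact_mod_cast hh1) (by exact_mod_cast hhm)
    (by exact_mod_cast hhle) s hs0
  have hAs : A / s = δ / 4 := by
    rw [hs]
    field_simp
  rw [hAs] at p2
  -- energy
  have hX : 0 < E * (n : ℝ) ^ (7/2 - t) := by positivity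
  have p3 := markov (S := H974.RE 0 n 0 n) (X := fun F => EnT n (h:ℤ) h t F)
    (fun F => RICH_EnT_nonneg n (h:ℤ) h t F) hX
  have p3' : H974.Ex (fun _ => (1/2:ℝ)) (H974.RE 0 n 0 n) (fun F => EnT n (h:ℤ) h t F) /
      (E * (n : ℝ) ^ (7/2 - t)) ≤ δ / 4 := by
    rw [div_le_iff₀ hX]
    refine (hen n h hh1 hB (h:ℤ) le_rfl).trans (le_of_eq ?_)
    rw [hE]
    field_simp
  have p3 := p3.trans p3'
  have p4 := hlow n hn1
  -- estimate of the layer
  have hlayer : s * ((n : ℝ) * ((h:ℤ) : ℝ) ^ (3/4 : ℝ)) ≤ lam1 / 2 * (n : ℝ) ^ (7/4 : ℝ) := by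
    have h1 : ((h:ℤ) : ℝ) ≤ (n : ℝ) / D := by
      rw [le_div_iff₀ hDR]
      have : ((D * h : ℕ) : ℝ) ≤ n := by exact_mod_cast hhn
      push_cast at this ⊢
      linarith
    have h2 : ((h:ℤ) : ℝ) ^ (3/4 : ℝ) ≤ ((n : ℝ) / D) ^ (3/4 : ℝ) :=
      Real.rpow_le_rpow (by positivity) h1 (by norm_num)
    have h3 : ((n : ℝ) / D) ^ (3/4 : ℝ) = (n : ℝ) ^ (3/4 : ℝ) * (D : ℝ) ^ (-(3/4) : ℝ) := by
      rw [Real.div_rpow hnpos.le hDR.le, Real.rpow_neg hDR.le, div_eq_mul_inv]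
    have h4 : (n : ℝ) * (n : ℝ) ^ (3/4 : ℝ) = (n : ℝ) ^ (7/4 : ℝ) := by
      rw [show (7/4 : ℝ) = 1 + 3/4 by norm_num, Real.rpow_add hnpos, Real.rpow_one]
    calc s * ((n : ℝ) * ((h:ℤ) : ℝ) ^ (3/4 : ℝ))
        ≤ s * ((n : ℝ) * ((n : ℝ) ^ (3/4 : ℝ) * (D : ℝ) ^ (-(3/4) : ℝ))) := by
          rw [← h3]
          gcongr
      _ = (s * (D : ℝ) ^ (-(3/4) : ℝ)) * ((n : ℝ) * (n : ℝ) ^ (3/4 : ℝ)) := by ring
      _ = (s * (D : ℝ) ^ (-(3/4) : ℝ)) * (n : ℝ) ^ (7/4 : ℝ) := by rw [h4]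
      _ ≤ _ := mul_le_mul_of_nonneg_right hD (by positivity)
  -- union bound
  have hsum : δ = δ / 4 + δ / 4 + δ / 4 + δ / 4 := by ring
  rw [hsum]
  refine le_trans ?_ (add_le_add (add_le_add (add_le_add p1 p2) p3) p4)
  refine le_trans ?_ (add_le_add_left (add_le_add_left (H974.Pr_or_le hok _ _ _) _) _)
  refine le_trans ?_ (add_le_add_left (H974.Pr_or_le hok _ _ _) _)
  refine le_trans ?_ (H974.Pr_or_le hok _ _ _)
  apply prob_le_of_pr
  rintro F hF ⟨v, hv, hnr⟩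
  by_contra hcon
  rw [not_or, not_or, not_or, not_not] at hcon
  obtain ⟨⟨⟨hbig, hlay'⟩, hen'⟩, hlow'⟩ := hcon
  have hmx := isMax_of_largest hv
  apply hnr
  obtain ⟨V, hV1, hV2, hV3⟩ := RICH_det t hmx hbig (h := h) (ρ := (h:ℤ))
    (by exact_mod_cast hhm) le_rfl
  refine ⟨V, hV1, ?_, hV3.trans (not_le.1 hen').le⟩
  have g1 : (perL n (h:ℤ) (↑F) v : ℝ) < s * ((n : ℝ) * ((h:ℤ) : ℝ) ^ (3/4 : ℝ)) := by
    by_contra hcon
    exact hlay' ⟨hbig, v, hmx, not_lt.1 hcon⟩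
  have g2 : lam1 * (n:ℝ) ^ (7/4 : ℝ) ≤ (per n (↑F) v : ℝ) := by
    by_contra hcon
    exact hlow' ⟨v, hmx, not_le.1 hcon⟩
  have g3 : (per n (↑F) v : ℝ) ≤ (perL n (h:ℤ) (↑F) v : ℝ) + 4 * (V.card : ℝ) := by
    exact_mod_cast hV2
  linarith

end H342L
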