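import Pool.Agent.H342R3.Lim.Defs
import Pool.Agent.H342R3.Lim.Stubs

/-! Task SQ (helper311): the boundary of the unit square has dimension at most one. -/

namespace H342L

open H342P H342P.Plain MeasureTheory TopologicalSpace Filter Topology
open scoped ENNReal NNReal

theorem SQ_line (a b : ℂ) : dimH (Set.range fun t : ℝ => a + (t : ℂ) * b) ≤ 1 := by
  have h1 : LipschitzWith ‖b‖₊ (fun t : ℝ => a + (t : ℂ) * b) := by
    apply LipschitzWith.of_dist_le_mul
    intro x y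
    rw [dist_add_left, dist_eq_norm, ← sub_mul, norm_mul, mul_comm, ← Complex.ofReal_sub,
      Complex.norm_real, Real.dist_eq, coe_nnnorm, Real.norm_eq_abs]
  have h2 := h1.dimH_range_le
  have h3 : dimH (Set.univ : Set ℝ) = 1 := by
    have := Real.dimH_univ
    simpa using this
  exact h2.trans h3.le

theorem t_SQ : St_SQ := by
  unfold St_SQ
  have hsub : {z : ℂ | ((0 ≤ z.re ∧ z.re ≤ 1) ∧ (0 ≤ z.im ∧ z.im ≤ 1)) ∧
      ¬ ((0 < z.re ∧ z.re < 1) ∧ (0 < z.im ∧ z.im < 1))} ⊆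
      ((Set.range fun t : ℝ => (0 : ℂ) + (t : ℂ) * 1) ∪
        (Set.range fun t : ℝ => Complex.I + (t : ℂ) * 1)) ∪
      ((Set.range fun t : ℝ => (0 : ℂ) + (t : ℂ) * Complex.I) ∪
        (Set.range fun t : ℝ => (1 : ℂ) + (t : ℂ) * Complex.I)) := by
    rintro z ⟨⟨⟨h1, h2⟩, h3, h4⟩, h5⟩
    by_cases a1 : z.re = 0
    · right; left; exact ⟨z.im, by apply Complex.ext <;> simp [a1]⟩
    by_cases a2 : z.re = 1
    · right; right; exact ⟨z.im, by apply Complex.ext <;> simp [a2]⟩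
    by_cases a3 : z.im = 0
    · left; left; exact ⟨z.re, by apply Complex.ext <;> simp [a3]⟩
    by_cases a4 : z.im = 1
    · left; right; exact ⟨z.re, by apply Complex.ext <;> simp [a4]⟩
    exfalso
    apply h5
    refine ⟨⟨lt_of_le_of_ne h1 (Ne.symm a1), lt_of_le_of_ne h2 a2⟩,
      lt_of_le_of_ne h3 (Ne.symm a3), lt_of_le_of_ne h4 a4⟩
  refine (dimH_mono hsub).trans ?_
  rw [dimH_union, dimH_union, dimH_union]
  have h74 : (1 : ℝ≥0∞) ≤ 7 / 4 := by
    rw [ENNReal.le_div_iff_mul_le (by left; norm_num) (by left; norm_num)]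
    norm_num
  refine le_trans ?_ h74
  exact max_le (max_le (SQ_line _ _) (SQ_line _ _)) (max_le (SQ_line _ _) (SQ_line _ _))

end H342L
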