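import Pool.Agent.H342R3.Lim.Defs
import Pool.Agent.H342R3.Lim.Stubs

/-! Task TOPA (helper311): edges of the cluster with an outer side lie in the outer boundary. -/

namespace H342L

open H342P H342P.Plain MeasureTheory TopologicalSpace Filter Topology

/-- open unit square (scaled) -/
def TOPA_Q (n : ℕ) (f : ℤ × ℤ) : Set ℂ :=
  {z | ((f.1 : ℝ) < n * z.re ∧ n * z.re < f.1 + 1) ∧ ((f.2 : ℝ) < n * z.im ∧ n * z.im < f.2 + 1)}

/-- open rectangle (scaled) -/
def TOPA_R (n : ℕ) (a b c d : ℝ) : Set ℂ :=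
  {z | (a < n * z.re ∧ n * z.re < b) ∧ (c < n * z.im ∧ n * z.im < d)}

theorem TOPA_R_convex (n : ℕ) (a b c d : ℝ) : Convex ℝ (TOPA_R n a b c d) := by
  have h1 : IsLinearMap ℝ (fun z : ℂ => (n : ℝ) * z.re) :=
    ⟨fun x y => by simp; ring, fun c x => by simp; ring⟩
  have h2 : IsLinearMap ℝ (fun z : ℂ => (n : ℝ) * z.im) :=
    ⟨fun x y => by simp; ring, fun c x => by simp; ring⟩
  have := ((convex_halfSpace_gt h1 a).inter (convex_halfSpace_lt h1 b)).inter
    ((convex_halfSpace_gt h2 c).inter (convex_halfSpace_lt h2 d))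
  exact this

theorem TOPA_H_convex (n : ℕ) : Convex ℝ {z : ℂ | (n : ℝ) * z.re < 0} := by
  have h1 : IsLinearMap ℝ (fun z : ℂ => (n : ℝ) * z.re) :=
    ⟨fun x y => by simp; ring, fun c x => by simp; ring⟩
  exact convex_halfSpace_lt h1 0

theorem TOPA_pt {n : ℕ} (hn : 0 < n) (w : ℤ × ℤ) :
    (n : ℝ) * (pt n w).re = w.1 ∧ (n : ℝ) * (pt n w).im = w.2 := by
  have : (n : ℝ) ≠ 0 := by positivity
  constructor
  · simp only [pt]; field_simp
  · simp only [pt]; field_simp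

theorem TOPA_seg {n : ℕ} (hn : 0 < n) (e : Edge) {z : ℂ} (hz : z ∈ seg n e) :
    (e.2.2 = true ∧ (n : ℝ) * z.im = e.2.1 ∧ (e.1 : ℝ) ≤ n * z.re ∧ n * z.re ≤ e.1 + 1) ∨
    (e.2.2 = false ∧ (n : ℝ) * z.re = e.1 ∧ (e.2.1 : ℝ) ≤ n * z.im ∧ n * z.im ≤ e.2.1 + 1) := by
  obtain ⟨x, y, t⟩ := e
  unfold seg at hz
  rw [segment_eq_image] at hz
  obtain ⟨θ, ⟨h0, h1⟩, rfl⟩ := hz
  obtain ⟨p1, p2⟩ := TOPA_pt hn (fst (x, y, t))
  obtain ⟨q1, q2⟩ := TOPA_pt hn (snd (x, y, t))
  have hre : (n : ℝ) * (((1 - θ) • pt n (fst (x, y, t)) + θ • pt n (snd (x, y, t)) : ℂ)).re =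
      (1 - θ) * ((fst (x, y, t)).1 : ℝ) + θ * ((snd (x, y, t)).1 : ℝ) := by
    rw [← p1, ← q1]; simp only [Complex.add_re, Complex.real_smul, Complex.mul_re,
      Complex.ofReal_re, Complex.ofReal_im]; ring
  have him : (n : ℝ) * (((1 - θ) • pt n (fst (x, y, t)) + θ • pt n (snd (x, y, t)) : ℂ)).im =
      (1 - θ) * ((fst (x, y, t)).2 : ℝ) + θ * ((snd (x, y, t)).2 : ℝ) := by
    rw [← p2, ← q2]; simp only [Complex.add_im, Complex.real_smul, Complex.mul_im,
      Complex.ofReal_re, Complex.ofReal_im]; ring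
  rw [hre, him]
  cases t
  · right
    simp only [fst, snd, Bool.false_eq_true, if_false, true_and]
    push_cast
    refine ⟨by ring, by nlinarith, by nlinarith⟩
  · left
    simp only [fst, snd, if_true, true_and]
    push_cast
    refine ⟨by ring, by nlinarith, by nlinarith⟩

/-- points of the body are on the grid lines of the cluster -/
theorem TOPA_body {n : ℕ} (hn : 0 < n) {F : Finset Edge} {v : ℤ × ℤ} {z : ℂ}
    (hz : z ∈ body n F v) :
    (∃ w ∈ cluster F v, (n : ℝ) * z.re = w.1 ∧ (n : ℝ) * z.im = w.2) ∨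
    (∃ e ∈ clusterEdges F v,
      (e.2.2 = true ∧ (n : ℝ) * z.im = e.2.1 ∧ (e.1 : ℝ) ≤ n * z.re ∧ n * z.re ≤ e.1 + 1) ∨
      (e.2.2 = false ∧ (n : ℝ) * z.re = e.1 ∧ (e.2.1 : ℝ) ≤ n * z.im ∧ n * z.im ≤ e.2.1 + 1)) := by
  unfold body at hz
  rcases hz with hz | hz
  · left
    simp only [Set.mem_iUnion, Set.mem_singleton_iff, exists_prop] at hz
    obtain ⟨w, hw, rfl⟩ := hz
    exact ⟨w, hw, TOPA_pt hn w⟩
  · right
    simp only [Set.mem_iUnion, exists_prop] at hz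
    obtain ⟨e, he, h⟩ := hz
    exact ⟨e, he, TOPA_seg hn e h⟩

theorem TOPA_int {a b : ℤ} {r : ℝ} (h : r = b) (h1 : (a : ℝ) < r) (h2 : r < a + 1) : False := by
  subst h
  have h3 : a < b := by exact_mod_cast h1
  have h4 : b < a + 1 := by exact_mod_cast h2
  omega

theorem TOPA_Q_body {n : ℕ} (hn : 0 < n) {F : Finset Edge} {v : ℤ × ℤ} (f : ℤ × ℤ) :
    TOPA_Q n f ⊆ (body n F v)ᶜ := by
  rintro z ⟨⟨h1, h2⟩, h3, h4⟩ hz
  rcases TOPA_body hn hz with ⟨w, -, hw, -⟩ | ⟨e, -, ⟨-, h, -⟩ | ⟨-, h, -⟩⟩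
  · exact TOPA_int hw h1 h2
  · exact TOPA_int h h3 h4
  · exact TOPA_int h h1 h2

/-- the domino of an edge -/
def TOPA_D (n : ℕ) (e : Edge) : Set ℂ :=
  if e.2.2 = true then TOPA_R n e.1 (e.1 + 1) (e.2.1 - 1) (e.2.1 + 1)
  else TOPA_R n (e.1 - 1) (e.1 + 1) e.2.1 (e.2.1 + 1)

theorem TOPA_D_convex (n : ℕ) (e : Edge) : Convex ℝ (TOPA_D n e) := by
  unfold TOPA_D
  split_ifs <;> exact TOPA_R_convex _ _ _ _ _

theorem TOPA_D_side1 (n : ℕ) (e : Edge) : TOPA_Q n (side₁ e) ⊆ TOPA_D n e := by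
  obtain ⟨x, y, t⟩ := e
  rintro z ⟨⟨h1, h2⟩, h3, h4⟩
  cases t
  · simp only [side₁, Bool.false_eq_true, if_false] at h1 h2 h3 h4
    push_cast at h1 h2
    simp only [TOPA_D, Bool.false_eq_true, if_false]
    exact ⟨⟨h1, by linarith⟩, h3, h4⟩
  · simp only [side₁, if_true] at h1 h2 h3 h4
    push_cast at h3 h4
    simp only [TOPA_D, if_true]
    exact ⟨⟨h1, h2⟩, h3, by linarith⟩

theorem TOPA_D_side2 (n : ℕ) (e : Edge) : TOPA_Q n (side₂ e) ⊆ TOPA_D n e := by
  obtain ⟨x, y, t⟩ := e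
  rintro z ⟨⟨h1, h2⟩, h3, h4⟩
  simp only [side₂] at h1 h2 h3 h4
  cases t
  · simp only [TOPA_D, Bool.false_eq_true, if_false]
    exact ⟨⟨by linarith, h2⟩, h3, h4⟩
  · simp only [TOPA_D, if_true]
    exact ⟨⟨h1, h2⟩, by linarith, h4⟩

theorem TOPA_D_body {n : ℕ} (hn : 0 < n) {F : Finset Edge} {v : ℤ × ℤ} {e : Edge}
    (he : e ∉ clusterEdges F v) : TOPA_D n e ⊆ (body n F v)ᶜ := by
  obtain ⟨x, y, t⟩ := e
  intro z hz hb
  cases t
  · simp only [TOPA_D, Bool.false_eq_true, if_false] at hz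
    obtain ⟨⟨h1, h2⟩, h3, h4⟩ := hz
    rcases TOPA_body hn hb with ⟨w, -, -, hw⟩ | ⟨e, he', ⟨-, h, -⟩ | ⟨ht, h, h5, h6⟩⟩
    · exact TOPA_int hw h3 h4
    · exact TOPA_int h h3 h4
    · apply he
      have e1 : e.1 = x := by
        rw [h] at h1 h2
        have h1' : x - 1 < e.1 := by exact_mod_cast h1
        have h2' : e.1 < x + 1 := by exact_mod_cast h2
        omega
      have e2 : e.2.1 = y := by
        have h3' : (e.2.1 : ℝ) < y + 1 := lt_of_le_of_lt h5 h4
        have h4' : (y : ℝ) < e.2.1 + 1 := lt_of_lt_of_le h3 h6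
        have h3'' : e.2.1 < y + 1 := by exact_mod_cast h3'
        have h4'' : y < e.2.1 + 1 := by exact_mod_cast h4'
        omega
      have : e = (x, y, false) := by
        rw [← e1, ← e2, ← ht]
      rwa [← this]
  · simp only [TOPA_D, if_true] at hz
    obtain ⟨⟨h1, h2⟩, h3, h4⟩ := hz
    rcases TOPA_body hn hb with ⟨w, -, hw, -⟩ | ⟨e, he', ⟨ht, h, h5, h6⟩ | ⟨-, h, -⟩⟩
    · exact TOPA_int hw h1 h2
    · apply he
      have e1 : e.2.1 = y := by
        rw [h] at h3 h4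
        have h1' : y - 1 < e.2.1 := by exact_mod_cast h3
        have h2' : e.2.1 < y + 1 := by exact_mod_cast h4
        omega
      have e2 : e.1 = x := by
        have h3' : (e.1 : ℝ) < x + 1 := lt_of_le_of_lt h5 h2
        have h4' : (x : ℝ) < e.1 + 1 := lt_of_lt_of_le h1 h6
        have h3'' : e.1 < x + 1 := by exact_mod_cast h3'
        have h4'' : x < e.1 + 1 := by exact_mod_cast h4'
        omega
      have : e = (x, y, true) := by
        rw [← e1, ← e2, ← ht]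
      rwa [← this]
    · exact TOPA_int h h1 h2

/-- the midpoint of a square -/
theorem TOPA_Q_nonempty {n : ℕ} (hn : 0 < n) (f : ℤ × ℤ) :
    (⟨((f.1 : ℝ) + 1 / 2) / n, ((f.2 : ℝ) + 1 / 2) / n⟩ : ℂ) ∈ TOPA_Q n f := by
  have h : (n : ℝ) ≠ 0 := by positivity
  have h1 : (n : ℝ) * (((f.1 : ℝ) + 1 / 2) / n) = (f.1 : ℝ) + 1 / 2 := by field_simp
  have h2 : (n : ℝ) * (((f.2 : ℝ) + 1 / 2) / n) = (f.2 : ℝ) + 1 / 2 := by field_simp
  unfold TOPA_Q
  simp only [Set.mem_ofPred_eq, h1, h2]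
  refine ⟨⟨by linarith, by linarith⟩, by linarith, by linarith⟩

/-- the closed square is in the closure of the open square -/
theorem TOPA_closure {n : ℕ} (hn : 0 < n) (f : ℤ × ℤ) {z : ℂ}
    (h1 : (f.1 : ℝ) ≤ n * z.re) (h2 : n * z.re ≤ f.1 + 1)
    (h3 : (f.2 : ℝ) ≤ n * z.im) (h4 : n * z.im ≤ f.2 + 1) : z ∈ closure (TOPA_Q n f) := by
  set c : ℂ := ⟨((f.1 : ℝ) + 1 / 2) / n, ((f.2 : ℝ) + 1 / 2) / n⟩ with hc
  have h : (n : ℝ) ≠ 0 := by positivity
  have c1 : (n : ℝ) * c.re = (f.1 : ℝ) + 1 / 2 := by simp only [hc]; field_simp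
  have c2 : (n : ℝ) * c.im = (f.2 : ℝ) + 1 / 2 := by simp only [hc]; field_simp
  have ht : Tendsto (fun k : ℕ => z + ((1 / ((k : ℝ) + 1) : ℝ) : ℂ) * (c - z)) atTop (𝓝 z) := by
    have h5 : Tendsto (fun k : ℕ => ((1 / ((k : ℝ) + 1) : ℝ) : ℂ)) atTop (𝓝 ((0 : ℝ) : ℂ)) :=
      (Complex.continuous_ofReal.tendsto 0).comp tendsto_one_div_add_atTop_nhds_zero_nat
    have h6 := (h5.mul_const (c - z)).const_add z
    simpa using h6
  refine mem_closure_of_tendsto ht (Filter.Eventually.of_forall fun k => ?_)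
  have hk : 0 < 1 / ((k : ℝ) + 1) := by positivity
  have hk1 : 1 / ((k : ℝ) + 1) ≤ 1 := by
    rw [div_le_one (by positivity)]; linarith [(Nat.cast_nonneg k : (0 : ℝ) ≤ k)]
  set s : ℝ := 1 / ((k : ℝ) + 1) with hs
  have e1 : (n : ℝ) * (z + (s : ℂ) * (c - z)).re = (1 - s) * (n * z.re) + s * (f.1 + 1 / 2) := by
    rw [← c1]
    simp only [Complex.add_re, Complex.mul_re, Complex.ofReal_re, Complex.ofReal_im,
      Complex.sub_re, Complex.sub_im]
    ring
  have e2 : (n : ℝ) * (z + (s : ℂ) * (c - z)).im = (1 - s) * (n * z.im) + s * (f.2 + 1 / 2) := by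
    rw [← c2]
    simp only [Complex.add_im, Complex.mul_im, Complex.ofReal_re, Complex.ofReal_im,
      Complex.sub_re, Complex.sub_im]
    ring
  have hs1 : 0 ≤ 1 - s := by linarith
  unfold TOPA_Q
  simp only [Set.mem_ofPred_eq, e1, e2]
  have a1 := mul_le_mul_of_nonneg_left h1 hs1
  have a2 := mul_le_mul_of_nonneg_left h2 hs1
  have a3 := mul_le_mul_of_nonneg_left h3 hs1
  have a4 := mul_le_mul_of_nonneg_left h4 hs1
  refine ⟨⟨by nlinarith, by nlinarith⟩, by nlinarith, by nlinarith⟩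

/-- the vertices of a cluster which has an edge are in the box -/
theorem TOPA_box {n : ℕ} {F : Finset Edge} (hF : F ⊆ edges n) {v : ℤ × ℤ} {e : Edge}
    (he : e ∈ clusterEdges F v) {w : ℤ × ℤ} (hw : w ∈ cluster F v) : w ∈ box n := by
  obtain ⟨he1, he2⟩ := he
  have h1 : (openGraph F).Reachable (fst e) w := (SimpleGraph.Reachable.symm he2).trans hw
  rw [reachable_iff (openGraph_adj F)] at h1
  have h0 : fst e ∈ box n := by
    have := hF he1
    unfold edges at this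
    rw [Finset.mem_filter] at this
    exact this.2.1
  induction h1 with
  | refl => exact h0
  | tail _ hbc _ =>
    obtain ⟨g, hg, ⟨-, h⟩ | ⟨h, -⟩⟩ := hbc
    · have := hF (Finset.mem_coe.1 hg)
      unfold edges at this
      rw [Finset.mem_filter] at this
      rw [← h, ← snd_eq]; exact this.2.2
    · have := hF (Finset.mem_coe.1 hg)
      unfold edges at this
      rw [Finset.mem_filter] at this
      rw [← h, ← fst_eq]; exact this.2.1

theorem TOPA_H_body {n : ℕ} (hn : 0 < n) {F : Finset Edge} (hF : F ⊆ edges n) {v : ℤ × ℤ}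
    {e : Edge} (he : e ∈ clusterEdges F v) : {z : ℂ | (n : ℝ) * z.re < 0} ⊆ (body n F v)ᶜ := by
  intro z hz hb
  rw [Set.mem_ofPred_eq] at hz
  rcases TOPA_body hn hb with ⟨w, hw, h, -⟩ | ⟨g, hg, h⟩
  · have h1 := TOPA_box hF he hw
    unfold box at h1
    rw [Finset.mem_product, Finset.mem_Icc] at h1
    rw [h] at hz
    have : w.1 < 0 := by exact_mod_cast hz
    omega
  · have h1 := TOPA_box hF he hg.2
    unfold box at h1
    rw [Finset.mem_product, Finset.mem_Icc] at h1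
    have h2 : (0 : ℤ) ≤ g.1 := h1.1.1
    have h3 : (0 : ℝ) ≤ g.1 := by exact_mod_cast h2
    rcases h with ⟨-, -, h, -⟩ | ⟨-, h, -⟩ <;> linarith

theorem TOPA_path {n : ℕ} (hn : 0 < n) {F : Finset Edge} (hF : F ⊆ edges n) {v : ℤ × ℤ}
    {e : Edge} (he : e ∈ clusterEdges F v) {f : ℤ × ℤ} (hf : Plain.Outer F v f) :
    ∃ T : Set ℂ, IsPreconnected T ∧ T ⊆ (body n F v)ᶜ ∧ TOPA_Q n f ⊆ T ∧
      {z : ℂ | (n : ℝ) * z.re < 0} ⊆ T := by
  unfold Plain.Outer at hf
  rw [reachable_iff (faceGraph_adj _)] at hf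
  induction hf using Relation.ReflTransGen.head_induction_on with
  | refl =>
    refine ⟨_, (TOPA_H_convex n).isPreconnected, TOPA_H_body hn hF he, ?_, subset_rfl⟩
    rintro z ⟨⟨-, h2⟩, -⟩
    simpa using h2
  | @head a c hab _ ih =>
    obtain ⟨T, h1, h2, h3, h4⟩ := ih
    obtain ⟨g, hg, hgs⟩ := hab
    have hg' : g ∉ clusterEdges F v := hg
    have key : TOPA_Q n a ⊆ TOPA_D n g ∧ TOPA_Q n c ⊆ TOPA_D n g := by
      rw [← side₁_eq, ← side₂_eq] at hgs
      rcases hgs with ⟨ha, hb⟩ | ⟨ha, hb⟩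
      · rw [← ha, ← hb]; exact ⟨TOPA_D_side1 n g, TOPA_D_side2 n g⟩
      · rw [← ha, ← hb]; exact ⟨TOPA_D_side2 n g, TOPA_D_side1 n g⟩
    refine ⟨TOPA_D n g ∪ T, ?_, Set.union_subset (TOPA_D_body hn hg') h2,
      key.1.trans Set.subset_union_left, h4.trans Set.subset_union_right⟩
    exact IsPreconnected.union _ (key.2 (TOPA_Q_nonempty hn c)) (h3 (TOPA_Q_nonempty hn c))
      (TOPA_D_convex n g).isPreconnected h1

theorem TOPA_outside {n : ℕ} (hn : 0 < n) {F : Finset Edge} (hF : F ⊆ edges n) {v : ℤ × ℤ}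
    {e : Edge} (he : e ∈ clusterEdges F v) {f : ℤ × ℤ} (hf : Plain.Outer F v f) :
    TOPA_Q n f ⊆ outside n F v := by
  intro z hz
  refine ⟨TOPA_Q_body hn f hz, ?_⟩
  obtain ⟨T, h1, h2, h3, h4⟩ := TOPA_path hn hF he hf
  have h5 := h1.subset_connectedComponentIn (h3 hz) h2
  intro hb
  have h6 := (hb.subset (h4.trans h5))
  obtain ⟨C, hC⟩ := (Metric.isBounded_iff_subset_closedBall (0 : ℂ)).1 h6
  have h7 : (⟨-(|C| + 1), 0⟩ : ℂ) ∈ {z : ℂ | (n : ℝ) * z.re < 0} := by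
    rw [Set.mem_ofPred_eq]
    have : (0 : ℝ) < n := by positivity
    have h8 : 0 < |C| + 1 := by positivity
    show (n : ℝ) * (-(|C| + 1)) < 0
    nlinarith
  have h9 := hC h7
  rw [mem_closedBall_zero_iff] at h9
  have h10 := Complex.abs_re_le_norm (⟨-(|C| + 1), 0⟩ : ℂ)
  have h11 : |(⟨-(|C| + 1), 0⟩ : ℂ).re| = |C| + 1 := by
    show |-(|C| + 1)| = |C| + 1
    rw [abs_neg, abs_of_pos (by positivity)]
  rw [h11] at h10
  have := le_abs_self C
  linarith

theorem t_TOPA : St_TOPA := by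
  intro n F v hn hF e he hout z hz
  have hzb : z ∈ body n F v := by
    unfold body
    right
    simp only [Set.mem_iUnion, exists_prop]
    exact ⟨e, he, hz⟩
  have hzo : z ∉ outside n F v := fun h => h.1 hzb
  have hzi : z ∉ interior (outside n F v) := fun h => hzo (interior_subset h)
  unfold outerBoundary frontier
  refine ⟨?_, hzi⟩
  have hs := TOPA_seg hn e hz
  obtain ⟨x, y, t⟩ := e
  rcases hout with ho | ho
  · refine closure_mono (TOPA_outside hn hF he ho) ?_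
    cases t
    · rcases hs with ⟨h, -⟩ | ⟨-, h1, h2, h3⟩
      · simp at h
      · apply TOPA_closure hn
        · simp only [side₁, Bool.false_eq_true, if_false]; push_cast; linarith
        · simp only [side₁, Bool.false_eq_true, if_false]; push_cast; linarith
        · simp only [side₁, Bool.false_eq_true, if_false]; exact h2
        · simp only [side₁, Bool.false_eq_true, if_false]; exact h3
    · rcases hs with ⟨-, h1, h2, h3⟩ | ⟨h, -⟩
      · apply TOPA_closure hn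
        · simp only [side₁, if_true]; exact h2
        · simp only [side₁, if_true]; exact h3
        · simp only [side₁, if_true]; push_cast; linarith
        · simp only [side₁, if_true]; push_cast; linarith
      · simp at h
  · refine closure_mono (TOPA_outside hn hF he ho) ?_
    simp only [side₂] at *
    cases t
    · rcases hs with ⟨h, -⟩ | ⟨-, h1, h2, h3⟩
      · simp at h
      · apply TOPA_closure hn
        · exact h1.ge
        · simp only []; linarith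
        · exact h2
        · exact h3
    · rcases hs with ⟨-, h1, h2, h3⟩ | ⟨h, -⟩
      · apply TOPA_closure hn
        · exact h2
        · exact h3
        · exact h1.ge
        · simp only []; linarith
      · simp at h

end H342L
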