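import Pool.Agent.H342R3.Lim.Stubs

/-!
Task TOPB: every point of the outer boundary is close to a vertex of the cluster which touches a
face of the unbounded component.
-/

set_option autoImplicit false

namespace H342L

open H342P H342P.Plain MeasureTheory TopologicalSpace Filter Topology

/-- the closed face `g` (scaled) contains `z` -/
def TOPB_cl (n : ℕ) (z : ℂ) (g : ℤ × ℤ) : Prop :=
  ((g.1 : ℝ) ≤ n * z.re ∧ n * z.re ≤ g.1 + 1) ∧ ((g.2 : ℝ) ≤ n * z.im ∧ n * z.im ≤ g.2 + 1)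

theorem TOPB_floor (n : ℕ) (z : ℂ) : TOPB_cl n z (⌊n * z.re⌋, ⌊n * z.im⌋) :=
  ⟨⟨Int.floor_le _, (Int.lt_floor_add_one _).le⟩, ⟨Int.floor_le _, (Int.lt_floor_add_one _).le⟩⟩

theorem TOPB_seg_false {n : ℕ} (hn : 0 < n) {z : ℂ} {a b : ℤ} (h1 : n * z.re = a)
    (h2 : (b : ℝ) ≤ n * z.im) (h3 : n * z.im ≤ b + 1) : z ∈ seg n (a, b, false) := by
  have hn' : (n : ℝ) ≠ 0 := by positivity
  refine ⟨1 - (n * z.im - b), n * z.im - b, by linarith, by linarith, by ring, ?_⟩
  apply Complex.ext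
  · simp only [fst, snd, pt, Complex.add_re, Complex.real_smul, Complex.mul_re, Complex.ofReal_re,
      Complex.ofReal_im, zero_mul, sub_zero, Bool.false_eq_true, if_false]
    field_simp
    linarith
  · simp only [fst, snd, pt, Complex.add_im, Complex.real_smul, Complex.mul_im, Complex.ofReal_re,
      Complex.ofReal_im, zero_mul, add_zero, Bool.false_eq_true, if_false]
    push_cast
    field_simp
    ring

theorem TOPB_seg_true {n : ℕ} (hn : 0 < n) {z : ℂ} {a b : ℤ} (h1 : n * z.im = b)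
    (h2 : (a : ℝ) ≤ n * z.re) (h3 : n * z.re ≤ a + 1) : z ∈ seg n (a, b, true) := by
  have hn' : (n : ℝ) ≠ 0 := by positivity
  refine ⟨1 - (n * z.re - a), n * z.re - a, by linarith, by linarith, by ring, ?_⟩
  apply Complex.ext
  · simp only [fst, snd, pt, Complex.add_re, Complex.real_smul, Complex.mul_re, Complex.ofReal_re,
      Complex.ofReal_im, zero_mul, sub_zero, if_true]
    push_cast
    field_simp
    ring
  · simp only [fst, snd, pt, Complex.add_im, Complex.real_smul, Complex.mul_im, Complex.ofReal_re,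
      Complex.ofReal_im, zero_mul, add_zero, if_true]
    field_simp
    linarith

theorem TOPB_mem_seg {n : ℕ} (hn : 0 < n) {z : ℂ} {e : Edge} (h : z ∈ seg n e) :
    ∃ t : ℝ, 0 ≤ t ∧ t ≤ 1 ∧ n * z.re = e.1 + (if e.2.2 = true then t else 0) ∧
      n * z.im = e.2.1 + (if e.2.2 = true then 0 else t) := by
  have hn' : (n : ℝ) ≠ 0 := by positivity
  obtain ⟨s, t, hs, ht, hst, rfl⟩ := h
  obtain ⟨a, b, c⟩ := e
  have hs' : s = 1 - t := by linarith
  refine ⟨t, ht, by linarith, ?_, ?_⟩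
  · cases c
    · simp only [fst, snd, pt, Complex.add_re, Complex.real_smul, Complex.mul_re, Complex.ofReal_re,
        Complex.ofReal_im, zero_mul, sub_zero, Bool.false_eq_true, if_false]
      rw [hs']
      field_simp
      ring
    · simp only [fst, snd, pt, Complex.add_re, Complex.real_smul, Complex.mul_re, Complex.ofReal_re,
        Complex.ofReal_im, zero_mul, sub_zero, if_true]
      rw [hs']
      push_cast
      field_simp
      ring
  · cases c
    · simp only [fst, snd, pt, Complex.add_im, Complex.real_smul, Complex.mul_im, Complex.ofReal_re,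
        Complex.ofReal_im, zero_mul, add_zero, Bool.false_eq_true, if_false]
      rw [hs']
      push_cast
      field_simp
      ring
    · simp only [fst, snd, pt, Complex.add_im, Complex.real_smul, Complex.mul_im, Complex.ofReal_re,
        Complex.ofReal_im, zero_mul, add_zero, if_true]
      rw [hs']
      field_simp
      ring

theorem TOPB_adj {C : Set Edge} {e : Edge} (he : e ∉ C) :
    (faceGraph C).Reachable (side₁ e) (side₂ e) := by
  apply SimpleGraph.Adj.reachable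
  unfold faceGraph
  rw [SimpleGraph.fromRel_adj]
  exact ⟨side₁_ne_side₂ e, Or.inl ⟨e, he, rfl, rfl⟩⟩

theorem TOPB_adjH {n : ℕ} (hn : 0 < n) {F : Finset Edge} {v : ℤ × ℤ} {z : ℂ}
    (hz : z ∉ body n F v) {a c : ℤ} (h1 : TOPB_cl n z (a, c)) (h2 : TOPB_cl n z (a + 1, c)) :
    (faceGraph (clusterEdges F v)).Reachable (a, c) (a + 1, c) := by
  have he : ((a + 1, c, false) : Edge) ∉ clusterEdges F v := by
    intro he
    apply hz
    refine Or.inr (Set.mem_biUnion he (TOPB_seg_false hn ?_ h1.2.1 h1.2.2))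
    have h3 := h1.1.2
    have h4 := h2.1.1
    simp only at h3 h4
    push_cast at h4 ⊢
    linarith
  have h := TOPB_adj he
  simpa [side₁, side₂] using h

theorem TOPB_adjV {n : ℕ} (hn : 0 < n) {F : Finset Edge} {v : ℤ × ℤ} {z : ℂ}
    (hz : z ∉ body n F v) {a c : ℤ} (h1 : TOPB_cl n z (c, a)) (h2 : TOPB_cl n z (c, a + 1)) :
    (faceGraph (clusterEdges F v)).Reachable (c, a) (c, a + 1) := by
  have he : ((c, a + 1, true) : Edge) ∉ clusterEdges F v := by
    intro he
    apply hz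
    refine Or.inr (Set.mem_biUnion he (TOPB_seg_true hn ?_ h1.1.1 h1.1.2))
    have h3 := h1.2.2
    have h4 := h2.2.1
    simp only at h3 h4
    push_cast at h4 ⊢
    linarith
  have h := TOPB_adj he
  simpa [side₁, side₂] using h

theorem TOPB_stepH {n : ℕ} (hn : 0 < n) {F : Finset Edge} {v : ℤ × ℤ} {z : ℂ}
    (hz : z ∉ body n F v) {a b c : ℤ} (h1 : TOPB_cl n z (a, c)) (h2 : TOPB_cl n z (b, c)) :
    (faceGraph (clusterEdges F v)).Reachable (a, c) (b, c) := by
  have h3 : (a:ℝ) ≤ b + 1 := h1.1.1.trans h2.1.2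
  have h4 : (b:ℝ) ≤ a + 1 := h2.1.1.trans h1.1.2
  have h5 : a ≤ b + 1 := by exact_mod_cast h3
  have h6 : b ≤ a + 1 := by exact_mod_cast h4
  have h7 : a = b ∨ b = a + 1 ∨ a = b + 1 := by omega
  rcases h7 with rfl | rfl | rfl
  · exact SimpleGraph.Reachable.refl _
  · exact TOPB_adjH hn hz h1 h2
  · exact (TOPB_adjH hn hz h2 h1).symm

theorem TOPB_stepV {n : ℕ} (hn : 0 < n) {F : Finset Edge} {v : ℤ × ℤ} {z : ℂ}
    (hz : z ∉ body n F v) {a b c : ℤ} (h1 : TOPB_cl n z (c, a)) (h2 : TOPB_cl n z (c, b)) :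
    (faceGraph (clusterEdges F v)).Reachable (c, a) (c, b) := by
  have h3 : (a:ℝ) ≤ b + 1 := h1.2.1.trans h2.2.2
  have h4 : (b:ℝ) ≤ a + 1 := h2.2.1.trans h1.2.2
  have h5 : a ≤ b + 1 := by exact_mod_cast h3
  have h6 : b ≤ a + 1 := by exact_mod_cast h4
  have h7 : a = b ∨ b = a + 1 ∨ a = b + 1 := by omega
  rcases h7 with rfl | rfl | rfl
  · exact SimpleGraph.Reachable.refl _
  · exact TOPB_adjV hn hz h1 h2
  · exact (TOPB_adjV hn hz h2 h1).symm

/-- (1) all faces at a point of the complement are joined -/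
theorem TOPB_joined {n : ℕ} (hn : 0 < n) {F : Finset Edge} {v : ℤ × ℤ} {z : ℂ}
    (hz : z ∉ body n F v) {g g' : ℤ × ℤ} (h1 : TOPB_cl n z g) (h2 : TOPB_cl n z g') :
    (faceGraph (clusterEdges F v)).Reachable g g' := by
  obtain ⟨a, b⟩ := g
  obtain ⟨a', b'⟩ := g'
  exact (TOPB_stepH hn hz h1 (b := a') ⟨h2.1, h1.2⟩).trans (TOPB_stepV hn hz ⟨h2.1, h1.2⟩ h2)

/-- near a point there are no further closed faces -/
theorem TOPB_near (n : ℕ) (x : ℂ) : ∀ᶠ y in 𝓝 x, ∀ g, TOPB_cl n y g → TOPB_cl n x g := by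
  have hre : Continuous fun y : ℂ => (n:ℝ) * y.re := by fun_prop
  have him : Continuous fun y : ℂ => (n:ℝ) * y.im := by fun_prop
  have h1 : ∀ᶠ y in 𝓝 x, (n:ℝ) * y.re < ⌊(n:ℝ) * x.re⌋ + 1 :=
    hre.continuousAt.eventually_lt_const (Int.lt_floor_add_one _)
  have h2 : ∀ᶠ y in 𝓝 x, (⌈(n:ℝ) * x.re⌉ : ℝ) - 1 < (n:ℝ) * y.re :=
    hre.continuousAt.eventually_const_lt (by have := Int.ceil_lt_add_one ((n:ℝ) * x.re); linarith)
  have h3 : ∀ᶠ y in 𝓝 x, (n:ℝ) * y.im < ⌊(n:ℝ) * x.im⌋ + 1 :=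
    him.continuousAt.eventually_lt_const (Int.lt_floor_add_one _)
  have h4 : ∀ᶠ y in 𝓝 x, (⌈(n:ℝ) * x.im⌉ : ℝ) - 1 < (n:ℝ) * y.im :=
    him.continuousAt.eventually_const_lt (by have := Int.ceil_lt_add_one ((n:ℝ) * x.im); linarith)
  filter_upwards [h1, h2, h3, h4] with y h1 h2 h3 h4 g hg
  have a1 : (g.1:ℝ) < ⌊(n:ℝ) * x.re⌋ + 1 := hg.1.1.trans_lt h1
  have a2 : (⌈(n:ℝ) * x.re⌉ : ℝ) - 1 < g.1 + 1 := h2.trans_le hg.1.2
  have a3 : (g.2:ℝ) < ⌊(n:ℝ) * x.im⌋ + 1 := hg.2.1.trans_lt h3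
  have a4 : (⌈(n:ℝ) * x.im⌉ : ℝ) - 1 < g.2 + 1 := h4.trans_le hg.2.2
  have b1 : g.1 ≤ ⌊(n:ℝ) * x.re⌋ := by
    have : g.1 < ⌊(n:ℝ) * x.re⌋ + 1 := by exact_mod_cast a1
    omega
  have b2 : ⌈(n:ℝ) * x.re⌉ ≤ g.1 + 1 := by
    have : ⌈(n:ℝ) * x.re⌉ - 1 < g.1 + 1 := by exact_mod_cast a2
    omega
  have b3 : g.2 ≤ ⌊(n:ℝ) * x.im⌋ := by
    have : g.2 < ⌊(n:ℝ) * x.im⌋ + 1 := by exact_mod_cast a3
    omega
  have b4 : ⌈(n:ℝ) * x.im⌉ ≤ g.2 + 1 := by
    have : ⌈(n:ℝ) * x.im⌉ - 1 < g.2 + 1 := by exact_mod_cast a4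
    omega
  refine ⟨⟨Int.le_floor.1 b1, ?_⟩, ⟨Int.le_floor.1 b3, ?_⟩⟩
  · have := Int.ceil_le.1 b2
    push_cast at this
    exact this
  · have := Int.ceil_le.1 b4
    push_cast at this
    exact this

/-- some face at `z` is an outer face -/
def TOPB_Q (n : ℕ) (F : Finset Edge) (v : ℤ × ℤ) (z : ℂ) : Prop :=
  ∃ g, TOPB_cl n z g ∧ Plain.Outer F v g

/-- (2) the property is constant on components -/
theorem TOPB_const {n : ℕ} (hn : 0 < n) {F : Finset Edge} {v : ℤ × ℤ} {S : Set ℂ}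
    (hS : IsPreconnected S) (hSb : S ⊆ (body n F v)ᶜ) {x y : ℂ} (hx : x ∈ S) (hy : y ∈ S) :
    TOPB_Q n F v x ↔ TOPB_Q n F v y := by
  refine hS.induction₂ (fun x y => TOPB_Q n F v x ↔ TOPB_Q n F v y) ?_ ?_ ?_ hx hy
  · intro x hx
    apply eventually_nhdsWithin_of_eventually_nhds
    filter_upwards [TOPB_near n x] with y hy
    constructor
    · rintro ⟨g, hg1, hg2⟩
      refine ⟨_, TOPB_floor n y, ?_⟩
      exact ((TOPB_joined hn (hSb hx) hg1 (hy _ (TOPB_floor n y))).symm).trans hg2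
    · rintro ⟨g, hg1, hg2⟩
      exact ⟨g, hy g hg1, hg2⟩
  · intro x y z _ _ _ h1 h2
    exact h1.trans h2
  · intro x y _ _ h
    exact h.symm

theorem TOPB_lineH {n : ℕ} {F : Finset Edge} (hF : F ⊆ edges n) {v : ℤ × ℤ} {c : ℤ}
    (hc : c < 0 ∨ (n:ℤ) ≤ c) (a b : ℤ) :
    (faceGraph (clusterEdges F v)).Reachable (a, c) (b, c) := by
  have key : ∀ (k : ℕ) (a : ℤ), (faceGraph (clusterEdges F v)).Reachable (a, c) (a + k, c) := by
    intro k
    induction k with
    | zero => intro a; simp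
    | succ k ih =>
      intro a
      refine (ih a).trans ?_
      have he : ((a + k + 1, c, false) : Edge) ∉ clusterEdges F v := by
        intro he
        have h1 := hF he.1
        rw [edges_eq, H974.mem_RE_false] at h1
        omega
      have h := TOPB_adj he
      simp only [side₁, side₂, Bool.false_eq_true, if_false] at h
      push_cast
      rw [← add_assoc]
      rwa [add_sub_cancel_right] at h
  rcases le_total a b with h | h
  · have h1 := key (b - a).toNat a
    rwa [Int.toNat_of_nonneg (by omega), add_sub_cancel] at h1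
  · have h1 := key (a - b).toNat b
    rw [Int.toNat_of_nonneg (by omega), add_sub_cancel] at h1
    exact h1.symm

theorem TOPB_lineV {n : ℕ} {F : Finset Edge} (hF : F ⊆ edges n) {v : ℤ × ℤ} {c : ℤ}
    (hc : c < 0 ∨ (n:ℤ) ≤ c) (a b : ℤ) :
    (faceGraph (clusterEdges F v)).Reachable (c, a) (c, b) := by
  have key : ∀ (k : ℕ) (a : ℤ), (faceGraph (clusterEdges F v)).Reachable (c, a) (c, a + k) := by
    intro k
    induction k with
    | zero => intro a; simp
    | succ k ih =>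
      intro a
      refine (ih a).trans ?_
      have he : ((c, a + k + 1, true) : Edge) ∉ clusterEdges F v := by
        intro he
        have h1 := hF he.1
        rw [edges_eq, H974.mem_RE_true] at h1
        omega
      have h := TOPB_adj he
      simp only [side₁, side₂, if_true] at h
      push_cast
      rw [← add_assoc]
      rwa [add_sub_cancel_right] at h
  rcases le_total a b with h | h
  · have h1 := key (b - a).toNat a
    rwa [Int.toNat_of_nonneg (by omega), add_sub_cancel] at h1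
  · have h1 := key (a - b).toNat b
    rw [Int.toNat_of_nonneg (by omega), add_sub_cancel] at h1
    exact h1.symm

theorem TOPB_far {n : ℕ} {F : Finset Edge} (hF : F ⊆ edges n) {v : ℤ × ℤ} {f : ℤ × ℤ}
    (hf : (f.1 < 0 ∨ (n:ℤ) ≤ f.1) ∨ (f.2 < 0 ∨ (n:ℤ) ≤ f.2)) : Plain.Outer F v f := by
  obtain ⟨a, b⟩ := f
  rcases hf with hf | hf
  · exact (TOPB_lineV hF hf b (-1)).trans (TOPB_lineH hF (Or.inl (by norm_num)) a (-1))
  · exact (TOPB_lineH hF hf a (-1)).trans (TOPB_lineV hF (Or.inl (by norm_num)) b (-1))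

/-- (3) -/
theorem TOPB_outside {n : ℕ} (hn : 0 < n) {F : Finset Edge} (hF : F ⊆ edges n) {v : ℤ × ℤ}
    {y : ℂ} (hy : y ∈ outside n F v) : TOPB_Q n F v y := by
  obtain ⟨hy1, hy2⟩ := hy
  have h1 : ∃ x ∈ connectedComponentIn (body n F v)ᶜ y, 2 < ‖x‖ := by
    by_contra hcon
    push Not at hcon
    exact hy2 (isBounded_iff_forall_norm_le.2 ⟨2, hcon⟩)
  obtain ⟨x, hx1, hx2⟩ := h1
  rw [TOPB_const hn isPreconnected_connectedComponentIn (connectedComponentIn_subset _ _)
    (mem_connectedComponentIn hy1) hx1]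
  refine ⟨_, TOPB_floor n x, TOPB_far hF ?_⟩
  have hn' : (1:ℝ) ≤ n := by exact_mod_cast hn
  have h2 := Complex.norm_le_abs_re_add_abs_im x
  have h3 : 1 < |x.re| ∨ 1 < |x.im| := by
    by_contra hcon
    push Not at hcon
    linarith [hcon.1, hcon.2]
  rcases h3 with h3 | h3
  · left
    rcases lt_abs.1 h3 with h4 | h4
    · right
      simp only
      rw [Int.le_floor]
      push_cast
      nlinarith
    · left
      simp only
      rw [Int.floor_lt]
      push_cast
      nlinarith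
  · right
    rcases lt_abs.1 h3 with h4 | h4
    · right
      simp only
      rw [Int.le_floor]
      push_cast
      nlinarith
    · left
      simp only
      rw [Int.floor_lt]
      push_cast
      nlinarith

theorem TOPB_cluster {n : ℕ} {F : Finset Edge} (hF : F ⊆ edges n) {v : ℤ × ℤ} (hv : v ∈ box n) :
    cluster F v ⊆ (box n : Set (ℤ × ℤ)) := by
  intro w hw
  unfold cluster at hw
  rw [Set.mem_ofPred_eq, SimpleGraph.reachable_iff_reflTransGen] at hw
  induction hw with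
  | refl => exact hv
  | tail _ h _ =>
    unfold openGraph at h
    rw [SimpleGraph.fromRel_adj] at h
    rcases h.2 with ⟨e, he, h1, h2⟩ | ⟨e, he, h1, h2⟩
    · have h3 := hF he
      unfold edges at h3
      rw [Finset.mem_filter] at h3
      rw [← h2]; exact h3.2.2
    · have h3 := hF he
      unfold edges at h3
      rw [Finset.mem_filter] at h3
      rw [← h1]; exact h3.2.1

theorem TOPB_closed {n : ℕ} {F : Finset Edge} (hF : F ⊆ edges n) {v : ℤ × ℤ} (hv : v ∈ box n) :
    IsClosed (body n F v) := by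
  unfold body
  apply IsClosed.union
  · exact ((box n).finite_toSet.subset (TOPB_cluster hF hv)).isClosed_biUnion
      fun w _ => isClosed_singleton
  · apply Set.Finite.isClosed_biUnion
    · exact F.finite_toSet.subset fun e he => he.1
    · intro e _
      unfold seg
      rw [segment_eq_image]
      exact (isCompact_Icc.image (by fun_prop)).isClosed

/-- (6) -/
theorem TOPB_end {n : ℕ} (hn : 0 < n) {F : Finset Edge} {v : ℤ × ℤ} {z : ℂ} {g : ℤ × ℤ}
    (hz : z ∈ body n F v) (hg : TOPB_cl n z g) :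
    ∃ u ∈ cluster F v, Inc u g ∧ |z.re - (pt n u).re| ≤ 1 / n ∧ |z.im - (pt n u).im| ≤ 1 / n := by
  have hn' : (0:ℝ) < n := by exact_mod_cast hn
  have hn0 : (n:ℝ) ≠ 0 := hn'.ne'
  -- passing from scaled coordinates
  have tr : ∀ (x : ℝ) (k : ℤ), |n * x - k| ≤ 1 → |x - (k:ℝ) / n| ≤ 1 / n := by
    intro x k h
    have h1 : x - (k:ℝ) / n = (n * x - k) / n := by field_simp
    rw [h1, abs_div, abs_of_pos hn']
    exact div_le_div_of_nonneg_right h hn'.le
  rcases hz with hz | hz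
  · rw [Set.mem_iUnion₂] at hz
    obtain ⟨w, hw, hzw⟩ := hz
    rw [Set.mem_singleton_iff] at hzw
    refine ⟨w, hw, ?_, ?_, ?_⟩
    · have h1 : (n:ℝ) * z.re = w.1 := by rw [hzw, pt]; field_simp
      have h2 : (n:ℝ) * z.im = w.2 := by rw [hzw, pt]; field_simp
      obtain ⟨⟨a1, a2⟩, a3, a4⟩ := hg
      rw [h1] at a1 a2
      rw [h2] at a3 a4
      have b1 : g.1 ≤ w.1 := by exact_mod_cast a1
      have b2 : w.1 ≤ g.1 + 1 := by exact_mod_cast a2
      have b3 : g.2 ≤ w.2 := by exact_mod_cast a3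
      have b4 : w.2 ≤ g.2 + 1 := by exact_mod_cast a4
      unfold Inc
      omega
    · rw [hzw, sub_self, abs_zero]; positivity
    · rw [hzw, sub_self, abs_zero]; positivity
  · rw [Set.mem_iUnion₂] at hz
    obtain ⟨e, he, hze⟩ := hz
    obtain ⟨t, ht0, ht1, h1, h2⟩ := TOPB_mem_seg hn hze
    have hsnd : snd e ∈ cluster F v := by
      have h3 := he.2
      unfold cluster at h3 ⊢
      rw [Set.mem_ofPred_eq] at h3 ⊢
      refine h3.trans (SimpleGraph.Adj.reachable ?_)
      unfold openGraph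
      rw [SimpleGraph.fromRel_adj]
      exact ⟨fst_ne_snd e, Or.inl ⟨e, he.1, rfl, rfl⟩⟩
    have hfst : fst e ∈ cluster F v := he.2
    obtain ⟨a, b, c⟩ := e
    obtain ⟨⟨a1, a2⟩, a3, a4⟩ := hg
    cases c
    · simp only [Bool.false_eq_true, if_false, add_zero] at h1 h2
      simp only [fst, snd, Bool.false_eq_true, if_false] at hfst hsnd
      rw [h1] at a1 a2
      have b1 : g.1 ≤ a := by exact_mod_cast a1
      have b2 : a ≤ g.1 + 1 := by exact_mod_cast a2
      rw [h2] at a3 a4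
      have c1 : (g.2:ℝ) ≤ b + 1 := by linarith
      have c2 : (b:ℝ) ≤ g.2 + 1 := by linarith
      have b3 : g.2 ≤ b + 1 := by exact_mod_cast c1
      have b4 : b ≤ g.2 + 1 := by exact_mod_cast c2
      rcases (show g.2 ≤ b ∨ g.2 = b + 1 by omega) with h5 | h5
      · refine ⟨(a, b), hfst, ?_, ?_, ?_⟩
        · unfold Inc; simp only; omega
        · exact tr _ _ (by rw [h1, sub_self, abs_zero]; norm_num)
        · exact tr _ _ (by rw [h2, add_sub_cancel_left, abs_of_nonneg ht0]; exact ht1)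
      · refine ⟨(a, b + 1), hsnd, ?_, ?_, ?_⟩
        · unfold Inc; simp only; omega
        · exact tr _ _ (by rw [h1, sub_self, abs_zero]; norm_num)
        · exact tr _ _ (by rw [h2]; push_cast; rw [abs_le]; constructor <;> linarith)
    · simp only [if_true, add_zero] at h1 h2
      simp only [fst, snd, if_true] at hfst hsnd
      rw [h2] at a3 a4
      have b1 : g.2 ≤ b := by exact_mod_cast a3
      have b2 : b ≤ g.2 + 1 := by exact_mod_cast a4
      rw [h1] at a1 a2
      have c1 : (g.1:ℝ) ≤ a + 1 := by linarith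
      have c2 : (a:ℝ) ≤ g.1 + 1 := by linarith
      have b3 : g.1 ≤ a + 1 := by exact_mod_cast c1
      have b4 : a ≤ g.1 + 1 := by exact_mod_cast c2
      rcases (show g.1 ≤ a ∨ g.1 = a + 1 by omega) with h5 | h5
      · refine ⟨(a, b), hfst, ?_, ?_, ?_⟩
        · unfold Inc; simp only; omega
        · exact tr _ _ (by rw [h1, add_sub_cancel_left, abs_of_nonneg ht0]; exact ht1)
        · exact tr _ _ (by rw [h2, sub_self, abs_zero]; norm_num)
      · refine ⟨(a + 1, b), hsnd, ?_, ?_, ?_⟩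
        · unfold Inc; simp only; omega
        · exact tr _ _ (by rw [h1]; push_cast; rw [abs_le]; constructor <;> linarith)
        · exact tr _ _ (by rw [h2, sub_self, abs_zero]; norm_num)

theorem TOPB_isOpen {n : ℕ} {F : Finset Edge} (hF : F ⊆ edges n) {v : ℤ × ℤ} (hv : v ∈ box n) :
    IsOpen (outside n F v) := by
  have hop : IsOpen (body n F v)ᶜ := (TOPB_closed hF hv).isOpen_compl
  rw [isOpen_iff_mem_nhds]
  rintro z ⟨hz1, hz2⟩
  have h1 : IsOpen (connectedComponentIn (body n F v)ᶜ z) := hop.connectedComponentIn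
  refine mem_of_superset (h1.mem_nhds (mem_connectedComponentIn hz1)) ?_
  intro y hy
  refine ⟨connectedComponentIn_subset _ _ hy, ?_⟩
  rw [← connectedComponentIn_eq hy]
  exact hz2

theorem t_TOPB : St_TOPB := by
  intro n F v hn hF hv z hz
  have hop : IsOpen (body n F v)ᶜ := (TOPB_closed hF hv).isOpen_compl
  have hout := TOPB_isOpen hF hv
  unfold outerBoundary at hz
  rw [hout.frontier_eq] at hz
  obtain ⟨hz1, hz2⟩ := hz
  have hzb : z ∈ body n F v := by
    by_contra hcon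
    apply hz2
    have h1 : IsOpen (connectedComponentIn (body n F v)ᶜ z) := hop.connectedComponentIn
    have hm := h1.mem_nhds (mem_connectedComponentIn hcon)
    obtain ⟨y, hy1, hy2⟩ := mem_closure_iff_nhds.1 hz1 _ hm
    refine ⟨hcon, ?_⟩
    rw [connectedComponentIn_eq hy1]
    exact hy2.2
  obtain ⟨y, hy1, hy2⟩ := mem_closure_iff_nhds.1 hz1 _ (TOPB_near n z)
  obtain ⟨g, hg1, hg2⟩ := TOPB_outside hn hF hy2
  obtain ⟨u, hu1, hu2, hu3, hu4⟩ := TOPB_end hn hzb (hy1 g hg1)
  exact ⟨u, g, hu1, hu2, hg2, hu3, hu4⟩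

end H342L
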