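import Pool.Agent.H342R3.Lim.Stubs
import Pool.Agent.H934R3.D74.T3

/-!
TP: the two-point bound.
-/

namespace H342L

open H974 H973 H12S H934E H934F H342P Finset

/-- inner part of the two arms -/
theorem tp_near {h : ℕ} {v : Vtx} {F : Finset Edg} (ρ : ℕ) (hρ1 : 1 ≤ ρ)
    (hρ : ρ ≤ h) (hE : Tw v h (↑F)) : t3_An (t3_B v ρ) v 1 ρ F := by
  obtain ⟨f, hf, ⟨y, hy, h1⟩, ⟨g, hg, h2⟩⟩ := hE
  unfold Far at hy
  unfold FarF inF at hg
  unfold Inc at hf
  constructor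
  · obtain ⟨z, hz, hp⟩ := t3_reach (G := (↑(F ∩ t3_B v ρ) : Set Edg))
      (X := (↑(t3_B v ρ) : Set Edg)) (t3_in v ρ)
      (fun e _ he => by exact_mod_cast t3_edge_near he) (by
        rw [Finset.coe_inter]) h1 (by unfold t3_in; omega)
    refine ⟨v, z, ?_, ?_, hp⟩
    · unfold inR; push_cast; omega
    · unfold t3_in at hz; omega
  · obtain ⟨z, hz, hp⟩ := t3_dreach (G := (↑(t3_B v ρ \ F) : Set Edg))
      (X := (↑(t3_B v ρ) : Set Edg)) (t3_in v ρ)
      (fun e _ he => by exact_mod_cast t3_edge_near' he) (by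
        rw [Finset.coe_sdiff]
        exact fun e he => ⟨he.2, he.1⟩) h2 (by unfold t3_in; omega)
    refine ⟨f, z, ?_, ?_, hp⟩
    · unfold inR; push_cast; omega
    · unfold t3_in at hz; omega

/-- outer part of the two arms -/
theorem tp_far {h : ℕ} {v : Vtx} {F : Finset Edg} (m : ℕ) (hm : 1 ≤ m)
    (hE : Tw v h (↑F)) : t3_An (t3_B v h \ t3_B v (m - 1 : ℤ)) v m h F := by
  obtain ⟨f, hf, ⟨y, hy, h1⟩, ⟨g, hg, h2⟩⟩ := hE
  unfold Far at hy
  unfold FarF inF at hg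
  unfold Inc at hf
  constructor
  · obtain ⟨y', hy', h1'⟩ := t3_reach (G := (↑(F ∩ t3_B v h) : Set Edg))
      (X := (↑(t3_B v h) : Set Edg)) (t3_in v h)
      (fun e _ he => by exact_mod_cast t3_edge_near he) (by
        rw [Finset.coe_inter]) h1 (by unfold t3_in; omega)
    unfold t3_in at hy'
    obtain ⟨z, hz, hp⟩ := t3_reach (G := (↑(F ∩ (t3_B v h \ t3_B v (m - 1 : ℤ))) : Set Edg))
      (X := (↑(t3_B v (m - 1 : ℤ)) : Set Edg)ᶜ)
      (fun z => ¬ (v.1 - m ≤ z.1 ∧ z.1 ≤ v.1 + m ∧ v.2 - m ≤ z.2 ∧ z.2 ≤ v.2 + m))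
      (fun e _ he => by
        intro h3
        have h4 := t3_edge_far (e := e) (by exact_mod_cast h3)
        omega) (by
        rw [Finset.coe_inter, Finset.coe_inter, Finset.coe_sdiff]
        exact fun e he => ⟨he.1.1, he.1.2, he.2⟩) h1'.symm (by omega)
    refine ⟨z, y', ?_, ?_, hp.symm⟩
    · unfold inR; omega
    · omega
  · obtain ⟨g', hg', h2'⟩ := t3_dreach (G := (↑(t3_B v h \ F) : Set Edg))
      (X := (↑(t3_B v h) : Set Edg)) (t3_in v h)
      (fun e _ he => by exact_mod_cast t3_edge_near' he) (by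
        rw [Finset.coe_sdiff]
        exact fun e he => ⟨he.2, he.1⟩) h2 (by unfold t3_in; omega)
    unfold t3_in at hg'
    obtain ⟨z, hz, hp⟩ := t3_dreach (G := (↑((t3_B v h \ t3_B v (m - 1 : ℤ)) \ F) : Set Edg))
      (X := (↑(t3_B v (m - 1 : ℤ)) : Set Edg)ᶜ)
      (fun z => ¬ (v.1 - m ≤ z.1 ∧ z.1 ≤ v.1 + m ∧ v.2 - m ≤ z.2 ∧ z.2 ≤ v.2 + m))
      (fun e _ he => by
        intro h3
        have h4 := t3_edge_far (e := e) (by exact_mod_cast h3)
        omega) (by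
        rw [Finset.coe_sdiff, Finset.coe_sdiff, Finset.coe_sdiff]
        exact fun e he => ⟨⟨he.1.1, he.2⟩, he.1.2⟩) h2'.symm (by omega)
    refine ⟨z, g', ?_, ?_, hp.symm⟩
    · unfold inR; omega
    · omega

theorem tp_rp {a b D : ℝ} (ha : 0 < a) (hb : 0 < b) (hD : 1 ≤ D) (hab : b ≤ D * a) :
    (1 / a) ^ (1/4 : ℝ) ≤ D * b ^ (-(1/4) : ℝ) := by
  have h1 : 1 / a ≤ D / b := by
    rw [div_le_div_iff₀ ha hb]; linarith
  have h2 : (1 / a) ^ (1/4 : ℝ) ≤ (D / b) ^ (1/4 : ℝ) :=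
    Real.rpow_le_rpow (by positivity) h1 (by norm_num)
  have h3 : (D / b) ^ (1/4 : ℝ) = D ^ (1/4 : ℝ) * b ^ (-(1/4) : ℝ) := by
    rw [Real.div_rpow (by linarith) hb.le, Real.rpow_neg hb.le, div_eq_mul_inv]
  have h4 : D ^ (1/4 : ℝ) ≤ D := by
    calc D ^ (1/4 : ℝ) ≤ D ^ (1 : ℝ) := Real.rpow_le_rpow_of_exponent_le hD (by norm_num)
      _ = D := Real.rpow_one _
  rw [h3] at h2
  have h5 : 0 < b ^ (-(1/4) : ℝ) := Real.rpow_pos_of_pos hb _
  exact h2.trans (mul_le_mul_of_nonneg_right h4 h5.le)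

theorem t_TP : St_TP := by
  rintro ⟨C, hC, hA⟩ B
  refine ⟨2 * C + 32 * C ^ 3 + 8 * (B + 4) * C ^ 2, by positivity, ?_⟩
  intro h hh S v w hv hw hmd
  have hk0 : 0 ≤ nd v w := le_max_of_le_left (abs_nonneg _)
  obtain ⟨K, hK⟩ := Int.eq_ofNat_of_zero_le hk0
  have hmd' : md v w = max (nd v w) 1 := rfl
  rw [hmd', hK] at hmd ⊢
  have hvS : t3_B v h ⊆ S := hv
  have hwS : t3_B w h ⊆ S := hw
  have hh' : (1 : ℝ) ≤ (h : ℝ) := by exact_mod_cast hh
  have hH0 : 0 < (h : ℝ) ^ (-(1/4) : ℝ) := Real.rpow_pos_of_pos (by linarith) _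
  have hm : (max (K : ℤ) 1) = ((max K 1 : ℕ) : ℤ) := by push_cast; rfl
  have hm2 : (((max K 1 : ℕ) : ℤ) : ℝ) = ((max K 1 : ℕ) : ℝ) := by norm_cast
  have hm1 : (1 : ℝ) ≤ ((max K 1 : ℕ) : ℝ) := by exact_mod_cast le_max_right K 1
  have hK0 : 0 < (((max K 1 : ℕ) : ℝ)) ^ (-(1/4) : ℝ) := Real.rpow_pos_of_pos (by linarith) _
  have hmdn : max K 1 ≤ B * h := by
    rw [hm] at hmd
    exact_mod_cast hmd
  rw [hm, hm2]
  have hBn : (0 : ℝ) ≤ B := Nat.cast_nonneg B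
  by_cases hK3 : K < 3
  · have h1 : Q S (fun F => Tw v h (↑F) ∧ Tw w h (↑F)) ≤ Q S (t3_An (t3_B v h) v 1 h) :=
      Q_mono (fun F _ hF => tp_near h hh le_rfl hF.1)
    have h2 := h1.trans (t3_pr hA hvS v le_rfl hh)
    have h3 : (((1 : ℕ) : ℝ) / h) ^ (1/4 : ℝ) ≤ 1 * (h : ℝ) ^ (-(1/4) : ℝ) := by
      have := tp_rp (a := (h : ℝ)) (b := (h : ℝ)) (D := 1) (by linarith) (by linarith) le_rfl
        (by linarith)
      simpa using this
    have h4 : (1 : ℝ) ≤ 2 * (((max K 1 : ℕ) : ℝ)) ^ (-(1/4) : ℝ) := by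
      have hk2 : ((max K 1 : ℕ) : ℝ) ≤ 2 := by
        have : max K 1 ≤ 2 := by omega
        exact_mod_cast this
      have := tp_rp (a := (1 : ℝ)) (b := ((max K 1 : ℕ) : ℝ)) (D := 2) (by norm_num) (by linarith)
        (by norm_num) (by linarith)
      simpa using this
    set kk := (((max K 1 : ℕ) : ℝ)) ^ (-(1/4) : ℝ)
    set ll := (h : ℝ) ^ (-(1/4) : ℝ)
    calc Q S (fun F => Tw v h (↑F) ∧ Tw w h (↑F)) ≤ C * (((1 : ℕ) : ℝ) / h) ^ (1/4 : ℝ) := h2
      _ ≤ C * (1 * ll) := mul_le_mul_of_nonneg_left h3 hC.le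
      _ = C * ll * 1 := by ring
      _ ≤ C * ll * (2 * kk) := mul_le_mul_of_nonneg_left h4 (by positivity)
      _ = (2 * C) * kk * ll := by ring
      _ ≤ (2 * C + 32 * C ^ 3 + 8 * (B + 4) * C ^ 2) * kk * ll := by
          apply mul_le_mul_of_nonneg_right _ hH0.le
          apply mul_le_mul_of_nonneg_right _ hK0.le
          have : 0 ≤ 32 * C ^ 3 + 8 * (B + 4) * C ^ 2 := by positivity
          linarith
  · push Not at hK3
    have hmax : max K 1 = K := by omega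
    rw [hmax] at hm1 hK0 hmdn ⊢
    by_cases h2K : 2 * K ≤ h
    · obtain ⟨ρ, hρ1, hρ2⟩ : ∃ ρ : ℕ, 2 * ρ < K ∧ K ≤ 4 * ρ := ⟨(K - 1) / 2, by omega, by omega⟩
      set X1 := t3_B v ρ with hX1
      set X2 := t3_B w ρ with hX2
      set X3 := t3_B v h \ t3_B v (((2 * K : ℕ) : ℤ) - 1) with hX3
      have s1 : X1 ⊆ S := by
        refine Finset.Subset.trans (RE_subset ?_ ?_ ?_ ?_) hv <;> omega
      have s2 : X2 ⊆ S := by
        refine Finset.Subset.trans (RE_subset ?_ ?_ ?_ ?_) hw <;> omega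
      have s3 : X3 ⊆ S := Finset.sdiff_subset.trans hvS
      have d12 : Disjoint X1 X2 := t3_disj hK hρ1
      have d13 : Disjoint X1 X3 :=
        Finset.disjoint_of_subset_left (t3_sub' hρ1) Finset.disjoint_sdiff
      have d23 : Disjoint X2 X3 :=
        Finset.disjoint_of_subset_left (t3_sub hK hρ1) Finset.disjoint_sdiff
      have i23 : Q S (fun F => t3_An X2 w 1 ρ F ∧ t3_An X3 v (2 * K) h F) =
          Q S (t3_An X2 w 1 ρ) * Q S (t3_An X3 v (2 * K) h) :=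
        Pr_indep s2 s3 d23 (fun F _ => t3_loc _ _ _ _ F) (fun F _ => t3_loc _ _ _ _ F)
      have i1 : Q S (fun F => t3_An X1 v 1 ρ F ∧
          (t3_An X2 w 1 ρ F ∧ t3_An X3 v (2 * K) h F)) =
          Q S (t3_An X1 v 1 ρ) *
            Q S (fun F => t3_An X2 w 1 ρ F ∧ t3_An X3 v (2 * K) h F) := by
        apply Pr_indep s1 (Finset.union_subset s2 s3) (Finset.disjoint_union_right.2 ⟨d12, d13⟩)
          (fun F _ => t3_loc _ _ _ _ F)
        intro F _
        rw [t3_loc' (X := X2) Finset.subset_union_left (Y := X2 ∪ X3),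
          t3_loc' (X := X3) Finset.subset_union_right (Y := X2 ∪ X3)]
      have h1 : Q S (fun F => Tw v h (↑F) ∧ Tw w h (↑F)) ≤ Q S (fun F => t3_An X1 v 1 ρ F ∧
          (t3_An X2 w 1 ρ F ∧ t3_An X3 v (2 * K) h F)) :=
        Q_mono (fun F _ hF => ⟨tp_near ρ (by omega) (by omega) hF.1,
          tp_near ρ (by omega) (by omega) hF.2, tp_far (2 * K) (by omega) hF.1⟩)
      rw [i1, i23] at h1
      have q1 := t3_pr hA s1 v le_rfl (show 1 ≤ ρ by omega)
      have q2 := t3_pr hA s2 w le_rfl (show 1 ≤ ρ by omega)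
      have q3 := t3_pr hA s3 v (show 1 ≤ 2 * K by omega) h2K
      have n1 := Q_nonneg S (t3_An X1 v 1 ρ)
      have n2 := Q_nonneg S (t3_An X2 w 1 ρ)
      have n3 := Q_nonneg S (t3_An X3 v (2 * K) h)
      have hρ' : (K : ℝ) ≤ 4 * ρ := by exact_mod_cast hρ2
      have e1 : (((1 : ℕ) : ℝ) / ρ) ^ (1/4 : ℝ) ≤ 4 * (K : ℝ) ^ (-(1/4) : ℝ) := by
        have := tp_rp (a := (ρ : ℝ)) (b := (K : ℝ)) (D := 4) (by linarith) (by linarith)
          (by norm_num) hρ'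
        simpa using this
      have e3 : (((2 * K : ℕ) : ℝ) / h) ^ (1/4 : ℝ) ≤
          2 * (h : ℝ) ^ (-(1/4) : ℝ) * (K : ℝ) ^ (1/4 : ℝ) := by
        have h5 := tp_rp (a := (h : ℝ) / 2) (b := (h : ℝ)) (D := 2) (by linarith) (by linarith)
          (by norm_num) (by linarith)
        have h6 : ((2 * K : ℕ) : ℝ) / h = (1 / ((h : ℝ) / 2)) * K := by
          push_cast
          field_simp
        rw [h6, Real.mul_rpow (by positivity) (by positivity)]
        exact mul_le_mul_of_nonneg_right h5 (by positivity)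
      have e4 : (K : ℝ) ^ (-(1/4) : ℝ) * (K : ℝ) ^ (1/4 : ℝ) = 1 := by
        rw [← Real.rpow_add (by linarith)]; norm_num
      have k1 : 0 < (K : ℝ) ^ (1/4 : ℝ) := Real.rpow_pos_of_pos (by linarith) _
      set kk := (K : ℝ) ^ (-(1/4) : ℝ)
      set ki := (K : ℝ) ^ (1/4 : ℝ)
      set ll := (h : ℝ) ^ (-(1/4) : ℝ)
      have g1 := q1.trans (mul_le_mul_of_nonneg_left e1 hC.le)
      have g2 := q2.trans (mul_le_mul_of_nonneg_left e1 hC.le)
      have g3 := q3.trans (mul_le_mul_of_nonneg_left e3 hC.le)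
      refine h1.trans ?_
      calc Q S (t3_An X1 v 1 ρ) * (Q S (t3_An X2 w 1 ρ) * Q S (t3_An X3 v (2 * K) h))
          ≤ (C * (4 * kk)) * ((C * (4 * kk)) * (C * (2 * ll * ki))) := by
            apply mul_le_mul g1 (mul_le_mul g2 g3 n3 (by positivity)) (by positivity) (by positivity)
        _ = (32 * C ^ 3) * kk * ll * (kk * ki) := by ring
        _ = (32 * C ^ 3) * kk * ll := by rw [e4, mul_one]
        _ ≤ (2 * C + 32 * C ^ 3 + 8 * (B + 4) * C ^ 2) * kk * ll := by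
            apply mul_le_mul_of_nonneg_right _ hH0.le
            apply mul_le_mul_of_nonneg_right _ hK0.le
            have : 0 ≤ 2 * C + 8 * (B + 4) * C ^ 2 := by positivity
            linarith
    · push Not at h2K
      obtain ⟨ρ, hρ0, hρ1, hρh, hρK, hρh'⟩ : ∃ ρ : ℕ, 1 ≤ ρ ∧ 2 * ρ < K ∧ ρ ≤ h ∧
          K ≤ (B + 4) * ρ ∧ h ≤ 8 * ρ := by
        rcases le_total h ((K - 1) / 2) with hc | hc
        · refine ⟨h, hh, by omega, le_rfl, ?_, by omega⟩
          calc K ≤ B * h := hmdn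
            _ ≤ (B + 4) * h := Nat.mul_le_mul_right _ (by omega)
        · refine ⟨(K - 1) / 2, by omega, by omega, hc, ?_, by omega⟩
          calc K ≤ 4 * ((K - 1) / 2) := by omega
            _ ≤ (B + 4) * ((K - 1) / 2) := Nat.mul_le_mul_right _ (by omega)
      set X1 := t3_B v ρ with hX1
      set X2 := t3_B w ρ with hX2
      have s1 : X1 ⊆ S := by
        refine Finset.Subset.trans (RE_subset ?_ ?_ ?_ ?_) hv <;> omega
      have s2 : X2 ⊆ S := by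
        refine Finset.Subset.trans (RE_subset ?_ ?_ ?_ ?_) hw <;> omega
      have d12 : Disjoint X1 X2 := t3_disj hK hρ1
      have i1 : Q S (fun F => t3_An X1 v 1 ρ F ∧ t3_An X2 w 1 ρ F) =
          Q S (t3_An X1 v 1 ρ) * Q S (t3_An X2 w 1 ρ) :=
        Pr_indep s1 s2 d12 (fun F _ => t3_loc _ _ _ _ F) (fun F _ => t3_loc _ _ _ _ F)
      have h1 : Q S (fun F => Tw v h (↑F) ∧ Tw w h (↑F)) ≤
          Q S (fun F => t3_An X1 v 1 ρ F ∧ t3_An X2 w 1 ρ F) :=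
        Q_mono (fun F _ hF => ⟨tp_near ρ hρ0 hρh hF.1, tp_near ρ hρ0 hρh hF.2⟩)
      rw [i1] at h1
      have q1 := t3_pr hA s1 v le_rfl hρ0
      have q2 := t3_pr hA s2 w le_rfl hρ0
      have n1 := Q_nonneg S (t3_An X1 v 1 ρ)
      have n2 := Q_nonneg S (t3_An X2 w 1 ρ)
      have hρR : (1 : ℝ) ≤ ρ := by exact_mod_cast hρ0
      have r1 : (K : ℝ) ≤ ((B : ℝ) + 4) * ρ := by exact_mod_cast hρK
      have r2 : (h : ℝ) ≤ 8 * ρ := by exact_mod_cast hρh'
      have e1 : (((1 : ℕ) : ℝ) / ρ) ^ (1/4 : ℝ) ≤ ((B : ℝ) + 4) * (K : ℝ) ^ (-(1/4) : ℝ) := by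
        have := tp_rp (a := (ρ : ℝ)) (b := (K : ℝ)) (D := (B : ℝ) + 4) (by linarith) (by linarith)
          (by linarith) r1
        simpa using this
      have e2 : (((1 : ℕ) : ℝ) / ρ) ^ (1/4 : ℝ) ≤ 8 * (h : ℝ) ^ (-(1/4) : ℝ) := by
        have := tp_rp (a := (ρ : ℝ)) (b := (h : ℝ)) (D := 8) (by linarith) (by linarith)
          (by norm_num) r2
        simpa using this
      set kk := (K : ℝ) ^ (-(1/4) : ℝ)
      set ll := (h : ℝ) ^ (-(1/4) : ℝ)
      have g1 := q1.trans (mul_le_mul_of_nonneg_left e1 hC.le)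
      have g2 := q2.trans (mul_le_mul_of_nonneg_left e2 hC.le)
      refine h1.trans ?_
      calc Q S (t3_An X1 v 1 ρ) * Q S (t3_An X2 w 1 ρ)
          ≤ (C * (((B : ℝ) + 4) * kk)) * (C * (8 * ll)) :=
            mul_le_mul g1 g2 n2 (by positivity)
        _ = (8 * (B + 4) * C ^ 2) * kk * ll := by ring
        _ ≤ (2 * C + 32 * C ^ 3 + 8 * (B + 4) * C ^ 2) * kk * ll := by
            apply mul_le_mul_of_nonneg_right _ hH0.le
            apply mul_le_mul_of_nonneg_right _ hK0.le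
            have : 0 ≤ 2 * C + 32 * C ^ 3 := by positivity
            linarith

end H342L
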